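import Pool.Agent.H89QS.Wr

/-!
# The small cancellation family (helper89)

Letters: `a = 0`, `t = 1`, `c = 2`. The relators are the long relator in `a`, `t` and the powers of
`x c y c` for `x`, `y` among `1`, `a`, `t a t⁻¹`, `t² a t⁻²`.
-/

set_option autoImplicit false

namespace Pool.Agent.H89QS

open Pool.Agent.H17R2 FreeGroup

/-- the words `1`, `a`, `t a t⁻¹`, `t² a t⁻²` -/
def ul : Fin 4 → List (Fin 3 × Bool)
  | 0 => []
  | 1 => [(0, true)]
  | 2 => [(1, true), (0, true), (1, false)]
  | 3 => [(1, true), (1, true), (0, true), (1, false), (1, false)]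

/-- the words `x c y c` -/
def lw (u v : Fin 4) : List (Fin 3 × Bool) := ul u ++ [(2, true)] ++ ul v ++ [(2, true)]

/-- the periodic word `... x c y c x c y c ...` -/
def pw (u v : Fin 4) (k : ℤ) : Fin 3 × Bool :=
  (lw u v).getD (k % ((lw u v).length : ℤ)).toNat (2, true)

theorem lw_len_pos (u v : Fin 4) : 0 < (lw u v).length := by
  revert u v; decide

theorem lw_len_le (u v : Fin 4) : (lw u v).length ≤ 12 := by
  revert u v; decide

theorem lw_len_dvd (u v : Fin 4) : (lw u v).length ∣ 840 := by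
  revert u v; decide

theorem pw_add (u v : Fin 4) (k : ℤ) (j : ℕ) : pw u v (k + j) =
    (lw u v).getD (((k % ((lw u v).length : ℤ)).toNat + j) % (lw u v).length) (2, true) := by
  unfold pw
  congr 1
  have hpos : (0 : ℤ) < ((lw u v).length : ℤ) := by exact_mod_cast lw_len_pos u v
  have h0 := Int.emod_nonneg k hpos.ne'
  generalize ((lw u v).length) = l at *
  have e : ((k + j) % (l : ℤ)) = (((k % (l : ℤ)).toNat + j) % l : ℕ) := by
    push_cast
    rw [Int.toNat_of_nonneg h0, Int.emod_add_emod]
  rw [e, Int.toNat_natCast]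

theorem pw_lt (u v : Fin 4) (k : ℤ) : (k % ((lw u v).length : ℤ)).toNat < (lw u v).length := by
  have hpos : (0 : ℤ) < ((lw u v).length : ℤ) := by exact_mod_cast lw_len_pos u v
  have h0 := Int.emod_nonneg k hpos.ne'
  have h1 := Int.emod_lt_of_pos k hpos
  omega

theorem pw_per (u v : Fin 4) (k m : ℤ) : pw u v (k + 840 * m) = pw u v k := by
  obtain ⟨d, hd⟩ := lw_len_dvd u v
  unfold pw
  have : (k + 840 * m) % ((lw u v).length : ℤ) = k % ((lw u v).length : ℤ) := by
    have e : (840 : ℤ) = (lw u v).length * d := by exact_mod_cast hd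
    rw [e, mul_assoc, Int.add_mul_emod_self_left]
  rw [this]

theorem dec_red : ∀ u v : Fin 4, ∀ r : Fin 12, r.val < (lw u v).length →
    (lw u v).getD ((r.val + 1) % (lw u v).length) (2, true) ≠
      ((lw u v).getD r.val (2, true)).map id not := by
  decide

theorem dec_c : ∀ u v : Fin 4, ∀ r : Fin 12, r.val < (lw u v).length →
    ∃ k : Fin 12, (lw u v).getD ((r.val + k.val) % (lw u v).length) (2, true) = (2, true) := by
  decide

theorem dec_ne : ∀ u v : Fin 4, ∀ r : Fin 12, r.val < (lw u v).length →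
    (lw u v).getD r.val (2, true) ≠ (2, false) := by
  decide

theorem pw_red (u v : Fin 4) (k : ℤ) : pw u v (k + 1) ≠ inv2 (pw u v k) := by
  have h1 := pw_add u v k 1
  have h2 := pw_lt u v k
  have h3 := lw_len_le u v
  have h4 := dec_red u v ⟨(k % ((lw u v).length : ℤ)).toNat, by omega⟩ h2
  push_cast at h1
  rw [h1]
  exact h4

theorem pw_ne (u v : Fin 4) (k : ℤ) : pw u v k ≠ (2, false) := by
  have h2 := pw_lt u v k
  have h3 := lw_len_le u v
  exact dec_ne u v ⟨(k % ((lw u v).length : ℤ)).toNat, by omega⟩ h2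

theorem pw_c (u v : Fin 4) (s : ℤ) : ∃ k : ℕ, k < 12 ∧ pw u v (s + k) = (2, true) := by
  have h2 := pw_lt u v s
  have h3 := lw_len_le u v
  obtain ⟨k, hk⟩ := dec_c u v ⟨(s % ((lw u v).length : ℤ)).toNat, by omega⟩ h2
  refine ⟨k.val, k.2, ?_⟩
  rw [pw_add]
  exact hk

theorem pw_c' (u v : Fin 4) (s : ℤ) : ∃ k : ℕ, k < 12 ∧ pw u v (s - k - 1) = (2, true) := by
  obtain ⟨k, hk, h⟩ := pw_c u v (s - 12)
  refine ⟨11 - k, by omega, ?_⟩
  rw [← h]
  congr 1
  omega

theorem lab_c (u v : Fin 4) (s : ℤ) (ε : Bool) : ∃ k : ℕ, k < 12 ∧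
    lab (pw u v) s ε k = (2, ε) := by
  cases ε
  · obtain ⟨k, hk, h⟩ := pw_c' u v s
    refine ⟨k, hk, ?_⟩
    show inv2 (pw u v (s - k - 1)) = _
    rw [h]; rfl
  · exact pw_c u v s

theorem lab_ne (u v : Fin 4) (s : ℤ) (ε : Bool) (k : ℤ) : lab (pw u v) s ε k ≠ (2, !ε) := by
  cases ε
  · show inv2 (pw u v (s - k - 1)) ≠ _
    have := pw_ne u v (s - k - 1)
    intro h
    apply this
    have h2 := congrArg inv2 h
    rw [inv2_inv2] at h2
    exact h2
  · exact pw_ne u v (s + k)

theorem lab_per (u v : Fin 4) (s : ℤ) (ε : Bool) (k m : ℤ) :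
    lab (pw u v) s ε (k + 840 * m) = lab (pw u v) s ε k := by
  cases ε
  · show inv2 (pw u v (s - (k + 840 * m) - 1)) = inv2 (pw u v (s - k - 1))
    rw [show s - (k + 840 * m) - 1 = (s - k - 1) + 840 * (-m) by ring, pw_per]
  · show pw u v (s + (k + 840 * m)) = pw u v (s + k)
    rw [← add_assoc, pw_per]

theorem labr_fst (n s : ℤ) (ε : Bool) (k : ℤ) : (lab (Wr.wr n) s ε k).1 ≠ 2 := by
  cases ε
  · exact Wr.wr_fst_ne n _
  · exact Wr.wr_fst_ne n _

theorem labr_ne (n s : ℤ) (ε : Bool) (k : ℤ) : lab (Wr.wr n) s ε k ≠ (0, !ε) := by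
  cases ε
  · intro h
    have h2 := congrArg inv2 h
    change inv2 (inv2 (Wr.wr n (s - k - 1))) = _ at h2
    rw [inv2_inv2] at h2
    exact Wr.wr_ne n _ h2
  · exact Wr.wr_ne n _

theorem labr_a {n : ℤ} (hn : 3 ≤ n) (s : ℤ) (ε : Bool) : ∃ k : ℕ, (k : ℤ) < 3 * n + 10 ∧
    lab (Wr.wr n) s ε k = (0, ε) := by
  cases ε
  · obtain ⟨z1, h1, h2, i, hi, hin, hz⟩ := Wr.exists_start hn (s - (3 * n + 10))
    have h3 := (Wr.gap hn hi hin hz).2.1 1 le_rfl (by omega)
    refine ⟨(s - (z1 + 1) - 1).toNat, by omega, ?_⟩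
    show inv2 (Wr.wr n (s - ((s - (z1 + 1) - 1).toNat : ℤ) - 1)) = _
    rw [Int.toNat_of_nonneg (by omega), show s - (s - (z1 + 1) - 1) - 1 = z1 + 1 by ring, h3]
    rfl
  · obtain ⟨z1, h1, h2, i, hi, hin, hz⟩ := Wr.exists_start hn s
    have h3 := (Wr.gap hn hi hin hz).2.1 1 le_rfl (by omega)
    refine ⟨(z1 + 1 - s).toNat, by omega, ?_⟩
    show Wr.wr n (s + ((z1 + 1 - s).toNat : ℤ)) = _
    rw [Int.toNat_of_nonneg (by omega), show s + (z1 + 1 - s) = z1 + 1 by ring, h3]

/-- the family of words -/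
def fB (n K : ℤ) : Set ((ℤ → Fin 3 × Bool) × ℤ) :=
  {b | b = (Wr.wr n, Wr.Lr n) ∨ ∃ u v : Fin 4, b = (pw u v, 840 * K)}

/-- admissible parameters -/
structure Adm (n K : ℤ) : Prop where
  hn : 3 ≤ n
  odd : n % 2 = 1
  hK : 40 ≤ K
  big : K * (6 * n + 12) ≤ 2 * n ^ 2 + 7

theorem Adm.T {n K : ℤ} (h : Adm n K) {t : ℕ} (ht : Wr.Lr n ≤ K * t) : 6 * n + 12 ≤ t := by
  have h1 := h.big
  have h2 := h.hK
  have h3 : K * (6 * n + 12) ≤ K * t := h1.trans ht
  exact le_of_mul_le_mul_left h3 (by omega)

/-- the small cancellation family -/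
noncomputable def fam {n K : ℤ} (h : Adm n K) : Words (Fin 3) where
  B := fB n K
  K := K
  hK := by have := h.hK; omega
  per := by
    rintro b (rfl | ⟨u, v, rfl⟩) k
    · exact Wr.wr_congr (by simp)
    · exact pw_per u v k K
  red := by
    rintro b (rfl | ⟨u, v, rfl⟩) k
    · exact Wr.wr_red h.hn k
    · exact pw_red u v k
  KL := by
    have hK := h.hK
    rintro b (rfl | ⟨u, v, rfl⟩)
    · show K ≤ 2 * n ^ 2 + 7
      have := h.big
      have := h.hn
      nlinarith
    · show K ≤ 840 * K
      omega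
  sc := by
    have hK := h.hK
    have hn := h.hn
    rintro b (rfl | ⟨u, v, rfl⟩) b' (rfl | ⟨u', v', rfl⟩) s s' ε ε' t ht hKt
    · -- both long
      have hT : 6 * n + 12 ≤ t := h.T (by rcases hKt with h1 | h1 <;> exact h1)
      refine ⟨?_, rfl⟩
      simp only at ht ⊢
      by_cases hε : ε = ε'
      · subst hε
        cases ε
        · have := Wr.window hn (s := s - t) (s' := s' - t) (T := t) (by omega) (by
            intro k h0 hk
            have := ht (t - 1 - k).toNat (by omega)
            rw [Int.toNat_of_nonneg (by omega)] at this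
            have h2 := congrArg inv2 this
            change inv2 (inv2 (Wr.wr n (s - (t - 1 - k) - 1))) =
              inv2 (inv2 (Wr.wr n (s' - (t - 1 - k) - 1))) at h2
            rw [inv2_inv2, inv2_inv2] at h2
            rw [show s - t + k = s - (t - 1 - k) - 1 by ring, h2]
            congr 1; ring)
          intro k
          show inv2 (Wr.wr n (s - k - 1)) = inv2 (Wr.wr n (s' - k - 1))
          congr 1
          apply Wr.wr_congr
          rw [show s - k - 1 = (s - t) + (t - k - 1) by ring,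
            show s' - k - 1 = (s' - t) + (t - k - 1) by ring]
          exact Int.ModEq.add_right _ this
        · have := Wr.window hn (s := s) (s' := s') (T := t) (by omega) (by
            intro k h0 hk
            have := ht k.toNat (by omega)
            rw [Int.toNat_of_nonneg h0] at this
            exact this)
          intro k
          exact Wr.wr_congr (Int.ModEq.add_right _ this)
      · exfalso
        obtain ⟨k, hk, hl⟩ := labr_a hn s ε
        have h1 := ht k (by omega)
        rw [hl] at h1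
        apply labr_ne n s' ε' k
        rw [← h1]
        cases ε <;> cases ε' <;> simp_all
    · exfalso
      have hT : (12 : ℤ) ≤ t := by
        rcases hKt with h1 | h1
        · have := h.T h1; omega
        · simp only at h1
          have : 840 * K ≤ K * t := h1
          by_contra hc
          push Not at hc
          nlinarith
      obtain ⟨k, hk, hl⟩ := lab_c u' v' s' ε'
      have h1 := ht k (by omega)
      simp only at h1
      rw [hl] at h1
      exact labr_fst n s ε k (by rw [h1])
    · exfalso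
      have hT : (12 : ℤ) ≤ t := by
        rcases hKt with h1 | h1
        · simp only at h1
          by_contra hc
          push Not at hc
          nlinarith
        · have := h.T h1; omega
      obtain ⟨k, hk, hl⟩ := lab_c u v s ε
      have h1 := ht k (by omega)
      simp only at h1
      rw [hl] at h1
      exact labr_fst n s' ε' k (by rw [← h1])
    · refine ⟨?_, rfl⟩
      have hT : (840 : ℤ) ≤ t := by
        have h1 : 840 * K ≤ K * t := by rcases hKt with h1 | h1 <;> exact h1
        by_contra hc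
        push Not at hc
        nlinarith
      simp only at ht ⊢
      intro k
      have h0 := Int.emod_nonneg k (show (840 : ℤ) ≠ 0 by norm_num)
      have h1 := Int.emod_lt_of_pos k (show (0 : ℤ) < 840 by norm_num)
      have h2 := ht (k % 840).toNat (by omega)
      rw [Int.toNat_of_nonneg h0] at h2
      have e : k = k % 840 + 840 * (k / 840) := (Int.emod_add_mul_ediv k 840).symm
      rw [e, lab_per, lab_per, h2]

end Pool.Agent.H89QS
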