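import Pool.Agent.H89QS.Quot
import Pool.Agent.H89QS.Fm

/-!
# Infinite quasi-convex subgroups and normalisation (helper89)

An infinite quasi-convex subgroup `K` of a hyperbolic group is not normalised by an element `t`
all of whose nonzero powers are outside of `K`.
-/

set_option autoImplicit false

namespace Pool.Agent.H89QS

open Pool.Agent.TH64

section NQ

variable {G : Type*} [Group G] (H : Hyp G)

/-- `K` is `R`-quasi-convex for the length of `H`. -/
def HQC (K : Subgroup G) (R : ℕ) : Prop :=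
  ∀ x ∈ K, ∀ y ∈ K, ∀ z, H.d x z + H.d z y = H.d x y → ∃ k ∈ K, H.d z k ≤ R

/-- A point in the middle of a long geodesic is close to a geodesic between points close to the
ends. -/
theorem middle {x y x' y' p : G} {N : ℕ} (hx : H.d x x' ≤ N) (hy : H.d y y' ≤ N)
    (hp : H.d x p + H.d p y = H.d x y) (h1 : N + 4 * H.D < H.d x p) (h2 : N + 4 * H.D < H.d p y) :
    ∃ q, H.d x' q + H.d q y' = H.d x' y' ∧ H.d p q ≤ 4 * H.D := by
  rcases H.slim y' hp with ⟨q, hq, hpq⟩ | ⟨q, hq, hpq⟩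
  · -- `q` on `[x, y']`
    have hq' : H.d y' q + H.d q x = H.d y' x := by
      rw [H.d_comm y' q, H.d_comm q x, H.d_comm y' x]
      omega
    rcases H.slim x' hq' with ⟨r, hr, hqr⟩ | ⟨r, hr, hqr⟩
    · refine ⟨r, ?_, ?_⟩
      · rw [H.d_comm x' r, H.d_comm r y', H.d_comm x' y']
        omega
      · have := H.d_tri p q r
        omega
    · exfalso
      have e1 := H.d_tri x r p
      have e2 := H.d_tri p q r
      have e3 := H.d_comm p r
      omega
  · exfalso
    have e1 := H.d_tri y q p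
    have e2 := H.d_comm p q
    have e3 := H.d_comm p y
    omega

/-- The main statement. -/
theorem not_hqc (K : Subgroup G) (hinf : (K : Set G).Infinite) (t : G)
    (hconj : ∀ k ∈ K, ∀ m : ℤ, t ^ m * k * (t ^ m)⁻¹ ∈ K) (ht : ∀ m : ℤ, t ^ m ∈ K → m = 0)
    (R : ℕ) (hR : HQC H K R) : False := by
  -- for each `m` there is an element of `K t ^ m` of bounded length
  have key : ∀ m : ℤ, ∃ k ∈ K, H.len (k * t ^ m) ≤ 2 * R + 4 * H.D := by
    intro m
    obtain ⟨k, hkK, hk⟩ : ∃ k ∈ K, 2 * (H.len (t ^ m) + 4 * H.D + 1) < H.len k := by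
      by_contra hcon
      push Not at hcon
      exact hinf ((H.fin _).subset hcon)
    obtain ⟨p, hp1, hp2⟩ := H.between 1 k (H.len (t ^ m) + 4 * H.D + 1) (by rw [H.d_one]; omega)
    rw [H.d_one] at hp2
    -- `p` is close to `K`
    obtain ⟨k1, hk1, hpk1⟩ := hR 1 K.one_mem k hkK p (by rw [H.d_one k]; omega)
    -- the geodesic `[t ^ m, k * t ^ m]`
    obtain ⟨q, hq, hpq⟩ := middle H (x := 1) (y := k) (x' := t ^ m) (y' := k * t ^ m) (p := p)
      (N := H.len (t ^ m)) (by rw [H.d_one]) (by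
        show H.len (k⁻¹ * (k * t ^ m)) ≤ _
        rw [inv_mul_cancel_left]) (by rw [H.d_one k]; omega) (by omega) (by omega)
    -- translate by `(t ^ m)⁻¹`
    have hk' : (t ^ m)⁻¹ * k * t ^ m ∈ K := by
      have := hconj k hkK (-m)
      rw [zpow_neg, inv_inv] at this
      exact this
    obtain ⟨k2, hk2, hqk2⟩ := hR 1 K.one_mem _ hk' ((t ^ m)⁻¹ * q) (by
      have e1 : H.d 1 ((t ^ m)⁻¹ * q) = H.d (t ^ m) q := by
        rw [← H.d_mul (t ^ m)]; simp
      have e2 : H.d ((t ^ m)⁻¹ * q) ((t ^ m)⁻¹ * k * t ^ m) = H.d q (k * t ^ m) := by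
        rw [← H.d_mul (t ^ m)]; congr 1 <;> group
      have e3 : H.d 1 ((t ^ m)⁻¹ * k * t ^ m) = H.d (t ^ m) (k * t ^ m) := by
        rw [← H.d_mul (t ^ m)]; congr 1 <;> group
      rw [e1, e2, e3, hq])
    have hqk : H.d q (t ^ m * k2) ≤ R := by
      have e : H.d ((t ^ m)⁻¹ * q) k2 = H.d q (t ^ m * k2) := by
        rw [← H.d_mul (t ^ m)]; congr 1; group
      rwa [← e]
    refine ⟨k1⁻¹ * (t ^ m * k2 * (t ^ m)⁻¹), K.mul_mem (K.inv_mem hk1) (hconj k2 hk2 m), ?_⟩
    have e : H.len (k1⁻¹ * (t ^ m * k2 * (t ^ m)⁻¹) * t ^ m) = H.d k1 (t ^ m * k2) := by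
      unfold Hyp.d
      congr 1
      group
    rw [e]
    have t1 := H.d_tri k1 p (t ^ m * k2)
    have t2 := H.d_tri p q (t ^ m * k2)
    have t3 := H.d_comm p k1
    omega
  choose f hf hlen using key
  have hinj : Function.Injective (fun m : ℤ => f m * t ^ m) := by
    intro m m' hmm
    simp only at hmm
    have h1 : t ^ (m - m') = (f m)⁻¹ * f m' := by
      rw [eq_inv_mul_iff_mul_eq, zpow_sub, ← mul_assoc, hmm, mul_inv_cancel_right]
    have h2 := ht (m - m') (by rw [h1]; exact K.mul_mem (K.inv_mem (hf m)) (hf m'))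
    omega
  have hfin := H.fin (2 * R + 4 * H.D)
  exact Set.infinite_range_of_injective hinj (hfin.subset (by
    rintro _ ⟨m, rfl⟩
    exact hlen m))

end NQ

/-- the lengths of the relators are bounded -/
theorem fam_len {n K : ℤ} (h : Adm n K) :
    ∀ x ∈ (fam h).toFam.fam, x.2 ≤ Wr.Lr n + 840 * K := by
  rintro x ⟨b, hb, g, s, ε, rfl⟩
  have hn := h.hn
  have hK := h.hK
  rcases hb with rfl | ⟨u, v, rfl⟩
  · show Wr.Lr n ≤ _
    omega
  · show 840 * K ≤ Wr.Lr n + 840 * K
    have : 0 ≤ Wr.Lr n := by unfold Wr.Lr; positivity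
    omega

/-- the hyperbolic length on the group -/
noncomputable def HG {n K : ℤ} (h : Adm n K) : Hyp (FreeGroup (Fin 3) ⧸ NN (fam h)) :=
  scHyp (fam h) (fam_len h) (by
    have := h.hK
    have : 0 ≤ Wr.Lr n := by unfold Wr.Lr; positivity
    omega) h.hK

end Pool.Agent.H89QS
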