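import Pool.Agent.H89QS.Mo
import Pool.Agent.H89QS.NQ

/-!
# Cayley graphs and hyperbolic lengths (helper89)
-/

set_option autoImplicit false

namespace Pool.Agent.H89QS

open Pool.Agent.TH64 SimpleGraph

section Cay

variable {G : Type} [Group G]

/-- the Cayley graph -/
def cay (S : Set G) : SimpleGraph G := SimpleGraph.fromRel (fun g h => g⁻¹ * h ∈ S)

theorem cay_adj {S : Set G} {g h : G} : (cay S).Adj g h ↔ g ≠ h ∧ (g⁻¹ * h ∈ S ∨ h⁻¹ * g ∈ S) :=
  SimpleGraph.fromRel_adj _ _ _

theorem cay_connected {S : Set G} (hS : Subgroup.closure S = ⊤) : (cay S).Connected := by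
  rw [connected_iff]
  refine ⟨?_, ⟨1⟩⟩
  have key : ∀ g ∈ Subgroup.closure S, ∀ x : G, (cay S).Reachable x (x * g) := by
    intro g hg
    induction hg using Subgroup.closure_induction with
    | mem g hg =>
      intro x
      by_cases h : x = x * g
      · rw [← h]
      · exact Adj.reachable (cay_adj.2 ⟨h, Or.inl (by rwa [inv_mul_cancel_left])⟩)
    | one => intro x; rw [mul_one]
    | mul g h _ _ ihg ihh =>
      intro x
      rw [← mul_assoc]
      exact (ihg x).trans (ihh _)
    | inv g _ ih =>
      intro x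
      have := ih (x * g⁻¹)
      rw [inv_mul_cancel_right] at this
      exact this.symm
  intro x y
  have := key (x⁻¹ * y) (by rw [hS]; trivial) x
  rwa [mul_inv_cancel_left] at this

/-- functions which are bounded on edges are Lipschitz -/
theorem lip {V : Type} {Γ : SimpleGraph V} (hΓ : Γ.Connected) (δ : V → V → ℕ) (c : ℕ)
    (h0 : ∀ x, δ x x = 0) (htri : ∀ x y z, δ x z ≤ δ x y + δ y z)
    (hadj : ∀ x y, Γ.Adj x y → δ x y ≤ c) (x y : V) : δ x y ≤ c * Γ.dist x y := by
  obtain ⟨p, hp⟩ := hΓ.exists_walk_length_eq_dist x y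
  rw [← hp]
  clear hp
  induction p with
  | nil => rw [h0]; exact Nat.zero_le _
  | cons h p ih =>
    rw [Walk.length_cons, mul_add, mul_one]
    have h1 := hadj _ _ h
    have := htri _ _ _ |>.trans (Nat.add_le_add h1 ih)
    omega

/-- geodesics in connected graphs -/
theorem exists_geo {V : Type} {Γ : SimpleGraph V} (hΓ : Γ.Connected) (x y : V) :
    ∃ q : ℕ → V, q 0 = x ∧ q (Γ.dist x y) = y ∧
      ∀ i j, i ≤ j → j ≤ Γ.dist x y → Γ.dist (q i) (q j) = j - i := by
  obtain ⟨p, hp⟩ := hΓ.exists_walk_length_eq_dist x y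
  have hle : ∀ i j, i ≤ j → j ≤ Γ.dist x y → Γ.dist (p.getVert i) (p.getVert j) ≤ j - i := by
    intro i j hij
    induction j, hij using Nat.le_induction with
    | base => intro _; rw [dist_self]; omega
    | succ j hij ih =>
      intro hj
      have h1 := ih (by omega)
      have h2 := dist_eq_one_iff_adj.mpr (p.adj_getVert_succ (i := j) (by omega))
      have h3 := hΓ.dist_triangle (u := p.getVert i) (v := p.getVert j) (w := p.getVert (j + 1))
      omega
  refine ⟨p.getVert, p.getVert_zero, by rw [← hp, p.getVert_length], ?_⟩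
  intro i j hij hj
  apply le_antisymm (hle i j hij hj)
  have h1 := hle 0 i (Nat.zero_le _) (by omega)
  have h2 := hle j (Γ.dist x y) hj le_rfl
  rw [p.getVert_zero] at h1
  rw [← hp, p.getVert_length] at h2
  have h3 := hΓ.dist_triangle (u := x) (v := p.getVert i) (w := y)
  have h4 := hΓ.dist_triangle (u := p.getVert i) (v := p.getVert j) (w := y)
  omega

variable (H : Hyp G)

/-- the elements of length one -/
def sph : Set G := {g | H.len g = 1}

theorem sph_fin : (sph H).Finite := (H.fin 1).subset (fun g hg => by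
  show H.len g ≤ 1
  exact le_of_eq hg)

theorem sph_gen : Subgroup.closure (sph H) = ⊤ := by
  rw [eq_top_iff]
  intro g _
  have key : ∀ n, ∀ g : G, H.len g = n → g ∈ Subgroup.closure (sph H) := by
    intro n
    induction n with
    | zero => intro g hg; rw [H.eq_one g hg]; exact Subgroup.one_mem _
    | succ n ih =>
      intro g hg
      obtain ⟨h, h1, h2⟩ := H.step g n (by omega)
      have h3 : h⁻¹ * g ∈ Subgroup.closure (sph H) := by
        apply Subgroup.subset_closure
        show H.len _ = 1
        omega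
      have := Subgroup.mul_mem _ (ih h h1) h3
      rwa [mul_inv_cancel_left] at this
  exact key _ g rfl

theorem cay_sph_dist (x y : G) : (cay (sph H)).dist x y = H.d x y := by
  have hc := cay_connected (sph_gen H)
  apply le_antisymm
  · obtain ⟨σ, h0, hn, hg⟩ := H.exists_geo x y
    have key : ∀ i, i ≤ H.d x y → (cay (sph H)).dist (σ 0) (σ i) ≤ i := by
      intro i
      induction i with
      | zero => intro _; rw [dist_self]
      | succ i ih =>
        intro hi
        have h1 := ih (by omega)
        have h2 := hg i (i + 1) (by omega) hi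
        have h3 : (cay (sph H)).Adj (σ i) (σ (i + 1)) := by
          rw [cay_adj]
          refine ⟨?_, Or.inl ?_⟩
          · intro h
            rw [← h, H.d_self] at h2
            omega
          · show H.len _ = 1
            unfold Hyp.d at h2
            omega
        have h4 := dist_eq_one_iff_adj.mpr h3
        have h5 := hc.dist_triangle (u := σ 0) (v := σ i) (w := σ (i + 1))
        omega
    have := key _ le_rfl
    rwa [h0, hn] at this
  · have := lip hc H.d 1 H.d_self H.d_tri (by
      intro x y hxy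
      rw [cay_adj] at hxy
      rcases hxy.2 with h | h
      · exact le_of_eq h
      · rw [H.d_comm]
        exact le_of_eq h) x y
    omega

/-- hyperbolicity of the Cayley graph -/
theorem cay_four (x y z w : G) : (cay (sph H)).dist x y + (cay (sph H)).dist z w ≤
    max ((cay (sph H)).dist x z + (cay (sph H)).dist y w)
      ((cay (sph H)).dist x w + (cay (sph H)).dist y z) + H.D := by
  simp only [cay_sph_dist]
  exact H.fp x y z w

/-- Quasi-convexity does not depend on the generating set. -/
theorem qc_change {S : Set G} (hfin : S.Finite) (hgen : Subgroup.closure S = ⊤) (K : Subgroup G)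
    (R : ℕ) (hR : ∀ x ∈ K, ∀ y ∈ K, ∀ z : G,
      (cay S).dist x z + (cay S).dist z y = (cay S).dist x y →
        ∃ h ∈ K, (cay S).dist z h ≤ R) : ∃ R', HQC H K R' := by
  have hc := cay_connected hgen
  -- comparison of the metrics
  obtain ⟨c, hc1⟩ : ∃ c, ∀ s ∈ S, H.len s ≤ c := by
    obtain ⟨c, hc⟩ := (hfin.image H.len).bddAbove
    exact ⟨c, fun s hs => hc ⟨s, hs, rfl⟩⟩
  have hup : ∀ x y, H.d x y ≤ c * (cay S).dist x y := by
    refine lip hc H.d c H.d_self H.d_tri ?_
    intro x y hxy
    rw [cay_adj] at hxy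
    rcases hxy.2 with h | h
    · exact hc1 _ h
    · rw [H.d_comm]
      exact hc1 _ h
  obtain ⟨L, hL1⟩ : ∃ L, ∀ s ∈ sph H, (cay S).dist 1 s ≤ L := by
    obtain ⟨c, hc⟩ := ((sph_fin H).image ((cay S).dist 1)).bddAbove
    exact ⟨c, fun s hs => hc ⟨s, hs, rfl⟩⟩
  have hinv : ∀ k x y : G, (cay S).dist (k * x) (k * y) ≤ (cay S).dist x y := by
    intro k x y
    have := lip hc (fun x y => (cay S).dist (k * x) (k * y)) 1 (fun x => by simp)
      (fun x y z => hc.dist_triangle) (by
        intro x y hxy
        have h1 : (cay S).Adj (k * x) (k * y) := by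
          rw [cay_adj] at hxy ⊢
          refine ⟨fun h => hxy.1 (mul_left_cancel h), ?_⟩
          have e1 : (k * x)⁻¹ * (k * y) = x⁻¹ * y := by group
          have e2 : (k * y)⁻¹ * (k * x) = y⁻¹ * x := by group
          rw [e1, e2]
          exact hxy.2
        exact (dist_eq_one_iff_adj.mpr h1).le) x y
    simpa using this
  have hlow : ∀ x y, (cay S).dist x y ≤ L * H.d x y := by
    intro x y
    rw [← cay_sph_dist H]
    refine lip (cay_connected (sph_gen H)) (cay S).dist L (fun x => dist_self)
      (fun x y z => hc.dist_triangle) ?_ x y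
    intro x y hxy
    rw [cay_adj] at hxy
    have aux : ∀ x y : G, x⁻¹ * y ∈ sph H → (cay S).dist x y ≤ L := by
      intro x y h
      have h1 := hinv x 1 (x⁻¹ * y)
      rw [mul_one, mul_inv_cancel_left] at h1
      exact h1.trans (hL1 _ h)
    rcases hxy.2 with h | h
    · exact aux x y h
    · rw [dist_comm]
      exact aux y x h
  obtain ⟨C, hC⟩ := morse H c L 0
  refine ⟨C + c * R, ?_⟩
  intro x hx y hy z hz
  obtain ⟨q, hq0, hqn, hq⟩ := exists_geo hc x y
  obtain ⟨n, hn⟩ : ∃ n, n = (cay S).dist x y := ⟨_, rfl⟩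
  rw [← hn] at hqn hq
  obtain ⟨i, hi, hzi⟩ := hC q n (by
    intro i hi
    have h1 := hup (q i) (q (i + 1))
    rw [hq i (i + 1) (by omega) (by omega), show i + 1 - i = 1 by omega, mul_one] at h1
    exact h1) (by
    intro i j hij hj
    rw [← hq i j hij hj, add_zero]
    exact hlow _ _) z (by rw [hq0, hqn]; exact hz)
  have h1 := hq 0 i (Nat.zero_le _) hi
  have h2 := hq i n hi le_rfl
  rw [hq0] at h1
  rw [hqn] at h2
  obtain ⟨k, hk, hik⟩ := hR x hx y hy (q i) (by omega)
  refine ⟨k, hk, ?_⟩
  have h3 := H.d_tri z (q i) k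
  have h4 := hup (q i) k
  have h5 : c * (cay S).dist (q i) k ≤ c * R := Nat.mul_le_mul_left _ hik
  omega

end Cay

end Pool.Agent.H89QS
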