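import Pool.Agent.H89QS.Fam

/-!
# Geodesics in the free group with bounded crossings and the same ends modulo the relations
# are close modulo the relations (helper89, after helper739)
-/

set_option autoImplicit false

namespace Pool.Agent.H89QS

open Pool.Agent.TH64 Pool.Agent.H17R2 FreeGroup

variable {α : Type} [DecidableEq α] [Finite α] {S : Words α}

theorem dz (u v : FreeGroup α) : (((fH α).d u v : ℕ) : ℤ) = fd u v := rfl

/-- The projection is monotone on geodesics. -/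
theorem P_between {x : (ℤ → FreeGroup α) × ℤ} (hx : x ∈ S.toFam.fam) {a b w : FreeGroup α}
    (h : (fH α).d a w + (fH α).d w b = (fH α).d a b) :
    |P x a - P x w| + |P x w - P x b| = |P x a - P x b| := by
  have h' : fd a w + fd w b = fd a b := by
    rw [← dz, ← dz, ← dz]; exact_mod_cast h
  have hab := P_le hx a b
  have na := fd_nonneg a (x.1 (P x a))
  have nw := fd_nonneg (x.1 (P x w)) w
  have nw' := fd_comm (x.1 (P x w)) w
  have nb := fd_nonneg (x.1 (P x b)) b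
  have haw := P_eq hx a w
  have hwb := P_eq hx w b
  have hab2 := P_eq hx a b
  by_cases h1 : P x a = P x w
  · rw [h1, sub_self, abs_zero, zero_add]
  by_cases h2 : P x w = P x b
  · rw [h2, sub_self, abs_zero, add_zero]
  have h3 := haw h1
  have h4 := hwb h2
  rcases abs_cases (P x a - P x w) with ⟨e1, _⟩ | ⟨e1, _⟩ <;>
  rcases abs_cases (P x w - P x b) with ⟨e2, _⟩ | ⟨e2, _⟩ <;>
  rcases abs_cases (P x a - P x b) with ⟨e3, _⟩ | ⟨e3, _⟩ <;> omega

/-- No line is crossed by more than two thirds of its period. -/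
def Good (S : Words α) (a b : FreeGroup α) : Prop :=
  ∀ x ∈ S.toFam.fam, 3 * |P x a - P x b| ≤ 2 * x.2

theorem Good.right {a b w : FreeGroup α} (h : Good S a b)
    (hw : (fH α).d a w + (fH α).d w b = (fH α).d a b) : Good S w b := by
  intro x hx
  have h1 := P_between hx hw
  have h2 := h x hx
  have h3 := abs_nonneg (P x a - P x w)
  omega

theorem Good.mul {a b : FreeGroup α} (g : FreeGroup α) (h : Good S a b) :
    Good S (g * a) (g * b) := by
  intro x hx
  have h1 := P_smul hx g⁻¹ (g * a)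
  have h2 := P_smul hx g⁻¹ (g * b)
  rw [inv_mul_cancel_left] at h1 h2
  rw [← h1, ← h2]
  exact h _ (fam_smul hx g⁻¹)

theorem L_pos {x : (ℤ → FreeGroup α) × ℤ} (hx : x ∈ S.toFam.fam) : 0 < x.2 := by
  have h1 := S.toFam.KL x hx
  have h2 := S.toFam.hK
  omega

/-- points of a line between the projections -/
theorem line_between {x : (ℤ → FreeGroup α) × ℤ} (hx : x ∈ S.toFam.fam) {a b : FreeGroup α}
    (hne : P x a ≠ P x b) {l : ℤ} (hl : |l - P x a| + |l - P x b| = |P x a - P x b|) :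
    (fH α).d a (x.1 l) + (fH α).d (x.1 l) b = (fH α).d a b ∧
      fd a (x.1 l) = fd a (x.1 (P x a)) + |l - P x a| ∧
      fd (x.1 l) b = fd (x.1 (P x b)) b + |l - P x b| := by
  have h1 := (S.toFam.line _ hx).pr_spec a l
  have h2 := (S.toFam.line _ hx).pr_spec b l
  change fd a (x.1 l) = fd a (x.1 (P x a)) + |l - P x a| at h1
  change fd b (x.1 l) = fd b (x.1 (P x b)) + |l - P x b| at h2
  have h3 := P_eq hx a b hne
  rw [fd_comm b (x.1 l), fd_comm b (x.1 (P x b))] at h2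
  refine ⟨?_, h1, h2⟩
  have : fd a (x.1 l) + fd (x.1 l) b = fd a b := by omega
  rw [← dz, ← dz, ← dz] at this
  exact_mod_cast this

/-- sub-segments in the tree -/
theorem tree_cases {a b e p : FreeGroup α} (he : (fH α).d a e + (fH α).d e b = (fH α).d a b)
    (hp : (fH α).d a p + (fH α).d p b = (fH α).d a b) :
    ((fH α).d a p + (fH α).d p e = (fH α).d a e) ∨
    ((fH α).d e p + (fH α).d p b = (fH α).d e b) := by
  have h1 := (fH α).fp p e a b
  have hD : (fH α).D = 0 := rfl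
  rw [hD, (fH α).d_comm p a, (fH α).d_comm e a] at h1
  have h2 := (fH α).d_comm e p
  have h3 := (fH α).d_tri a p e
  have h4 := (fH α).d_tri e p b
  by_cases hle : (fH α).d a p ≤ (fH α).d a e
  · left
    omega
  · right
    omega

theorem general {Λ : ℤ} (hΛ : ∀ x ∈ S.toFam.fam, x.2 ≤ Λ) (hK : 40 ≤ S.K) :
    ∀ (k : ℕ) (a b a' b' : FreeGroup α), (fH α).d a b + (fH α).d a' b' ≤ k →
      Good S a b → Good S a' b' → fd a a' ≤ Λ →
      (∀ x ∈ S.toFam.fam, 40 * |P x a - P x a'| ≤ 6 * x.2) →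
      (∃ n ∈ NN S, b' = n * b) → ∀ p', (fH α).d a' p' + (fH α).d p' b' = (fH α).d a' b' →
      ∃ p, (fH α).d a p + (fH α).d p b = (fH α).d a b ∧ ∃ m ∈ NN S,
        fd p' (m * p) ≤ 2 * Λ := by
  intro k
  induction k using Nat.strong_induction_on with
  | _ k ih =>
  rintro a b a' b' hk hg hg' hd hpr ⟨n, hn, hb⟩ p' hp'
  have haa : (fH α).d a a + (fH α).d a b = (fH α).d a b := by rw [(fH α).d_self, Nat.zero_add]
  have hD : (fH α).D = 0 := rfl
  have hd0 := fd_nonneg a a'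
  by_cases hn1 : n = 1
  · have hb' : b' = b := by rw [hb, hn1, one_mul]
    subst hb'
    rcases (fH α).slim a hp' with ⟨q, hq1, hq2⟩ | ⟨q, hq1, hq2⟩
    · refine ⟨a, haa, 1, (NN S).one_mem, ?_⟩
      rw [one_mul]
      have t1 := (fH α).d_tri p' q a
      rw [hD] at hq2
      rw [(fH α).d_comm a' a] at hq1
      have : (((fH α).d p' a : ℕ) : ℤ) ≤ ((fH α).d a a' : ℕ) := by
        exact_mod_cast (by omega)
      rw [dz, dz] at this
      omega
    · refine ⟨q, ?_, 1, (NN S).one_mem, ?_⟩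
      · rw [(fH α).d_comm a q, (fH α).d_comm q b', (fH α).d_comm a b']
        omega
      · rw [one_mul]
        rw [hD] at hq2
        have : (((fH α).d p' q : ℕ) : ℤ) ≤ 0 := by exact_mod_cast (by omega)
        rw [dz] at this
        omega
  obtain ⟨x, hx, hgr⟩ := greend hn hn1 b
  rw [← hb] at hgr
  have hL := L_pos hx
  have hLΛ := hΛ x hx
  -- linearise
  have hX : 34 * x.2 ≤ 40 * |P x b - P x b'| := by
    by_contra hcon
    push Not at hcon
    nlinarith [abs_nonneg (P x b - P x b')]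
  have hα := hg x hx
  have hβ := hg' x hx
  have hs := hpr x hx
  -- the sign of the rotation
  obtain ⟨σ, hσ, hα1, hβ1⟩ : ∃ σ : ℤ, (σ = 1 ∨ σ = -1) ∧ 0 < σ * (P x b - P x a) ∧
      0 < σ * (P x a' - P x b') := by
    rcases abs_cases (P x b - P x b') with ⟨e3, e3'⟩ | ⟨e3, e3'⟩
    · refine ⟨1, Or.inl rfl, ?_, ?_⟩ <;>
      rcases abs_cases (P x a - P x b) with ⟨e1, e1'⟩ | ⟨e1, e1'⟩ <;>
      rcases abs_cases (P x a' - P x b') with ⟨e2, e2'⟩ | ⟨e2, e2'⟩ <;>
      rcases abs_cases (P x a - P x a') with ⟨e4, e4'⟩ | ⟨e4, e4'⟩ <;> omega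
    · refine ⟨-1, Or.inr rfl, ?_, ?_⟩ <;>
      rcases abs_cases (P x a - P x b) with ⟨e1, e1'⟩ | ⟨e1, e1'⟩ <;>
      rcases abs_cases (P x a' - P x b') with ⟨e2, e2'⟩ | ⟨e2, e2'⟩ <;>
      rcases abs_cases (P x a - P x a') with ⟨e4, e4'⟩ | ⟨e4, e4'⟩ <;> omega
  have hne : P x a ≠ P x b := by
    rintro h; rw [h, sub_self, mul_zero] at hα1; exact lt_irrefl _ hα1
  have hne' : P x a' ≠ P x b' := by
    rintro h; rw [h, sub_self, mul_zero] at hβ1; exact lt_irrefl _ hβ1
  -- the point `e'` of the geodesic from `a'` to `b'`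
  obtain ⟨he1, he2, he3⟩ := line_between hx hne' (l := P x b') (by
    rw [sub_self, abs_zero, add_zero, abs_sub_comm])
  rcases tree_cases he1 hp' with hc | hc
  · -- `p'` is between `a'` and `e'`
    obtain ⟨hw1, -, -⟩ := line_between hx hne (l := P x a) (by
      rw [sub_self, abs_zero, zero_add])
    have hq : (fH α).d (x.1 (P x b')) (x.1 (P x a)) ≤ Λ.toNat := by
      have h1 : (((fH α).d (x.1 (P x b')) (x.1 (P x a)) : ℕ) : ℤ) ≤ Λ := by
        rw [dz, line_dist hx]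
        rcases abs_cases (P x b' - P x a) with ⟨e1, e1'⟩ | ⟨e1, e1'⟩ <;>
        rcases abs_cases (P x a' - P x b') with ⟨e2, e2'⟩ | ⟨e2, e2'⟩ <;>
        rcases abs_cases (P x a - P x a') with ⟨e4, e4'⟩ | ⟨e4, e4'⟩ <;> omega
      omega
    have ha' : (fH α).d a' a ≤ Λ.toNat := by
      have h1 : (((fH α).d a a' : ℕ) : ℤ) ≤ Λ := by rw [dz]; exact hd
      rw [(fH α).d_comm]
      omega
    obtain ⟨p, hp1, hp2⟩ := Close.quad (fH α) ha' hq hc
    refine ⟨p, Close.sub_left (fH α) hw1 hp1, 1, (NN S).one_mem, ?_⟩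
    rw [one_mul, ← dz]
    rw [hD] at hp2
    omega
  · -- `p'` is between `e'` and `b'`: rotate
    obtain ⟨ρ, hρN, hρ, hρP⟩ := exists_rot hx σ
    set l0 : ℤ := P x b' + σ * x.2 with hl0
    set l1 : ℤ := if σ * l0 ≤ σ * P x b then l0 else P x b with hl1
    have key : 40 * |l1 - l0| ≤ 6 * x.2 ∧ |l1 - P x a| + |l1 - P x b| = |P x a - P x b| := by
      rcases hσ with rfl | rfl
      · simp only [one_mul] at hl0 hl1 hα1 hβ1
        by_cases hc : l0 ≤ P x b
        · rw [if_pos hc] at hl1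
          rw [hl1, sub_self, abs_zero]
          refine ⟨by omega, ?_⟩
          rcases abs_cases (l0 - P x a) with ⟨e1, e1'⟩ | ⟨e1, e1'⟩ <;>
          rcases abs_cases (l0 - P x b) with ⟨e2, e2'⟩ | ⟨e2, e2'⟩ <;>
          rcases abs_cases (P x a - P x b) with ⟨e3, e3'⟩ | ⟨e3, e3'⟩ <;>
          rcases abs_cases (P x a' - P x b') with ⟨e4, e4'⟩ | ⟨e4, e4'⟩ <;>
          rcases abs_cases (P x a - P x a') with ⟨e5, e5'⟩ | ⟨e5, e5'⟩ <;> omega
        · rw [if_neg hc] at hl1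
          rw [hl1, sub_self, abs_zero]
          refine ⟨?_, by rw [add_zero, abs_sub_comm]⟩
          rcases abs_cases (P x b - l0) with ⟨e1, e1'⟩ | ⟨e1, e1'⟩ <;>
          rcases abs_cases (P x b - P x b') with ⟨e2, e2'⟩ | ⟨e2, e2'⟩ <;>
          rcases abs_cases (P x a - P x b) with ⟨e3, e3'⟩ | ⟨e3, e3'⟩ <;>
          rcases abs_cases (P x a' - P x b') with ⟨e4, e4'⟩ | ⟨e4, e4'⟩ <;>
          rcases abs_cases (P x a - P x a') with ⟨e5, e5'⟩ | ⟨e5, e5'⟩ <;> omega
      · simp only [neg_one_mul, neg_le_neg_iff] at hl0 hl1 hα1 hβ1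
        by_cases hc : P x b ≤ l0
        · rw [if_pos hc] at hl1
          rw [hl1, sub_self, abs_zero]
          refine ⟨by omega, ?_⟩
          rcases abs_cases (l0 - P x a) with ⟨e1, e1'⟩ | ⟨e1, e1'⟩ <;>
          rcases abs_cases (l0 - P x b) with ⟨e2, e2'⟩ | ⟨e2, e2'⟩ <;>
          rcases abs_cases (P x a - P x b) with ⟨e3, e3'⟩ | ⟨e3, e3'⟩ <;>
          rcases abs_cases (P x a' - P x b') with ⟨e4, e4'⟩ | ⟨e4, e4'⟩ <;>
          rcases abs_cases (P x a - P x a') with ⟨e5, e5'⟩ | ⟨e5, e5'⟩ <;> omega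
        · rw [if_neg hc] at hl1
          rw [hl1, sub_self, abs_zero]
          refine ⟨?_, by rw [add_zero, abs_sub_comm]⟩
          rcases abs_cases (P x b - l0) with ⟨e1, e1'⟩ | ⟨e1, e1'⟩ <;>
          rcases abs_cases (P x b - P x b') with ⟨e2, e2'⟩ | ⟨e2, e2'⟩ <;>
          rcases abs_cases (P x a - P x b) with ⟨e3, e3'⟩ | ⟨e3, e3'⟩ <;>
          rcases abs_cases (P x a' - P x b') with ⟨e4, e4'⟩ | ⟨e4, e4'⟩ <;>
          rcases abs_cases (P x a - P x a') with ⟨e5, e5'⟩ | ⟨e5, e5'⟩ <;> omega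
    obtain ⟨hw1, -, -⟩ := line_between hx hne key.2
    have hρe : ρ * x.1 (P x b') = x.1 l0 := hρ _
    have hdd : fd (x.1 l1) (ρ * x.1 (P x b')) ≤ Λ := by
      rw [hρe, line_dist hx]
      omega
    have hm : (fH α).d (x.1 l1) b + (fH α).d (ρ * x.1 (P x b')) (ρ * b') < k := by
      rw [(fH α).d_mul]
      have h1 : 0 < (((fH α).d a' (x.1 (P x b')) : ℕ) : ℤ) := by
        rw [dz, he2]
        have := fd_nonneg a' (x.1 (P x a'))
        have : 0 < |P x b' - P x a'| := abs_pos.2 (sub_ne_zero.2 (Ne.symm hne'))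
        omega
      omega
    obtain ⟨p, hp1, m, hm1, hm2⟩ := ih _ hm (x.1 l1) b (ρ * x.1 (P x b')) (ρ * b') le_rfl
      (hg.right hw1) (Good.mul ρ (hg'.right he1)) hdd (by
        intro y hy
        rw [hρe]
        rcases overlap hy hx l1 l0 with h | ⟨h1, h2⟩
        · have : 40 * |P y (x.1 l1) - P y (x.1 l0)| ≤ S.K * |P y (x.1 l1) - P y (x.1 l0)| :=
            mul_le_mul_of_nonneg_right hK (abs_nonneg _)
          have := L_pos hy
          omega
        · rw [h2, h1]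
          exact key.1) ⟨ρ * n, (NN S).mul_mem hρN hn, by rw [hb, mul_assoc]⟩
      (ρ * p') (by rw [(fH α).d_mul, (fH α).d_mul, (fH α).d_mul]; exact hc)
    refine ⟨p, Close.sub_right (fH α) hw1 hp1, ρ⁻¹ * m,
      (NN S).mul_mem ((NN S).inv_mem hρN) hm1, ?_⟩
    rw [← fd_mul ρ, mul_assoc, mul_inv_cancel_left]
    exact hm2

/-- Closeness. -/
theorem close {Λ : ℤ} (hΛ : ∀ x ∈ S.toFam.fam, x.2 ≤ Λ) (h0 : 0 ≤ Λ) (hK : 40 ≤ S.K)
    (a b b' : FreeGroup α) (hg : Good S a b) (hg' : Good S a b') (hn : ∃ n ∈ NN S, b' = n * b)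
    (p' : FreeGroup α) (hp : (fH α).d a p' + (fH α).d p' b' = (fH α).d a b') :
    ∃ p, (fH α).d a p + (fH α).d p b = (fH α).d a b ∧ ∃ m ∈ NN S,
      (fH α).d p' (m * p) ≤ (2 * Λ).toNat := by
  obtain ⟨p, h1, m, h2, h3⟩ := general hΛ hK _ a b a b' le_rfl hg hg' (by rw [fd_self]; exact h0)
    (by
      intro x hx
      rw [sub_self, abs_zero, mul_zero]
      have := L_pos hx
      omega) hn p' hp
  refine ⟨p, h1, m, h2, ?_⟩
  rw [← dz] at h3
  omega

end Pool.Agent.H89QS
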