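import Pool.Agent.TH64.Quo2
import Pool.Agent.H17R2.TorsionFree

/-!
# The free group as a hyperbolic space, and the lines of a small cancellation family (helper89)
-/

set_option autoImplicit false

namespace Pool.Agent.H89QS

open Pool.Agent.TH64 Pool.Agent.H17R2 FreeGroup

section base

variable {α : Type} [DecidableEq α] [Finite α]

theorem finite_norm_le (n : ℕ) : {g : FreeGroup α | g.norm ≤ n}.Finite := by
  have h1 : {l : List (α × Bool) | l.length ≤ n}.Finite := List.finite_length_le _ n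
  refine Set.Finite.of_injOn (f := FreeGroup.toWord) (t := {l | l.length ≤ n}) ?_ ?_ h1
  · intro g hg
    exact hg
  · intro a _ b _ h
    exact FreeGroup.toWord_injective h

omit [Finite α] in
theorem exists_initial (g : FreeGroup α) (k : ℕ) (hk : k ≤ g.norm) :
    ∃ h : FreeGroup α, h.norm = k ∧ (h⁻¹ * g).norm + k = g.norm := by
  have hr : FreeGroup.IsReduced g.toWord := FreeGroup.isReduced_toWord
  have h1 : FreeGroup.IsReduced (g.toWord.take k) := List.IsChain.take hr k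
  have h2 : FreeGroup.IsReduced (g.toWord.drop k) := List.IsChain.drop hr k
  have hg : g = FreeGroup.mk (g.toWord.take k) * FreeGroup.mk (g.toWord.drop k) := by
    rw [FreeGroup.mul_mk, List.take_append_drop, FreeGroup.mk_toWord]
  refine ⟨FreeGroup.mk (g.toWord.take k), ?_, ?_⟩
  · rw [FreeGroup.norm, FreeGroup.toWord_mk, h1.reduce_eq, List.length_take]
    exact min_eq_left hk
  · have e : (FreeGroup.mk (g.toWord.take k))⁻¹ * g = FreeGroup.mk (g.toWord.drop k) := by
      rw [inv_mul_eq_iff_eq_mul]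
      exact hg
    rw [e, FreeGroup.norm, FreeGroup.toWord_mk, h2.reduce_eq, List.length_drop]
    have : g.norm = g.toWord.length := rfl
    omega

/-- the free group with its word length -/
noncomputable def fH (α : Type) [DecidableEq α] [Finite α] : Hyp (FreeGroup α) where
  len := FreeGroup.norm
  D := 0
  len_one := FreeGroup.norm_one
  eq_one g h := FreeGroup.norm_eq_zero.1 h
  len_inv g := FreeGroup.norm_inv_eq
  len_mul g h := FreeGroup.norm_mul_le g h
  fp' u v w z := by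
    have h := (fTree α).four u v w z
    change ((u⁻¹ * v).norm : ℤ) + ((w⁻¹ * z).norm : ℤ) ≤
      max (((u⁻¹ * w).norm : ℤ) + ((v⁻¹ * z).norm : ℤ))
        (((u⁻¹ * z).norm : ℤ) + ((v⁻¹ * w).norm : ℤ)) at h
    have h' : (u⁻¹ * v).norm + (w⁻¹ * z).norm ≤
      max ((u⁻¹ * w).norm + (v⁻¹ * z).norm) ((u⁻¹ * z).norm + (v⁻¹ * w).norm) := by
      exact_mod_cast h
    simpa using h'
  step g k hk := exists_initial g k hk
  fin := finite_norm_le

theorem fH_d (u v : FreeGroup α) : (((fH α).d u v : ℕ) : ℤ) = fd u v := rfl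

end base

section lines

variable {α : Type} [DecidableEq α] (S : Words α)

/-- The coordinate of the projection to a line. -/
noncomputable def P (x : (ℤ → FreeGroup α) × ℤ) (p : FreeGroup α) : ℤ := (fTree α).pr x.1 p

/-- The relation subgroup. -/
abbrev NN : Subgroup (FreeGroup α) := S.toFam.N

instance : (NN S).Normal := S.toFam.N_normal

variable {S}

theorem P_smul {x : (ℤ → FreeGroup α) × ℤ} (hx : x ∈ S.toFam.fam) (g p : FreeGroup α) :
    P ((fun k => g * x.1 k), x.2) (g * p) = P x p :=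
  S.toFam.pr_smul g ⟨x, hx⟩ p

theorem fam_smul {x : (ℤ → FreeGroup α) × ℤ} (hx : x ∈ S.toFam.fam) (g : FreeGroup α) :
    (((fun k => g * x.1 k), x.2) : (ℤ → FreeGroup α) × ℤ) ∈ S.toFam.fam := S.toFam.smul_mem g x hx

theorem P_eq {x : (ℤ → FreeGroup α) × ℤ} (hx : x ∈ S.toFam.fam) (p q : FreeGroup α)
    (h : P x p ≠ P x q) : fd p q = fd p (x.1 (P x p)) + |P x p - P x q| + fd (x.1 (P x q)) q :=
  (S.toFam.line _ hx).d_eq p q h

theorem P_lip {x : (ℤ → FreeGroup α) × ℤ} (hx : x ∈ S.toFam.fam) (p q : FreeGroup α) :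
    |P x p - P x q| ≤ fd p q :=
  (S.toFam.line _ hx).lip p q

theorem P_line {x : (ℤ → FreeGroup α) × ℤ} (hx : x ∈ S.toFam.fam) (k : ℤ) :
    P x (x.1 k) = k :=
  (S.toFam.line _ hx).pr_self k

theorem line_dist {x : (ℤ → FreeGroup α) × ℤ} (hx : x ∈ S.toFam.fam) (k l : ℤ) :
    fd (x.1 k) (x.1 l) = |k - l| :=
  S.toFam.line _ hx k l

theorem P_le {x : (ℤ → FreeGroup α) × ℤ} (hx : x ∈ S.toFam.fam) (p q : FreeGroup α) :
    fd p q ≤ fd p (x.1 (P x p)) + |P x p - P x q| + fd (x.1 (P x q)) q := by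
  have h1 := fd_tri p (x.1 (P x p)) q
  have h2 := fd_tri (x.1 (P x p)) (x.1 (P x q)) q
  have h3 := line_dist hx (P x p) (P x q)
  omega

/-- The rotation around a line. -/
theorem exists_rot {x : (ℤ → FreeGroup α) × ℤ} (hx : x ∈ S.toFam.fam) (σ : ℤ) :
    ∃ ρ ∈ NN S, (∀ k, ρ * x.1 k = x.1 (k + σ * x.2)) ∧
      ∀ p, P x (ρ * p) = P x p + σ * x.2 ∧
        fd (ρ * p) (x.1 (P x p + σ * x.2)) = fd p (x.1 (P x p)) := by
  obtain ⟨t, ht, hk⟩ := S.exists_tr x hx
  have hz : ∀ k, t ^ σ * x.1 k = x.1 (k + σ * x.2) := by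
    have hn : ∀ n : ℕ, ∀ k, t ^ n * x.1 k = x.1 (k + n * x.2) := by
      intro n
      induction n with
      | zero => intro k; simp
      | succ n ih =>
        intro k
        have e : k + (n : ℤ) * x.2 + x.2 = k + ((n + 1 : ℕ) : ℤ) * x.2 := by push_cast; ring
        rw [pow_succ', mul_assoc, ih, hk, e]
    intro k
    rcases Int.eq_nat_or_neg σ with ⟨n, rfl | rfl⟩
    · rw [zpow_natCast, hn]
    · have e : k + -(n : ℤ) * x.2 + n * x.2 = k := by ring
      rw [zpow_neg, zpow_natCast, inv_mul_eq_iff_eq_mul, hn, e]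
  refine ⟨t ^ σ, Subgroup.zpow_mem _ ht σ, hz, ?_⟩
  intro p
  have hxl := S.toFam.line _ hx
  have e1 : ∀ k, fd (t ^ σ * p) (x.1 k) = fd p (x.1 (k - σ * x.2)) := by
    intro k
    have := hz (k - σ * x.2)
    rw [sub_add_cancel] at this
    rw [← this, fd_mul]
  have e2 : P x (t ^ σ * p) = P x p + σ * x.2 := by
    apply hxl.pr_eq
    intro k
    show fd _ _ ≤ fd _ _
    rw [e1, e1, add_sub_cancel_right]
    have := hxl.pr_spec p (k - σ * x.2)
    change fd _ _ = fd p (x.1 (P x p)) + |k - σ * x.2 - P x p| at this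
    rw [this]
    have := abs_nonneg (k - σ * x.2 - P x p)
    omega
  refine ⟨e2, ?_⟩
  rw [e1, add_sub_cancel_right]

/-- The Greendlinger property at any base point. -/
theorem greend {n : FreeGroup α} (hn : n ∈ NN S) (h1 : n ≠ 1) (p : FreeGroup α) :
    ∃ x ∈ S.toFam.fam, (S.K - 6) * x.2 ≤ S.K * |P x p - P x (n * p)| := by
  have hc : p⁻¹ * n * p ∈ NN S := by
    have := (S.toFam.N_normal).conj_mem n hn p⁻¹
    rwa [inv_inv] at this
  have hc1 : p⁻¹ * n * p ≠ 1 := by
    intro h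
    apply h1
    have : n = p * (p⁻¹ * n * p) * p⁻¹ := by group
    rw [this, h]; group
  obtain ⟨x, hx⟩ := S.toFam.toLines.windmill _ hc hc1
  change (S.K - 6) * x.1.2 ≤ S.K * |P x.1 1 - P x.1 (p⁻¹ * n * p * 1)| at hx
  refine ⟨_, fam_smul x.2 p, ?_⟩
  have e1 := P_smul x.2 p 1
  have e2 := P_smul x.2 p (p⁻¹ * n * p * 1)
  rw [mul_one] at e1
  rw [show p * (p⁻¹ * n * p * 1) = n * p by group] at e2
  rw [e1, e2]
  exact hx

/-- Overlaps of different lines are small. -/
theorem overlap {x y : (ℤ → FreeGroup α) × ℤ} (hx : x ∈ S.toFam.fam) (hy : y ∈ S.toFam.fam)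
    (s t : ℤ) : S.K * |P x (y.1 s) - P x (y.1 t)| < x.2 ∨
      (x.2 = y.2 ∧ |P x (y.1 s) - P x (y.1 t)| = |s - t|) := by
  by_cases h : x.2 ≤ S.K * |P x (y.1 s) - P x (y.1 t)|
  · right
    obtain ⟨-, h2, h3⟩ := S.toFam.same_of_large ⟨x, hx⟩ ⟨y, hy⟩ s t h
    refine ⟨h2, ?_⟩
    have := h3 (y.1 s) (y.1 t)
    change |P x (y.1 s) - P x (y.1 t)| = |P y (y.1 s) - P y (y.1 t)| at this
    rw [this, P_line hy, P_line hy]
  · left
    omega

end lines

end Pool.Agent.H89QS
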