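import Pool.Agent.H89QS.Rl
import Pool.Agent.H89QS.Fam
import Pool.Agent.Helper705_SA.Amalg

/-!
# The group and its amalgam decomposition (helper89)
-/

set_option autoImplicit false

namespace Pool.Agent.H89QS

open Pool.Agent.H17R2 Pool.Agent.Helper705_SA

noncomputable section

variable {n K : ℤ} (h : Adm n K)

/-- the group -/
abbrev GG : Type := FreeGroup (Fin 3) ⧸ NN (fam h)

/-- the projection -/
def pj : FreeGroup (Fin 3) →* GG h := QuotientGroup.mk' (NN (fam h))

theorem pj_surj : Function.Surjective (pj h) := QuotientGroup.mk'_surjective _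

theorem pj_eq_one {g : FreeGroup (Fin 3)} : pj h g = 1 ↔ g ∈ NN (fam h) :=
  QuotientGroup.eq_one_iff g

def ga : GG h := pj h fa
def gt : GG h := pj h ft
def gc : GG h := pj h fc
def g1 : GG h := pj h f1
def g2 : GG h := pj h f2
def g3 : GG h := pj h f3
def gx (u : Fin 4) : GG h := pj h (fx u)

theorem g1_eq : g1 h = gt h * ga h * (gt h)⁻¹ := by
  unfold g1 gt ga f1; simp only [map_mul, map_inv]

theorem g2_eq : g2 h = gt h * g1 h * (gt h)⁻¹ := by
  unfold g2 g1 gt f2; simp only [map_mul, map_inv]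

theorem g3_eq : g3 h = gt h * g2 h * (gt h)⁻¹ := by
  unfold g3 g2 gt f3; simp only [map_mul, map_inv]

/-- relations -/
theorem rel_long : ∃ U ∈ Subgroup.closure {f1, f2}, fa * U * f3 ∈ (fam h).rel ∧
    fa * U * f3 = zw (Wr.wr n) (Wr.Lr n) := by
  obtain ⟨U, hU, he⟩ := Wr.zw_Lr h.hn h.odd
  exact ⟨U, hU, ⟨_, Or.inl rfl, he.symm⟩, he.symm⟩

theorem rel_mem {g : FreeGroup (Fin 3)} (hg : g ∈ (fam h).rel) : g ∈ NN (fam h) := by
  show g ∈ (fam h).toFam.N
  rw [(fam h).N_eq]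
  exact Subgroup.subset_normalClosure hg

/-- A homomorphism which kills the relators. -/
theorem lift_rel {Q : Type} [Group Q] (φ : FreeGroup (Fin 3) →* Q)
    (h1 : φ (zw (Wr.wr n) (Wr.Lr n)) = 1)
    (h2 : ∀ u v : Fin 4, ∀ m : ℤ, 0 < m → zw (pw u v) (840 * K) =
      (fx u * fc * (fx v * fc)) ^ (m * K) → φ ((fx u * fc * (fx v * fc)) ^ (m * K)) = 1) :
    ∀ g ∈ NN (fam h), φ g = 1 := by
  intro g hg
  have hle : NN (fam h) ≤ φ.ker := by
    show (fam h).toFam.N ≤ _
    rw [(fam h).N_eq]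
    apply Subgroup.normalClosure_le_normal
    rintro r ⟨b, rfl | ⟨u, v, rfl⟩, rfl⟩
    · exact h1
    · obtain ⟨m, hm0, hm⟩ := rel_pw u v K
      show φ (zw (pw u v) (840 * K)) = 1
      rw [hm]
      exact h2 u v m hm0 hm
  exact hle hg

/-- torsion elements -/
theorem tors (u v : Fin 4) : IsOfFinOrder ((gx h u * gc h) * (gx h v * gc h)) := by
  obtain ⟨m, hm0, hm⟩ := rel_pw u v K
  have h1 : (fx u * fc * (fx v * fc)) ^ (m * K) ∈ NN (fam h) :=
    rel_mem h ⟨_, Or.inr ⟨u, v, rfl⟩, hm.symm⟩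
  have h2 := (pj_eq_one h).2 h1
  rw [map_zpow, map_mul, map_mul, map_mul] at h2
  have hK := h.hK
  have hpos : 0 < m * K := by positivity
  rw [isOfFinOrder_iff_zpow_eq_one]
  exact ⟨m * K, hpos.ne', h2⟩

theorem tors1 (u : Fin 4) : IsOfFinOrder (gx h u * gc h) := by
  have := tors h u u
  rw [← sq] at this
  exact (isOfFinOrder_pow.1 this).resolve_right (by norm_num)

/-- the vertex group `A` -/
def AA : Subgroup (GG h) := Subgroup.closure {ga h, gt h}

/-- the edge group `K` -/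
def KK : Subgroup (GG h) := Subgroup.closure {ga h, g1 h, g2 h}

/-- the vertex group `B` -/
def BB : Subgroup (GG h) := Subgroup.closure {ga h, g1 h, g2 h, gc h}

theorem ga_AA : ga h ∈ AA h := Subgroup.subset_closure (Or.inl rfl)
theorem gt_AA : gt h ∈ AA h := Subgroup.subset_closure (Or.inr rfl)
theorem ga_KK : ga h ∈ KK h := Subgroup.subset_closure (Or.inl rfl)
theorem g1_KK : g1 h ∈ KK h := Subgroup.subset_closure (Or.inr (Or.inl rfl))
theorem g2_KK : g2 h ∈ KK h := Subgroup.subset_closure (Or.inr (Or.inr rfl))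
theorem gc_BB : gc h ∈ BB h := Subgroup.subset_closure (Or.inr (Or.inr (Or.inr rfl)))

theorem KK_le_BB : KK h ≤ BB h := by
  unfold KK BB
  apply Subgroup.closure_mono
  rintro x (rfl | rfl | rfl)
  · exact Or.inl rfl
  · exact Or.inr (Or.inl rfl)
  · exact Or.inr (Or.inr (Or.inl rfl))

theorem KK_le_AA : KK h ≤ AA h := by
  have h1 : g1 h ∈ AA h := by
    rw [g1_eq]
    exact (AA h).mul_mem ((AA h).mul_mem (gt_AA h) (ga_AA h)) ((AA h).inv_mem (gt_AA h))
  have h2 : g2 h ∈ AA h := by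
    rw [g2_eq]
    exact (AA h).mul_mem ((AA h).mul_mem (gt_AA h) h1) ((AA h).inv_mem (gt_AA h))
  unfold KK
  rw [Subgroup.closure_le]
  rintro x (rfl | rfl | rfl)
  · exact ga_AA h
  · exact h1
  · exact h2

/-- conjugation of the image of a word in `f1`, `f2` -/
theorem conj_closure {U : FreeGroup (Fin 3)} (hU : U ∈ Subgroup.closure {f1, f2})
    (L : Subgroup (GG h)) (s : GG h) (h1 : s * g1 h * s⁻¹ ∈ L) (h2 : s * g2 h * s⁻¹ ∈ L) :
    s * pj h U * s⁻¹ ∈ L := by
  induction hU using Subgroup.closure_induction with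
  | mem x hx =>
    rcases hx with rfl | rfl
    · exact h1
    · exact h2
  | one => rw [map_one, mul_one, mul_inv_cancel]; exact L.one_mem
  | mul x y _ _ hx hy =>
    rw [map_mul]
    have e : s * (pj h x * pj h y) * s⁻¹ = (s * pj h x * s⁻¹) * (s * pj h y * s⁻¹) := by group
    rw [e]; exact L.mul_mem hx hy
  | inv x _ hx =>
    rw [map_inv]
    have e : s * (pj h x)⁻¹ * s⁻¹ = (s * pj h x * s⁻¹)⁻¹ := by group
    rw [e]; exact L.inv_mem hx

theorem g3_KK : g3 h ∈ KK h := by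
  obtain ⟨U, hU, hr, -⟩ := rel_long h
  have h1 := (pj_eq_one h).2 (rel_mem h hr)
  rw [map_mul, map_mul] at h1
  have h2 : pj h U ∈ KK h := by
    have := conj_closure h hU (KK h) 1 (by simpa using g1_KK h) (by simpa using g2_KK h)
    simpa using this
  have h3 : g3 h = (ga h * pj h U)⁻¹ := (inv_eq_of_mul_eq_one_right h1).symm
  rw [h3]
  exact (KK h).inv_mem ((KK h).mul_mem (ga_KK h) h2)

theorem ga_conj : (gt h)⁻¹ * ga h * gt h ∈ KK h := by
  obtain ⟨U, hU, hr, -⟩ := rel_long h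
  have h1 := (pj_eq_one h).2 (rel_mem h hr)
  rw [map_mul, map_mul] at h1
  have h2 : (gt h)⁻¹ * pj h U * (gt h)⁻¹⁻¹ ∈ KK h := by
    apply conj_closure h hU
    · rw [g1_eq]
      have : (gt h)⁻¹ * (gt h * ga h * (gt h)⁻¹) * (gt h)⁻¹⁻¹ = ga h := by group
      rw [this]; exact ga_KK h
    · rw [g2_eq]
      have : (gt h)⁻¹ * (gt h * g1 h * (gt h)⁻¹) * (gt h)⁻¹⁻¹ = g1 h := by group
      rw [this]; exact g1_KK h
  have h3 : pj h f3 = gt h * g2 h * (gt h)⁻¹ := g3_eq h
  change ga h * pj h U * pj h f3 = 1 at h1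
  rw [h3] at h1
  have h4 : (gt h)⁻¹ * ga h * gt h = (((gt h)⁻¹ * pj h U * (gt h)⁻¹⁻¹) * g2 h)⁻¹ := by
    have h5 : ga h = (pj h U * (gt h * g2 h * (gt h)⁻¹))⁻¹ := by
      rw [eq_inv_iff_mul_eq_one, ← mul_assoc]; exact h1
    rw [h5]; group
  rw [h4]
  exact (KK h).inv_mem ((KK h).mul_mem h2 (g2_KK h))

theorem KK_conj {k : GG h} (hk : k ∈ KK h) : gt h * k * (gt h)⁻¹ ∈ KK h := by
  unfold KK at hk
  induction hk using Subgroup.closure_induction with
  | mem x hx =>
    rcases hx with rfl | rfl | rfl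
    · rw [← g1_eq]; exact g1_KK h
    · rw [← g2_eq]; exact g2_KK h
    · rw [← g3_eq]; exact g3_KK h
  | one => rw [mul_one, mul_inv_cancel]; exact (KK h).one_mem
  | mul x y _ _ hx hy =>
    have e : gt h * (x * y) * (gt h)⁻¹ = (gt h * x * (gt h)⁻¹) * (gt h * y * (gt h)⁻¹) := by group
    rw [e]; exact (KK h).mul_mem hx hy
  | inv x _ hx =>
    have e : gt h * x⁻¹ * (gt h)⁻¹ = (gt h * x * (gt h)⁻¹)⁻¹ := by group
    rw [e]; exact (KK h).inv_mem hx

theorem KK_conj' {k : GG h} (hk : k ∈ KK h) : (gt h)⁻¹ * k * gt h ∈ KK h := by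
  unfold KK at hk
  induction hk using Subgroup.closure_induction with
  | mem x hx =>
    rcases hx with rfl | rfl | rfl
    · exact ga_conj h
    · rw [g1_eq]
      have : (gt h)⁻¹ * (gt h * ga h * (gt h)⁻¹) * gt h = ga h := by group
      rw [this]; exact ga_KK h
    · rw [g2_eq]
      have : (gt h)⁻¹ * (gt h * g1 h * (gt h)⁻¹) * gt h = g1 h := by group
      rw [this]; exact g1_KK h
  | one => rw [mul_one, inv_mul_cancel]; exact (KK h).one_mem
  | mul x y _ _ hx hy =>
    have e : (gt h)⁻¹ * (x * y) * gt h = ((gt h)⁻¹ * x * gt h) * ((gt h)⁻¹ * y * gt h) := by group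
    rw [e]; exact (KK h).mul_mem hx hy
  | inv x _ hx =>
    have e : (gt h)⁻¹ * x⁻¹ * gt h = ((gt h)⁻¹ * x * gt h)⁻¹ := by group
    rw [e]; exact (KK h).inv_mem hx

theorem KK_zpow (m : ℤ) : ∀ k ∈ KK h, gt h ^ m * k * (gt h ^ m)⁻¹ ∈ KK h := by
  induction m using Int.induction_on with
  | zero => intro k hk; simpa using hk
  | succ m ih =>
    intro k hk
    have e : gt h ^ ((m : ℤ) + 1) * k * (gt h ^ ((m : ℤ) + 1))⁻¹ =
        gt h * (gt h ^ (m : ℤ) * k * (gt h ^ (m : ℤ))⁻¹) * (gt h)⁻¹ := by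
      rw [zpow_add_one, ((Commute.refl (gt h)).zpow_left (m : ℤ)).eq]; group
    rw [e]; exact KK_conj h (ih k hk)
  | pred m ih =>
    intro k hk
    have e : gt h ^ (-(m : ℤ) - 1) * k * (gt h ^ (-(m : ℤ) - 1))⁻¹ =
        (gt h)⁻¹ * (gt h ^ (-(m : ℤ)) * k * (gt h ^ (-(m : ℤ)))⁻¹) * gt h := by
      rw [zpow_sub_one, ((Commute.refl (gt h)).zpow_left (-(m : ℤ))).inv_right.eq]; group
    rw [e]; exact KK_conj' h (ih k hk)

/-- elements of `A` -/
theorem AA_form {x : GG h} (hx : x ∈ AA h) : ∃ k ∈ KK h, ∃ m : ℤ, x = k * gt h ^ m := by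
  unfold AA at hx
  induction hx using Subgroup.closure_induction with
  | mem x hx =>
    rcases hx with rfl | rfl
    · exact ⟨_, ga_KK h, 0, by simp⟩
    · exact ⟨1, (KK h).one_mem, 1, by simp⟩
  | one => exact ⟨1, (KK h).one_mem, 0, by simp⟩
  | mul x y _ _ hx hy =>
    obtain ⟨k, hk, m, rfl⟩ := hx
    obtain ⟨k', hk', m', rfl⟩ := hy
    refine ⟨k * (gt h ^ m * k' * (gt h ^ m)⁻¹), (KK h).mul_mem hk (KK_zpow h m k' hk'), m + m', ?_⟩
    rw [zpow_add]; group
  | inv x _ hx =>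
    obtain ⟨k, hk, m, rfl⟩ := hx
    refine ⟨gt h ^ (-m) * k⁻¹ * (gt h ^ (-m))⁻¹, KK_zpow h (-m) _ ((KK h).inv_mem hk), -m, ?_⟩
    rw [mul_inv_rev, zpow_neg]; group

/-- `K` is normal in `A` -/
theorem KK_normal {x k : GG h} (hx : x ∈ AA h) (hk : k ∈ KK h) : x * k * x⁻¹ ∈ KK h := by
  obtain ⟨k', hk', m, rfl⟩ := AA_form h hx
  have e : k' * gt h ^ m * k * (k' * gt h ^ m)⁻¹ = k' * (gt h ^ m * k * (gt h ^ m)⁻¹) * k'⁻¹ := by
    group
  rw [e]
  exact (KK h).mul_mem ((KK h).mul_mem hk' (KK_zpow h m k hk)) ((KK h).inv_mem hk')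

/-- The character `t ↦ 1`. -/
theorem exists_chi : ∃ χ : GG h →* Multiplicative ℤ, χ (gt h) = Multiplicative.ofAdd 1 ∧
    χ (ga h) = 1 ∧ χ (gc h) = 1 := by
  let φ : FreeGroup (Fin 3) →* Multiplicative ℤ :=
    FreeGroup.lift (fun i => if i = 1 then Multiplicative.ofAdd 1 else 1)
  have ea : φ fa = 1 := by
    show FreeGroup.lift _ (FreeGroup.of 0) = 1
    rw [FreeGroup.lift_apply_of]; rfl
  have et : φ ft = Multiplicative.ofAdd 1 := by
    show FreeGroup.lift _ (FreeGroup.of 1) = _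
    rw [FreeGroup.lift_apply_of]; rfl
  have ec : φ fc = 1 := by
    show FreeGroup.lift _ (FreeGroup.of 2) = 1
    rw [FreeGroup.lift_apply_of]; rfl
  have e1 : φ f1 = 1 := by unfold f1; rw [map_mul, map_mul, map_inv, ea]; simp
  have e2 : φ f2 = 1 := by unfold f2; rw [map_mul, map_mul, map_inv, e1]; simp
  have e3 : φ f3 = 1 := by unfold f3; rw [map_mul, map_mul, map_inv, e2]; simp
  have ex : ∀ u, φ (fx u) = 1 := by
    intro u; fin_cases u
    · exact map_one φ
    · exact ea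
    · exact e1
    · exact e2
  have hk := lift_rel h φ (by
    obtain ⟨U, hU, -, he⟩ := rel_long h
    have : φ U = 1 := by
      have hle : Subgroup.closure {f1, f2} ≤ φ.ker := by
        rw [Subgroup.closure_le]
        rintro x (rfl | rfl)
        · exact e1
        · exact e2
      exact hle hU
    rw [← he, map_mul, map_mul, ea, this, e3]; simp) (by
    intro u v m _ _
    rw [map_zpow, map_mul, map_mul, map_mul, ex, ex, ec]; simp)
  exact ⟨QuotientGroup.lift (NN (fam h)) φ hk, et, ea, ec⟩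

/-- The character `c ↦ 1` modulo two. -/
theorem exists_eta : ∃ χ : GG h →* Multiplicative (ZMod 2), χ (gt h) = 1 ∧
    χ (ga h) = 1 ∧ χ (gc h) ≠ 1 := by
  let φ : FreeGroup (Fin 3) →* Multiplicative (ZMod 2) :=
    FreeGroup.lift (fun i => if i = 2 then Multiplicative.ofAdd 1 else 1)
  have ea : φ fa = 1 := by
    show FreeGroup.lift _ (FreeGroup.of 0) = 1
    rw [FreeGroup.lift_apply_of]; rfl
  have et : φ ft = 1 := by
    show FreeGroup.lift _ (FreeGroup.of 1) = _
    rw [FreeGroup.lift_apply_of]; rfl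
  have ec : φ fc = Multiplicative.ofAdd 1 := by
    show FreeGroup.lift _ (FreeGroup.of 2) = _
    rw [FreeGroup.lift_apply_of]; rfl
  have e1 : φ f1 = 1 := by unfold f1; rw [map_mul, map_mul, map_inv, ea]; simp
  have e2 : φ f2 = 1 := by unfold f2; rw [map_mul, map_mul, map_inv, e1]; simp
  have e3 : φ f3 = 1 := by unfold f3; rw [map_mul, map_mul, map_inv, e2]; simp
  have ex : ∀ u, φ (fx u) = 1 := by
    intro u; fin_cases u
    · exact map_one φ
    · exact ea
    · exact e1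
    · exact e2
  have hk := lift_rel h φ (by
    obtain ⟨U, hU, -, he⟩ := rel_long h
    have : φ U = 1 := by
      have hle : Subgroup.closure {f1, f2} ≤ φ.ker := by
        rw [Subgroup.closure_le]
        rintro x (rfl | rfl)
        · exact e1
        · exact e2
      exact hle hU
    rw [← he, map_mul, map_mul, ea, this, e3]; simp) (by
    intro u v m _ _
    rw [map_zpow, map_mul, map_mul, map_mul, ex, ex, ec, one_mul]
    have : (Multiplicative.ofAdd (1 : ZMod 2)) * Multiplicative.ofAdd 1 = 1 := by decide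
    rw [this, one_zpow])
  refine ⟨QuotientGroup.lift (NN (fam h)) φ hk, et, ea, ?_⟩
  show φ fc ≠ 1
  rw [ec]; decide

theorem gc_not_AA : gc h ∉ AA h := by
  obtain ⟨χ, h1, h2, h3⟩ := exists_eta h
  intro hc
  have : AA h ≤ χ.ker := by
    unfold AA
    rw [Subgroup.closure_le]
    rintro x (rfl | rfl)
    · exact h2
    · exact h1
  exact h3 (this hc)

theorem gt_zpow_KK {m : ℤ} (hm : gt h ^ m ∈ KK h) : m = 0 := by
  obtain ⟨χ, h1, h2, h3⟩ := exists_chi h
  have : KK h ≤ χ.ker := by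
    unfold KK
    rw [Subgroup.closure_le]
    rintro x (rfl | rfl | rfl)
    · exact h2
    · show χ _ = 1
      rw [g1_eq, map_mul, map_mul, map_inv, h2]; simp
    · show χ _ = 1
      rw [g2_eq, g1_eq]; simp only [map_mul, map_inv, h2]; simp
  have h4 : χ (gt h ^ m) = 1 := this hm
  rw [map_zpow, h1, ← ofAdd_zsmul] at h4
  have := Multiplicative.ofAdd.injective (h4.trans ofAdd_zero.symm)
  simpa using this

theorem inf_eq : AA h ⊓ BB h = KK h := by
  apply le_antisymm
  · rintro x ⟨hxA, hxB⟩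
    obtain ⟨χ, h1, h2, h3⟩ := exists_chi h
    have hB : BB h ≤ χ.ker := by
      unfold BB
      rw [Subgroup.closure_le]
      rintro x (rfl | rfl | rfl | rfl)
      · exact h2
      · show χ _ = 1
        rw [g1_eq, map_mul, map_mul, map_inv, h2]; simp
      · show χ _ = 1
        rw [g2_eq, g1_eq]; simp only [map_mul, map_inv, h2]; simp
      · exact h3
    obtain ⟨k, hk, m, rfl⟩ := AA_form h hxA
    have h4 : χ (k * gt h ^ m) = 1 := hB hxB
    have h5 : χ k = 1 := hB (KK_le_BB h hk)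
    rw [map_mul, h5, one_mul, map_zpow, h1, ← ofAdd_zsmul] at h4
    have h6 := Multiplicative.ofAdd.injective (h4.trans ofAdd_zero.symm)
    have h7 : m = 0 := by simpa using h6
    rw [h7, zpow_zero, mul_one]
    exact hk
  · exact le_inf (KK_le_AA h) (KK_le_BB h)

theorem gx_KK (u : Fin 4) : gx h u ∈ KK h := by
  fin_cases u
  · show pj h 1 ∈ _
    rw [map_one]; exact (KK h).one_mem
  · exact ga_KK h
  · exact g1_KK h
  · exact g2_KK h

/-- `B` is generated by the torsion elements `x c`. -/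
theorem BB_le {L : Subgroup (GG h)} (hL : ∀ u, gx h u * gc h ∈ L) : BB h ≤ L := by
  have h0 : gc h ∈ L := by
    have := hL 0
    have e : gx h 0 = 1 := map_one (pj h)
    rwa [e, one_mul] at this
  have hx : ∀ u, gx h u ∈ L := by
    intro u
    have := L.mul_mem (hL u) (L.inv_mem h0)
    rwa [mul_inv_cancel_right] at this
  unfold BB
  rw [Subgroup.closure_le]
  rintro x (rfl | rfl | rfl | rfl)
  · exact hx 1
  · exact hx 2
  · exact hx 3
  · exact h0

theorem sup_eq : AA h ⊔ BB h = ⊤ := by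
  rw [eq_top_iff]
  intro x _
  obtain ⟨w, rfl⟩ := pj_surj h x
  have hA : AA h ≤ AA h ⊔ BB h := le_sup_left
  have hB : BB h ≤ AA h ⊔ BB h := le_sup_right
  induction w using FreeGroup.induction_on with
  | C1 => rw [map_one]; exact Subgroup.one_mem _
  | of i =>
    fin_cases i
    · exact hA (ga_AA h)
    · exact hA (gt_AA h)
    · exact hB (gc_BB h)
  | inv_of i hi => rw [map_inv]; exact Subgroup.inv_mem _ (hi trivial)
  | mul x y hx hy =>
    rw [map_mul]
    exact Subgroup.mul_mem _ (hx trivial) (hy trivial)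

/-- The amalgam decomposition. -/
theorem isAmalgam : IsAmalgam (AA h) (BB h) := by
  refine ⟨sup_eq h, ?_⟩
  intro Q _ f g hfg
  let φ : FreeGroup (Fin 3) →* Q := FreeGroup.lift
    (![f ⟨ga h, ga_AA h⟩, f ⟨gt h, gt_AA h⟩, g ⟨gc h, gc_BB h⟩])
  have ea : φ fa = f ⟨ga h, ga_AA h⟩ := by
    show FreeGroup.lift _ (FreeGroup.of 0) = _
    rw [FreeGroup.lift_apply_of]; rfl
  have et : φ ft = f ⟨gt h, gt_AA h⟩ := by
    show FreeGroup.lift _ (FreeGroup.of 1) = _
    rw [FreeGroup.lift_apply_of]; rfl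
  have ec : φ fc = g ⟨gc h, gc_BB h⟩ := by
    show FreeGroup.lift _ (FreeGroup.of 2) = _
    rw [FreeGroup.lift_apply_of]; rfl
  -- on `⟨a, t⟩`
  have hA : ∀ w ∈ Subgroup.closure {fa, ft}, ∃ hw : pj h w ∈ AA h, φ w = f ⟨pj h w, hw⟩ := by
    intro w hw
    induction hw using Subgroup.closure_induction with
    | mem x hx =>
      rcases hx with rfl | rfl
      · exact ⟨ga_AA h, ea⟩
      · exact ⟨gt_AA h, et⟩
    | one => exact ⟨by rw [map_one]; exact (AA h).one_mem, by
        rw [map_one]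
        have : (⟨pj h 1, by rw [map_one]; exact (AA h).one_mem⟩ : AA h) = 1 :=
          Subtype.ext (map_one _)
        rw [this, map_one]⟩
    | mul x y _ _ hx hy =>
      obtain ⟨hx1, hx2⟩ := hx
      obtain ⟨hy1, hy2⟩ := hy
      refine ⟨by rw [map_mul]; exact (AA h).mul_mem hx1 hy1, ?_⟩
      rw [map_mul, hx2, hy2, ← map_mul]
      rfl
    | inv x _ hx =>
      obtain ⟨hx1, hx2⟩ := hx
      refine ⟨by rw [map_inv]; exact (AA h).inv_mem hx1, ?_⟩
      rw [map_inv, hx2, ← map_inv]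
      rfl
  have ma : fa ∈ Subgroup.closure {fa, ft} := Subgroup.subset_closure (Or.inl rfl)
  have mt : ft ∈ Subgroup.closure {fa, ft} := Subgroup.subset_closure (Or.inr rfl)
  have m1 : f1 ∈ Subgroup.closure {fa, ft} :=
    Subgroup.mul_mem _ (Subgroup.mul_mem _ mt ma) (Subgroup.inv_mem _ mt)
  have m2 : f2 ∈ Subgroup.closure {fa, ft} :=
    Subgroup.mul_mem _ (Subgroup.mul_mem _ mt m1) (Subgroup.inv_mem _ mt)
  have m3 : f3 ∈ Subgroup.closure {fa, ft} :=
    Subgroup.mul_mem _ (Subgroup.mul_mem _ mt m2) (Subgroup.inv_mem _ mt)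
  have hKA : ∀ (w : FreeGroup (Fin 3)) (hw : w ∈ Subgroup.closure {fa, ft})
      (hB : pj h w ∈ BB h), φ w = g ⟨pj h w, hB⟩ := by
    intro w hw hB
    obtain ⟨h1, h2⟩ := hA w hw
    rw [h2]; exact hfg _ h1 hB
  have hB : ∀ w ∈ Subgroup.closure {fa, f1, f2, fc}, ∃ hw : pj h w ∈ BB h,
      φ w = g ⟨pj h w, hw⟩ := by
    intro w hw
    induction hw using Subgroup.closure_induction with
    | mem x hx =>
      rcases hx with rfl | rfl | rfl | rfl
      · exact ⟨KK_le_BB h (ga_KK h), hKA _ ma _⟩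
      · exact ⟨KK_le_BB h (g1_KK h), hKA _ m1 _⟩
      · exact ⟨KK_le_BB h (g2_KK h), hKA _ m2 _⟩
      · exact ⟨gc_BB h, ec⟩
    | one => exact ⟨by rw [map_one]; exact (BB h).one_mem, by
        rw [map_one]
        have : (⟨pj h 1, by rw [map_one]; exact (BB h).one_mem⟩ : BB h) = 1 :=
          Subtype.ext (map_one _)
        rw [this, map_one]⟩
    | mul x y _ _ hx hy =>
      obtain ⟨hx1, hx2⟩ := hx
      obtain ⟨hy1, hy2⟩ := hy
      refine ⟨by rw [map_mul]; exact (BB h).mul_mem hx1 hy1, ?_⟩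
      rw [map_mul, hx2, hy2, ← map_mul]
      rfl
    | inv x _ hx =>
      obtain ⟨hx1, hx2⟩ := hx
      refine ⟨by rw [map_inv]; exact (BB h).inv_mem hx1, ?_⟩
      rw [map_inv, hx2, ← map_inv]
      rfl
  have hk := lift_rel h φ (by
    obtain ⟨U, hU, hr, he⟩ := rel_long h
    have hU' : U ∈ Subgroup.closure {fa, ft} := by
      have hle : Subgroup.closure {f1, f2} ≤ Subgroup.closure {fa, ft} := by
        rw [Subgroup.closure_le]
        rintro x (rfl | rfl)
        · exact m1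
        · exact m2
      exact hle hU
    obtain ⟨h1, h2⟩ := hA (fa * U * f3) (Subgroup.mul_mem _ (Subgroup.mul_mem _ ma hU') m3)
    rw [← he, h2]
    have : (⟨pj h (fa * U * f3), h1⟩ : AA h) = 1 :=
      Subtype.ext ((pj_eq_one h).2 (rel_mem h hr))
    rw [this, map_one]) (by
    intro u v m _ hm
    have hx : ∀ u, fx u ∈ Subgroup.closure {fa, f1, f2, fc} := by
      intro u
      fin_cases u
      · exact Subgroup.one_mem _
      · exact Subgroup.subset_closure (Or.inl rfl)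
      · exact Subgroup.subset_closure (Or.inr (Or.inl rfl))
      · exact Subgroup.subset_closure (Or.inr (Or.inr (Or.inl rfl)))
    have hc : fc ∈ Subgroup.closure {fa, f1, f2, fc} :=
      Subgroup.subset_closure (Or.inr (Or.inr (Or.inr rfl)))
    obtain ⟨h1, h2⟩ := hB ((fx u * fc * (fx v * fc)) ^ (m * K)) (Subgroup.zpow_mem _
      (Subgroup.mul_mem _ (Subgroup.mul_mem _ (hx u) hc) (Subgroup.mul_mem _ (hx v) hc)) _)
    rw [h2]
    have : (⟨pj h ((fx u * fc * (fx v * fc)) ^ (m * K)), h1⟩ : BB h) = 1 :=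
      Subtype.ext ((pj_eq_one h).2 (rel_mem h ⟨_, Or.inr ⟨u, v, rfl⟩, hm.symm⟩))
    rw [this, map_one])
  refine ⟨QuotientGroup.lift (NN (fam h)) φ hk, ?_, ?_⟩
  · rintro ⟨x, hx⟩
    have : ∃ w ∈ Subgroup.closure {fa, ft}, pj h w = x := by
      have h1 : AA h = (Subgroup.closure {fa, ft}).map (pj h) := by
        unfold AA
        rw [MonoidHom.map_closure, Set.image_pair]; rfl
      rw [h1] at hx
      obtain ⟨w, hw, hwx⟩ := hx
      exact ⟨w, hw, hwx⟩
    obtain ⟨w, hw, rfl⟩ := this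
    obtain ⟨h1, h2⟩ := hA w hw
    exact h2
  · rintro ⟨x, hx⟩
    have : ∃ w ∈ Subgroup.closure {fa, f1, f2, fc}, pj h w = x := by
      have h1 : BB h = (Subgroup.closure {fa, f1, f2, fc}).map (pj h) := by
        unfold BB
        rw [MonoidHom.map_closure, Set.image_insert_eq, Set.image_insert_eq, Set.image_pair]; rfl
      rw [h1] at hx
      obtain ⟨w, hw, hwx⟩ := hx
      exact ⟨w, hw, hwx⟩
    obtain ⟨w, hw, rfl⟩ := this
    obtain ⟨h1, h2⟩ := hB w hw
    exact h2

end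

end Pool.Agent.H89QS
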