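import Pool.Agent.H89QS.Fam

/-!
# The Greendlinger property and shortening, for words (helper89)
-/

set_option autoImplicit false

namespace Pool.Agent.H89QS

open Pool.Agent.H17R2

variable {α : Type} [DecidableEq α]

theorem toWord_of_length {l : List (α × Bool)} {g : FreeGroup α} (h : FreeGroup.mk l = g)
    (hl : l.length = g.norm) : g.toWord = l := by
  have h1 : FreeGroup.reduce l = g.toWord := by rw [← h, FreeGroup.toWord_mk]
  have h2 : (FreeGroup.reduce l).Sublist l := (FreeGroup.reduce.red).sublist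
  rw [← h1]
  apply h2.eq_of_length
  rw [h1, hl]; rfl

theorem mk_toWord_split {g : FreeGroup α} {p l : ℕ} (hp : p + l ≤ g.toWord.length)
    {w : ℕ → α × Bool} (hw : ∀ i, i < l → g.toWord[p + i]? = some (w i)) :
    g.toWord = g.toWord.take p ++ (List.range l).map w ++ g.toWord.drop (p + l) := by
  apply List.ext_getElem?
  intro j
  by_cases h1 : j < p
  · rw [List.append_assoc, List.getElem?_append_left (by rw [List.length_take]; omega),
      List.getElem?_take_of_lt h1]
  · by_cases h2 : j < p + l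
    · have h3 := hw (j - p) (by omega)
      rw [show p + (j - p) = j by omega] at h3
      rw [h3, List.getElem?_append_left (by
          rw [List.length_append, List.length_take, List.length_map, List.length_range]; omega),
        List.getElem?_append_right (by rw [List.length_take]; omega), List.length_take,
        min_eq_left (by omega), List.getElem?_map, List.getElem?_range (by omega)]
      rfl
    · rw [List.getElem?_append_right (by
          rw [List.length_append, List.length_take, List.length_map, List.length_range]; omega),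
        List.length_append, List.length_take, List.length_map, List.length_range,
        min_eq_left (by omega), List.getElem?_drop]
      congr 1
      omega

/-- norms of paths -/
theorem norm_zw_le (w : ℤ → α × Bool) (k : ℤ) : ((zw w k).norm : ℤ) ≤ |k| := by
  have hn : ∀ (w : ℤ → α × Bool) (n : ℕ), (zw w n).norm ≤ n := by
    intro w n
    rw [zw_nat]
    refine FreeGroup.norm_mk_le.trans ?_
    simp
  rcases Int.eq_nat_or_neg k with ⟨n, rfl | rfl⟩
  · rw [Nat.abs_cast]
    exact_mod_cast hn w n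
  · have h1 := zw_add w (-(n : ℤ)) n
    rw [neg_add_cancel, zw_zero] at h1
    have h2 : zw w (-(n : ℤ)) = (zw (fun i => w (-(n : ℤ) + i)) n)⁻¹ := by
      rw [eq_inv_iff_mul_eq_one]; exact h1.symm
    rw [h2, FreeGroup.norm_inv_eq, abs_neg, Nat.abs_cast]
    exact_mod_cast hn _ n

variable {S : Words α}

/-- the line in terms of its labels -/
theorem ln_eq (w : ℤ → α × Bool) (g : FreeGroup α) (s : ℤ) (ε : Bool) (k : ℤ) :
    Words.ln w g s ε k = Words.ln w g s ε 0 * zw (lab w s ε) k := by
  refine zp_uniq (fun k => FreeGroup.mk [lab w s ε k]) (Words.ln w g s ε)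
    (fun k => Words.ln w g s ε 0 * zw (lab w s ε) k) (Words.ln_succ _ _ _ _) ?_ ?_ k
  · intro k
    show _ * zw _ (k + 1) = _ * zw _ k * _
    rw [zw_succ, mul_assoc]
  · show _ = _ * zw _ 0
    rw [zw_zero, mul_one]

/-- The period is a relation. -/
theorem zw_period_mem {b : (ℤ → α × Bool) × ℤ} (hb : b ∈ S.B) (s : ℤ) (ε : Bool) :
    zw (lab b.1 s ε) b.2 ∈ NN S := by
  have hx : ((Words.ln b.1 1 s ε, b.2) : (ℤ → FreeGroup α) × ℤ) ∈ S.toFam.fam :=
    ⟨b, hb, 1, s, ε, rfl⟩
  obtain ⟨t, ht, hk⟩ := S.exists_tr _ hx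
  have h1 := hk 0
  simp only [zero_add] at h1
  rw [ln_eq b.1 1 s ε b.2] at h1
  have h2 : zw (lab b.1 s ε) b.2 = (Words.ln b.1 1 s ε 0)⁻¹ * t * Words.ln b.1 1 s ε 0 := by
    rw [mul_assoc, h1]; group
  rw [h2]
  have := (S.toFam.N_normal).conj_mem t ht (Words.ln b.1 1 s ε 0)⁻¹
  rwa [inv_inv] at this

theorem lab_periodic {b : (ℤ → α × Bool) × ℤ} (hb : b ∈ S.B) (s : ℤ) (ε : Bool) (k : ℤ) :
    lab b.1 s ε (k + b.2) = lab b.1 s ε k := by
  cases ε
  · show inv2 (b.1 (s - (k + b.2) - 1)) = inv2 (b.1 (s - k - 1))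
    have := S.per b hb (s - (k + b.2) - 1)
    rw [show s - (k + b.2) - 1 + b.2 = s - k - 1 by ring] at this
    rw [this]
  · show b.1 (s + (k + b.2)) = b.1 (s + k)
    rw [← add_assoc, S.per b hb]

/-- `z(D) = z(L) z(D - L)` -/
theorem zw_sub {b : (ℤ → α × Bool) × ℤ} (hb : b ∈ S.B) (s : ℤ) (ε : Bool) (D : ℤ) :
    zw (lab b.1 s ε) D = zw (lab b.1 s ε) b.2 * zw (lab b.1 s ε) (D - b.2) := by
  have h1 := zp_add_period (fun k => (FreeGroup.mk [lab b.1 s ε k] : FreeGroup α)) b.2 (by
    intro k; rw [lab_periodic hb]) (D - b.2)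
  rw [sub_add_cancel] at h1
  exact h1

/-- **Greendlinger's lemma** for words. -/
theorem green_list {g : FreeGroup α} (hg : g ∈ NN S) (h1 : g ≠ 1) :
    ∃ b ∈ S.B, ∃ (s : ℤ) (ε : Bool) (p D : ℕ), (S.K - 6) * b.2 ≤ S.K * D ∧
      p + D ≤ g.toWord.length ∧ ∀ i : ℕ, i < D → g.toWord[p + i]? = some (lab b.1 s ε i) := by
  obtain ⟨x, hx, D, hD0, hD, hd⟩ := S.toFam.greendlinger g hg h1
  obtain ⟨b, hb, g', s, ε, rfl⟩ := hx
  simp only at hD hd
  obtain ⟨D, rfl⟩ := Int.eq_ofNat_of_zero_le hD0.le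
  set P := Words.ln b.1 g' s ε 0 with hP
  set Q := (Words.ln b.1 g' s ε D)⁻¹ * g with hQ
  have hd' : (g.norm : ℤ) = P.norm + D + Q.norm := by
    have e1 : fd 1 (g * 1) = fd 1 P + D + fd (Words.ln b.1 g' s ε D) (g * 1) := hd
    rw [mul_one, fd_one, fd_one] at e1
    exact e1
  have hgl : g.toWord = P.toWord ++ (List.range D).map (fun i : ℕ => lab b.1 s ε i) ++
      Q.toWord := by
    apply toWord_of_length
    · rw [← FreeGroup.mul_mk, ← FreeGroup.mul_mk, FreeGroup.mk_toWord, FreeGroup.mk_toWord,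
        ← zw_nat, ← ln_eq, hQ]
      group
    · simp only [List.length_append, List.length_map, List.length_range]
      show P.norm + D + Q.norm = g.norm
      omega
  refine ⟨b, hb, s, ε, P.toWord.length, D, hD, ?_, ?_⟩
  · rw [hgl]; simp
  · intro i hi
    rw [hgl, List.getElem?_append_left (by simp; omega),
      List.getElem?_append_right (by omega), Nat.add_sub_cancel_left, List.getElem?_map,
      List.getElem?_range hi]
    rfl

/-- **Shortening.** -/
theorem shorten {g : FreeGroup α} {b : (ℤ → α × Bool) × ℤ} (hb : b ∈ S.B) {s : ℤ} {ε : Bool}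
    {p D : ℕ} (hp : p + D ≤ g.toWord.length)
    (hw : ∀ i : ℕ, i < D → g.toWord[p + i]? = some (lab b.1 s ε i)) (h2 : b.2 < 2 * D) :
    ∃ g' : FreeGroup α, (∃ m ∈ NN S, g = m * g') ∧ g'.norm < g.norm ∧
      ∀ H : Subgroup (FreeGroup α), (∀ l ∈ g.toWord, FreeGroup.mk [l] ∈ H) →
        (∀ k : ℤ, FreeGroup.mk [lab b.1 s ε k] ∈ H) → g' ∈ H := by
  have hs := mk_toWord_split hp hw
  have hg : g = FreeGroup.mk (g.toWord.take p) * zw (lab b.1 s ε) D *
      FreeGroup.mk (g.toWord.drop (p + D)) := by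
    conv_lhs => rw [← FreeGroup.mk_toWord (x := g), hs]
    rw [← FreeGroup.mul_mk, ← FreeGroup.mul_mk, zw_nat]
  set W1 := FreeGroup.mk (g.toWord.take p) with hW1
  set W2 := FreeGroup.mk (g.toWord.drop (p + D)) with hW2
  have hL : 0 < b.2 := by
    have h3 := S.KL b hb
    have h4 := S.hK
    omega
  have hmkH : ∀ (H : Subgroup (FreeGroup α)) (l : List (α × Bool)),
      (∀ a ∈ l, FreeGroup.mk [a] ∈ H) → FreeGroup.mk l ∈ H := by
    intro H l
    induction l with
    | nil => intro _; exact H.one_mem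
    | cons a l ih =>
      intro h
      have : FreeGroup.mk (a :: l) = FreeGroup.mk [a] * FreeGroup.mk l := by
        rw [FreeGroup.mul_mk]; rfl
      rw [this]
      exact H.mul_mem (h a List.mem_cons_self) (ih (fun c hc => h c (List.mem_cons_of_mem _ hc)))
  refine ⟨W1 * zw (lab b.1 s ε) (D - b.2) * W2, ?_, ?_, ?_⟩
  · refine ⟨W1 * zw (lab b.1 s ε) b.2 * W1⁻¹,
      (S.toFam.N_normal).conj_mem _ (zw_period_mem hb s ε) W1, ?_⟩
    conv_lhs => rw [hg, zw_sub hb]
    group
  · have n1 : W1.norm ≤ p := by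
      refine FreeGroup.norm_mk_le.trans ?_
      rw [List.length_take]; omega
    have n2 : W2.norm ≤ g.toWord.length - (p + D) := by
      refine FreeGroup.norm_mk_le.trans ?_
      rw [List.length_drop]
    have n3 := norm_zw_le (lab b.1 s ε) (D - b.2)
    have n4 := FreeGroup.norm_mul_le (W1 * zw (lab b.1 s ε) (D - b.2)) W2
    have n5 := FreeGroup.norm_mul_le W1 (zw (lab b.1 s ε) (D - b.2))
    have n6 : g.norm = g.toWord.length := rfl
    have n7 : ((zw (lab b.1 s ε) (D - b.2)).norm : ℤ) < D := by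
      rcases abs_cases ((D : ℤ) - b.2) with ⟨e, _⟩ | ⟨e, _⟩ <;> omega
    omega
  · intro H h1 h3
    have m1 : W1 ∈ H := hmkH H _ (fun a ha => h1 a (List.mem_of_mem_take ha))
    have m2 : W2 ∈ H := hmkH H _ (fun a ha => h1 a (List.mem_of_mem_drop ha))
    have m3 : zw (lab b.1 s ε) (D - b.2) ∈ H := by
      generalize (D : ℤ) - b.2 = k
      induction k using Int.induction_on with
      | zero => rw [zw_zero]; exact H.one_mem
      | succ k ih => rw [zw_succ]; exact H.mul_mem ih (h3 _)
      | pred k ih =>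
        have := zw_succ (lab b.1 s ε) (-(k : ℤ) - 1)
        rw [sub_add_cancel] at this
        have e : zw (lab b.1 s ε) (-(k : ℤ) - 1) =
            zw (lab b.1 s ε) (-(k : ℤ)) * (FreeGroup.mk [lab b.1 s ε (-(k : ℤ) - 1)])⁻¹ := by
          rw [this]; group
        rw [e]
        exact H.mul_mem ih (H.inv_mem (h3 _))
    exact H.mul_mem (H.mul_mem m1 m3) m2

end Pool.Agent.H89QS
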