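import Pool.Agent.H89QS.Gp
import Pool.Agent.H89QS.Lst

/-!
# The subgroup `A` is malnormal and `a` has infinite order (helper89)
-/

set_option autoImplicit false

namespace Pool.Agent.H89QS

open Pool.Agent.H17R2

section words

/-- words in `a`, `t` -/
def F0 : Subgroup (FreeGroup (Fin 3)) where
  carrier := {g | ∀ l ∈ g.toWord, l.1 ≠ 2}
  mul_mem' := by
    intro a b ha hb l hl
    rw [FreeGroup.toWord_mul] at hl
    have h1 := (FreeGroup.reduce.red (L := a.toWord ++ b.toWord)).sublist.subset hl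
    rcases List.mem_append.1 h1 with h | h
    · exact ha l h
    · exact hb l h
  one_mem' := by
    intro l hl
    rw [FreeGroup.toWord_one] at hl
    simp at hl
  inv_mem' := by
    intro a ha l hl
    rw [FreeGroup.toWord_inv] at hl
    unfold FreeGroup.invRev at hl
    rw [List.mem_reverse, List.mem_map] at hl
    obtain ⟨x, hx, rfl⟩ := hl
    exact ha x hx

theorem mk_single_F0 {l : Fin 3 × Bool} (h : l.1 ≠ 2) : FreeGroup.mk [l] ∈ F0 := by
  intro x hx
  rw [FreeGroup.toWord_mk, FreeGroup.reduce_singleton, List.mem_singleton] at hx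
  rw [hx]; exact h

theorem F0_eq : F0 = Subgroup.closure {fa, ft} := by
  apply le_antisymm
  · intro g hg
    have hg' : ∀ l ∈ g.toWord, l.1 ≠ 2 := hg
    rw [← FreeGroup.mk_toWord (x := g)]
    generalize g.toWord = w at hg'
    induction w with
    | nil => exact Subgroup.one_mem _
    | cons a l ih =>
      have e : FreeGroup.mk (a :: l) = FreeGroup.mk [a] * FreeGroup.mk l := by
        rw [FreeGroup.mul_mk]; rfl
      rw [e]
      refine Subgroup.mul_mem _ ?_ (ih (fun c hc => hg' c (List.mem_cons_of_mem _ hc)))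
      have ha := hg' a List.mem_cons_self
      have ma : fa ∈ Subgroup.closure {fa, ft} := Subgroup.subset_closure (Or.inl rfl)
      have mt : ft ∈ Subgroup.closure {fa, ft} := Subgroup.subset_closure (Or.inr rfl)
      obtain ⟨i, ε⟩ := a
      fin_cases i <;> cases ε
      · have : FreeGroup.mk [((0 : Fin 3), false)] = fa⁻¹ := by
          unfold fa; rw [FreeGroup.inv_mk]; rfl
        exact this ▸ Subgroup.inv_mem _ ma
      · exact ma
      · exact mk_T ▸ Subgroup.inv_mem _ mt
      · exact mt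
      · exact absurd rfl ha
      · exact absurd rfl ha
  · rw [Subgroup.closure_le]
    rintro x (rfl | rfl)
    · exact mk_single_F0 (by simp)
    · exact mk_single_F0 (by simp)

theorem lab_shift {α : Type} (w : ℤ → α × Bool) (s : ℤ) (ε : Bool) (i k : ℤ) :
    lab w s ε (i + k) = lab w (s + sg ε * i) ε k := by
  cases ε
  · show inv2 (w (s - (i + k) - 1)) = inv2 (w (s + -1 * i - k - 1))
    congr 2; ring
  · show w (s + (i + k)) = w (s + 1 * i + k)
    congr 1; ring

theorem lin {K L X : ℤ} (hK : 40 ≤ K) (hL : 0 < L) (hX : 0 ≤ X) (h : (K - 6) * L ≤ K * X) :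
    34 * L ≤ 40 * X := by
  by_contra hcon
  push Not at hcon
  nlinarith

theorem seg {α : Type} {w : ℤ → α × Bool} {s : ℤ} {ε : Bool} {W V : List (α × Bool)}
    {p D o q r : ℕ} (hW : ∀ i : ℕ, i < D → W[p + i]? = some (lab w s ε i))
    (hV : ∀ j, o ≤ j → j < o + V.length → W[j]? = V[j - o]?)
    (h1 : p ≤ q) (h3 : r ≤ p + D) (h4 : o ≤ q) (h5 : r ≤ o + V.length) :
    ∀ i : ℕ, i < r - q → V[(q - o) + i]? = some (lab w (s + sg ε * ((q : ℤ) - p)) ε i) := by
  intro i hi
  have e1 := hV (q + i) (by omega) (by omega)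
  have e2 := hW (q - p + i) (by omega)
  rw [show p + (q - p + i) = q + i by omega, e1, show q + i - o = q - o + i by omega] at e2
  rw [e2]
  congr 1
  have e3 : ((q - p + i : ℕ) : ℤ) = ((q : ℤ) - p) + i := by omega
  rw [e3, lab_shift]

theorem inv_head {g : FreeGroup (Fin 3)} {l : Fin 3 × Bool}
    (h : g.toWord[g.toWord.length - 1]? = some l) : (g⁻¹).toWord[0]? = some (inv2 l) := by
  rw [FreeGroup.toWord_inv]
  unfold FreeGroup.invRev
  rw [← List.head?_eq_getElem?, List.head?_reverse, List.getLast?_map,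
    List.getLast?_eq_getElem?, h]
  rfl

end words

section

variable {n K : ℤ} (h : Adm n K)

theorem pj_F0 {x : FreeGroup (Fin 3)} (hx : x ∈ F0) : pj h x ∈ AA h := by
  rw [F0_eq] at hx
  have h1 : AA h = (Subgroup.closure {fa, ft}).map (pj h) := by
    unfold AA
    rw [MonoidHom.map_closure, Set.image_pair]; rfl
  rw [h1]
  exact ⟨x, hx, rfl⟩

theorem exists_F0 {x : GG h} (hx : x ∈ AA h) : ∃ w ∈ F0, pj h w = x := by
  have h1 : AA h = (Subgroup.closure {fa, ft}).map (pj h) := by
    unfold AA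
    rw [MonoidHom.map_closure, Set.image_pair]; rfl
  rw [h1] at hx
  obtain ⟨w, hw, hwx⟩ := hx
  rw [SetLike.mem_coe, ← F0_eq] at hw
  exact ⟨w, hw, hwx⟩

theorem pj_eq_of {m g g' : FreeGroup (Fin 3)} (hm : m ∈ NN (fam h)) (e : g = m * g') :
    pj h g' = pj h g := by
  rw [e, map_mul, (pj_eq_one h).2 hm, one_mul]

/-- minimal words in `a`, `t` -/
theorem exists_min {x : GG h} (hx : x ∈ AA h) : ∃ w ∈ F0, pj h w = x ∧
    ∀ w' ∈ F0, pj h w' = x → w.norm ≤ w'.norm := by
  classical
  have hex : ∃ N, ∃ w ∈ F0, pj h w = x ∧ w.norm = N := by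
    obtain ⟨w, h1, h2⟩ := exists_F0 h hx
    exact ⟨_, w, h1, h2, rfl⟩
  obtain ⟨w, h1, h2, h3⟩ := Nat.find_spec hex
  refine ⟨w, h1, h2, ?_⟩
  intro w' h1' h2'
  rw [h3]
  exact Nat.find_min' hex ⟨w', h1', h2', rfl⟩

/-- a minimal word in `a`, `t` contains at most half of the long relator -/
theorem min_no_long {w : FreeGroup (Fin 3)} (hw : w ∈ F0)
    (hmin : ∀ w' ∈ F0, pj h w' = pj h w → w.norm ≤ w'.norm) {s : ℤ} {ε : Bool} {p D : ℕ}
    (hp : p + D ≤ w.toWord.length)
    (hl : ∀ i : ℕ, i < D → w.toWord[p + i]? = some (lab (Wr.wr n) s ε i)) :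
    2 * (D : ℤ) ≤ Wr.Lr n := by
  by_contra hcon
  push Not at hcon
  obtain ⟨g', ⟨m, hm, he⟩, h2, h3⟩ := shorten (S := fam h) (b := (Wr.wr n, Wr.Lr n))
    (Or.inl rfl) hp hl hcon
  have h4 := hmin g' (h3 F0 (fun l hl => mk_single_F0 (hw l hl))
    (fun k => mk_single_F0 (labr_fst n s ε k))) (pj_eq_of h hm he)
  omega

/-- `A` is malnormal -/
theorem malnormal {g x : GG h} (hg : g ∉ AA h) (hx : x ∈ AA h) (hx1 : x ≠ 1)
    (hy : g * x * g⁻¹ ∈ AA h) : False := by
  classical
  -- a shortest representative of the double coset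
  have hex : ∃ N, ∃ γ : FreeGroup (Fin 3), (∃ u ∈ AA h, ∃ v ∈ AA h, pj h γ = u * g * v) ∧
      γ.norm = N := by
    obtain ⟨γ, hγ⟩ := pj_surj h g
    exact ⟨_, γ, ⟨1, (AA h).one_mem, 1, (AA h).one_mem, by rw [hγ]; simp⟩, rfl⟩
  obtain ⟨γ, ⟨u, hu, v, hv, hγ⟩, hN⟩ := Nat.find_spec hex
  have hmin : ∀ γ' : FreeGroup (Fin 3), (∃ u ∈ AA h, ∃ v ∈ AA h, pj h γ' = u * g * v) →
      γ.norm ≤ γ'.norm := by
    intro γ' h'
    rw [hN]
    exact Nat.find_min' hex ⟨γ', h', rfl⟩
  have hminN : ∀ γ' : FreeGroup (Fin 3), pj h γ' = pj h γ → γ.norm ≤ γ'.norm := by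
    intro γ' h'
    exact hmin γ' ⟨u, hu, v, hv, by rw [h', hγ]⟩
  have hγA : pj h γ ∉ AA h := by
    intro hc
    apply hg
    have e : g = u⁻¹ * pj h γ * v⁻¹ := by rw [hγ]; group
    rw [e]
    exact (AA h).mul_mem ((AA h).mul_mem ((AA h).inv_mem hu) hc) ((AA h).inv_mem hv)
  set x' := v⁻¹ * x * v with hx'
  have hx'A : x' ∈ AA h := (AA h).mul_mem ((AA h).mul_mem ((AA h).inv_mem hv) hx) hv
  have hx'1 : x' ≠ 1 := by
    intro hc
    apply hx1
    have e : x = v * x' * v⁻¹ := by rw [hx']; group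
    rw [e, hc]; group
  set y' := pj h γ * x' * (pj h γ)⁻¹ with hy'
  have hy'A : y' ∈ AA h := by
    have e : y' = u * (g * x * g⁻¹) * u⁻¹ := by rw [hy', hγ, hx']; group
    rw [e]
    exact (AA h).mul_mem ((AA h).mul_mem hu hy) ((AA h).inv_mem hu)
  have hy'1 : y' ≠ 1 := by
    intro hc
    apply hx'1
    have e : x' = (pj h γ)⁻¹ * y' * pj h γ := by rw [hy']; group
    rw [e, hc]; group
  obtain ⟨ξ, hξ, hξx, hξmin⟩ := exists_min h hx'A
  obtain ⟨υ, hυ, hυy, hυmin⟩ := exists_min h ((AA h).inv_mem hy'A)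
  rw [← hξx] at hξmin
  rw [← hυy] at hυmin
  -- the words are not empty
  have hγ1 : 0 < γ.toWord.length := by
    rcases Nat.eq_zero_or_pos γ.toWord.length with h0 | h0
    · exfalso
      apply hγA
      have : γ = 1 := FreeGroup.norm_eq_zero.1 h0
      rw [this, map_one]; exact (AA h).one_mem
    · exact h0
  have hξ1 : 0 < ξ.toWord.length := by
    rcases Nat.eq_zero_or_pos ξ.toWord.length with h0 | h0
    · exfalso
      apply hx'1
      have : ξ = 1 := FreeGroup.norm_eq_zero.1 h0
      rw [← hξx, this, map_one]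
    · exact h0
  -- the ends of `γ`
  obtain ⟨l0, hl0, hl02⟩ : ∃ l, γ.toWord[0]? = some l ∧ l.1 = 2 := by
    rcases hw : γ.toWord with _ | ⟨l, w⟩
    · rw [hw] at hγ1; simp at hγ1
    · refine ⟨l, by simp, ?_⟩
      by_contra hc
      have e : γ = FreeGroup.mk [l] * FreeGroup.mk w := by
        rw [FreeGroup.mul_mk, ← FreeGroup.mk_toWord (x := γ), hw]; rfl
      have h1 := hmin (FreeGroup.mk w) ⟨(pj h (FreeGroup.mk [l]))⁻¹ * u,
        (AA h).mul_mem ((AA h).inv_mem (pj_F0 h (mk_single_F0 hc))) hu, v, hv, by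
          rw [mul_assoc, mul_assoc, ← mul_assoc u, ← hγ]
          conv_rhs => rw [e, map_mul]
          group⟩
      have h2 : (FreeGroup.mk w).norm ≤ w.length := FreeGroup.norm_mk_le
      have h3 : γ.norm = w.length + 1 := by
        show γ.toWord.length = _
        rw [hw]; rfl
      omega
  obtain ⟨l1, hl1, hl12⟩ : ∃ l, γ.toWord[γ.toWord.length - 1]? = some l ∧ l.1 = 2 := by
    rcases List.eq_nil_or_concat γ.toWord with hw | ⟨w, l, hw⟩
    · rw [hw] at hγ1; simp at hγ1
    · refine ⟨l, by rw [hw]; simp, ?_⟩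
      by_contra hc
      have e : γ = FreeGroup.mk w * FreeGroup.mk [l] := by
        rw [FreeGroup.mul_mk, ← FreeGroup.mk_toWord (x := γ), hw]; simp
      have h1 := hmin (FreeGroup.mk w) ⟨u, hu, v * (pj h (FreeGroup.mk [l]))⁻¹,
        (AA h).mul_mem hv ((AA h).inv_mem (pj_F0 h (mk_single_F0 hc))), by
          rw [← mul_assoc, ← hγ]
          conv_rhs => rw [e, map_mul]
          group⟩
      have h2 : (FreeGroup.mk w).norm ≤ w.length := FreeGroup.norm_mk_le
      have h3 : γ.norm = w.length + 1 := by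
        show γ.toWord.length = _
        rw [hw]; simp
      omega
  have hl1' := inv_head hl1
  have hinvlen : (γ⁻¹).toWord.length = γ.toWord.length := FreeGroup.norm_inv_eq
  -- the word
  set W := υ.toWord ++ (γ.toWord ++ (ξ.toWord ++ (γ⁻¹).toWord)) with hW
  have hmk : FreeGroup.mk W = υ * (γ * (ξ * γ⁻¹)) := by
    rw [hW, ← FreeGroup.mul_mk, ← FreeGroup.mul_mk, ← FreeGroup.mul_mk, FreeGroup.mk_toWord,
      FreeGroup.mk_toWord, FreeGroup.mk_toWord, FreeGroup.mk_toWord]
  have hred : FreeGroup.IsReduced W := by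
    have hR : ∀ g : FreeGroup (Fin 3), FreeGroup.IsReduced g.toWord :=
      fun g => FreeGroup.isReduced_toWord
    have hR' : ∀ g : FreeGroup (Fin 3), List.IsChain (fun a b => a.1 = b.1 → a.2 = b.2) g.toWord :=
      fun g => FreeGroup.isReduced_toWord
    unfold FreeGroup.IsReduced
    rw [hW, List.isChain_append, List.isChain_append, List.isChain_append]
    refine ⟨hR' υ, ⟨hR' γ, ⟨hR' ξ, hR' γ⁻¹, ?_⟩, ?_⟩, ?_⟩
    · intro a ha b hb hab
      exfalso
      have h1 := hξ a (List.mem_of_getLast? ha)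
      rw [List.head?_eq_getElem?, hl1'] at hb
      have : b = inv2 l1 := (Option.some.inj hb).symm
      rw [this] at hab
      exact h1 (hab.trans hl12)
    · intro a ha b hb hab
      exfalso
      rw [List.getLast?_eq_getElem?, hl1] at ha
      have e1 : a = l1 := (Option.some.inj ha).symm
      rw [List.head?_append] at hb
      rcases hw : ξ.toWord with _ | ⟨l, w⟩
      · rw [hw] at hξ1; simp at hξ1
      · rw [hw] at hb
        have e2 : b = l := by simpa using hb.symm
        have h1 := hξ l (by rw [hw]; exact List.mem_cons_self)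
        rw [e1, e2] at hab
        exact h1 (hab.symm.trans hl12)
    · intro a ha b hb hab
      exfalso
      have h1 := hυ a (List.mem_of_getLast? ha)
      rcases hw : γ.toWord with _ | ⟨l, w⟩
      · rw [hw] at hγ1; simp at hγ1
      · rw [hw] at hb
        have e2 : b = l := by simpa using hb.symm
        rw [hw] at hl0
        have e3 : l = l0 := by simpa using hl0
        rw [e2, e3] at hab
        exact h1 (hab.trans hl02)
  have hword : (υ * (γ * (ξ * γ⁻¹))).toWord = W := by
    rw [← hmk, FreeGroup.toWord_mk, hred.reduce_eq]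
  have hnN : υ * (γ * (ξ * γ⁻¹)) ∈ NN (fam h) := by
    rw [← pj_eq_one, map_mul, map_mul, map_mul, map_inv, hυy, hξx, ← mul_assoc (pj h γ), ← hy',
      inv_mul_cancel]
  have hn1 : υ * (γ * (ξ * γ⁻¹)) ≠ 1 := by
    intro hc
    have : W.length = 0 := by
      rw [← hword, hc, FreeGroup.toWord_one]; rfl
    rw [hW, List.length_append, List.length_append] at this
    omega
  obtain ⟨b, hb, s, ε, p, D, hKD, hpD, hlab⟩ := green_list hnN hn1
  rw [hword] at hpD hlab
  set a0 := υ.toWord.length with ha0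
  set lγ := γ.toWord.length with hlγ
  set lξ := ξ.toWord.length with hlξ
  have hWlen : W.length = a0 + (lγ + (lξ + lγ)) := by
    rw [hW, List.length_append, List.length_append, List.length_append, hinvlen]
  rw [hWlen] at hpD
  -- positions
  have i1 : ∀ j, 0 ≤ j → j < 0 + υ.toWord.length → W[j]? = υ.toWord[j - 0]? := by
    intro j _ hj
    rw [hW, List.getElem?_append_left (by omega)]; rfl
  have i2 : ∀ j, a0 ≤ j → j < a0 + γ.toWord.length → W[j]? = γ.toWord[j - a0]? := by
    intro j h1 h2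
    rw [hW, List.getElem?_append_right (by omega), List.getElem?_append_left (by omega)]
  have i3 : ∀ j, a0 + lγ ≤ j → j < a0 + lγ + ξ.toWord.length →
      W[j]? = ξ.toWord[j - (a0 + lγ)]? := by
    intro j h1 h2
    rw [hW, List.getElem?_append_right (by omega), List.getElem?_append_right (by omega),
      List.getElem?_append_left (by omega)]
    congr 1; omega
  have i4 : ∀ j, a0 + lγ + lξ ≤ j → j < a0 + lγ + lξ + (γ⁻¹).toWord.length →
      W[j]? = (γ⁻¹).toWord[j - (a0 + lγ + lξ)]? := by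
    intro j h1 h2
    rw [hW, List.getElem?_append_right (by omega), List.getElem?_append_right (by omega),
      List.getElem?_append_right (by omega)]
    congr 1; omega
  have hhead : W[a0]? = some l0 := by
    rw [i2 a0 le_rfl (by omega), Nat.sub_self, hl0]
  have hlast : W[a0 + lγ - 1]? = some l1 := by
    rw [i2 _ (by omega) (by omega), show a0 + lγ - 1 - a0 = lγ - 1 by omega, hl1]
  have hhead' : W[a0 + lγ + lξ]? = some (inv2 l1) := by
    rw [i4 _ le_rfl (by omega), Nat.sub_self, hl1']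
  have hK := h.hK
  have hget : ∀ j, p ≤ j → j < p + D → W[j]? = some (lab b.1 s ε ((j : ℤ) - p)) := by
    intro j h1 h2
    have := hlab (j - p) (by omega)
    rw [show p + (j - p) = j by omega] at this
    rw [this]
    congr 2
    omega
  -- the middle pieces are short
  have hmγ : ∀ q r : ℕ, p ≤ q → r ≤ p + D → a0 ≤ q → r ≤ a0 + γ.toWord.length → q ≤ r →
      2 * ((r - q : ℕ) : ℤ) ≤ b.2 := by
    intro q r h1 h2 h3 h4 h5
    by_contra hcon
    push Not at hcon
    have hs := seg hlab i2 h1 h2 h3 h4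
    obtain ⟨g', ⟨m, hm, he⟩, h6, -⟩ := shorten (S := fam h) hb (g := γ) (p := q - a0)
      (D := r - q) (by omega) hs hcon
    have := hminN g' (pj_eq_of h hm he)
    omega
  have hmγ' : ∀ q r : ℕ, p ≤ q → r ≤ p + D → a0 + lγ + lξ ≤ q →
      r ≤ a0 + lγ + lξ + (γ⁻¹).toWord.length → q ≤ r → 2 * ((r - q : ℕ) : ℤ) ≤ b.2 := by
    intro q r h1 h2 h3 h4 h5
    by_contra hcon
    push Not at hcon
    have hs := seg hlab i4 h1 h2 h3 h4
    obtain ⟨g', ⟨m, hm, he⟩, h6, -⟩ := shorten (S := fam h) hb (g := γ⁻¹)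
      (p := q - (a0 + lγ + lξ)) (D := r - q) (by omega) hs hcon
    have h7 := pj_eq_of h hm he
    have := hminN g'⁻¹ (by rw [map_inv, h7, map_inv, inv_inv])
    rw [FreeGroup.norm_inv_eq] at this h6
    omega
  have hbL : 0 < b.2 := by
    have := (fam h).KL b hb
    have : (fam h).K = K := rfl
    omega
  have hlin : 34 * b.2 ≤ 40 * (D : ℤ) := lin hK hbL (by positivity) hKD
  rcases hb with rfl | ⟨u', v', rfl⟩
  · -- the long relator
    simp only at hlab hget hmγ hmγ' hbL hlin
    have hne : ∀ j l, W[j]? = some l → l.1 = 2 → ¬ (p ≤ j ∧ j < p + D) := by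
      rintro j l h1 h2 ⟨h3, h4⟩
      rw [hget j h3 h4] at h1
      have h5 := Option.some.inj h1
      exact labr_fst n s ε _ (by rw [h5, h2])
    have n1 := hne _ _ hhead hl02
    have n2 := hne _ _ hlast hl12
    have n3 := hne _ _ hhead' (show (inv2 l1).1 = 2 from hl12)
    by_cases c1 : p + D ≤ a0
    · have hs := seg hlab i1 (q := p) (r := p + D) le_rfl le_rfl (by omega) (by omega)
      have := min_no_long h hυ hυmin (p := p - 0) (D := p + D - p) (by omega) hs
      omega
    by_cases c2 : p + D ≤ a0 + lγ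
    · have := hmγ p (p + D) le_rfl le_rfl (by omega) (by omega) (by omega)
      omega
    by_cases c3 : p + D ≤ a0 + lγ + lξ
    · have hs := seg hlab i3 (q := p) (r := p + D) le_rfl le_rfl (by omega) (by omega)
      have := min_no_long h hξ hξmin (p := p - (a0 + lγ)) (D := p + D - p) (by omega) hs
      omega
    · have := hmγ' p (p + D) le_rfl le_rfl (by omega) (by omega) (by omega)
      omega
  · -- the power relators
    simp only at hlab hget hmγ hmγ' hbL hlin
    have hcw : ∀ q : ℕ, p ≤ q → q + 12 ≤ p + D → ∃ j, q ≤ j ∧ j < q + 12 ∧ W[j]? = some (2, ε) := by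
      intro q h1 h2
      obtain ⟨k, hk, hl⟩ := lab_c u' v' (s + sg ε * ((q : ℤ) - p)) ε
      refine ⟨q + k, by omega, by omega, ?_⟩
      rw [hget (q + k) (by omega) (by omega), ← hl, ← lab_shift]
      congr 2
      push_cast; ring
    have hsign : ∀ j l, p ≤ j → j < p + D → W[j]? = some l → l ≠ (2, !ε) := by
      intro j l h1 h2 h3 h4
      rw [hget j h1 h2] at h3
      have h5 := Option.some.inj h3
      exact lab_ne u' v' s ε _ (h5.trans h4)
    have hboth : ¬ ((p ≤ a0 + lγ - 1 ∧ a0 + lγ - 1 < p + D) ∧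
        (p ≤ a0 + lγ + lξ ∧ a0 + lγ + lξ < p + D)) := by
      rintro ⟨⟨h1, h2⟩, ⟨h3, h4⟩⟩
      have h5 := hsign _ _ h1 h2 hlast
      have h6 := hsign _ _ h3 h4 hhead'
      obtain ⟨x0, x1⟩ := l1
      simp only at hl12
      subst hl12
      simp only [inv2] at h6
      revert h5 h6
      cases x1 <;> cases ε <;> simp
    have hυc : ∀ q : ℕ, p ≤ q → q + 12 ≤ p + D → ¬ q + 12 ≤ a0 := by
      intro q h1 h2 h3
      obtain ⟨j, hj1, hj2, hj3⟩ := hcw q h1 h2
      rw [i1 j (by omega) (by omega)] at hj3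
      exact hυ _ (List.mem_of_getElem? hj3) rfl
    have hξc : ∀ q : ℕ, p ≤ q → q + 12 ≤ p + D → ¬ (a0 + lγ ≤ q ∧ q + 12 ≤ a0 + lγ + lξ) := by
      rintro q h1 h2 ⟨h3, h4⟩
      obtain ⟨j, hj1, hj2, hj3⟩ := hcw q h1 h2
      rw [i3 j (by omega) (by omega)] at hj3
      exact hξ _ (List.mem_of_getElem? hj3) rfl
    have e1 := hυc p le_rfl
    have e2 := hξc (max p (a0 + lγ)) (le_max_left _ _)
    have e3 := hmγ (max p a0) (min (p + D) (a0 + lγ)) (le_max_left _ _) (min_le_left _ _)
      (le_max_right _ _) (min_le_right _ _)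
    have e4 := hmγ' (max p (a0 + lγ + lξ)) (p + D) (le_max_left _ _) le_rfl
      (le_max_right _ _) (by omega)
    omega

/-- `a` has infinite order -/
theorem ga_pow_ne {k : ℕ} (hk : 0 < k) : ga h ^ k ≠ 1 := by
  intro hc
  have h1 : fa ^ k ∈ NN (fam h) := by
    rw [← pj_eq_one, map_pow]; exact hc
  have hw : (fa ^ k).toWord = List.replicate k ((0 : Fin 3), true) := by
    show (FreeGroup.of 0 ^ k).toWord = _
    rw [FreeGroup.toWord_of_pow]
  have h2 : fa ^ k ≠ 1 := by
    intro hc
    have := congrArg (fun g => g.toWord.length) hc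
    simp only [hw, List.length_replicate, FreeGroup.toWord_one, List.length_nil] at this
    omega
  obtain ⟨b, hb, s, ε, p, D, hKD, hpD, hlab⟩ := green_list h1 h2
  have hK := h.hK
  have hn := h.hn
  have hbL : 0 < b.2 := by
    have := (fam h).KL b hb
    have : (fam h).K = K := rfl
    omega
  have hlin : 34 * b.2 ≤ 40 * (D : ℤ) := lin hK hbL (by positivity) hKD
  have hall : ∀ i : ℕ, i < D → lab b.1 s ε i = (0, true) := by
    intro i hi
    have h3 := hlab i hi
    rw [hw] at h3
    have h4 := List.mem_of_getElem? h3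
    exact (List.mem_replicate.1 h4).2
  rcases hb with rfl | ⟨u', v', rfl⟩
  · simp only at hall hlin
    have hbig := h.big
    have hL : Wr.Lr n = 2 * n ^ 2 + 7 := rfl
    have hD : 3 * n + 10 < D := by nlinarith
    cases ε
    · obtain ⟨z1, h3, h4, i, hi, hin, hz⟩ := Wr.exists_start hn (s - (3 * n + 10))
      have h5 := (Wr.gap hn hi hin hz).1
      have h6 := hall (s - z1 - 1).toNat (by omega)
      have h7 : (lab (Wr.wr n) s false ((s - z1 - 1).toNat : ℕ)).1 = 1 := by
        show (inv2 (Wr.wr n (s - ((s - z1 - 1).toNat : ℤ) - 1))).1 = 1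
        rw [Int.toNat_of_nonneg (by omega), show s - (s - z1 - 1) - 1 = z1 by ring]
        exact h5
      rw [h6] at h7
      simp at h7
    · obtain ⟨z1, h3, h4, i, hi, hin, hz⟩ := Wr.exists_start hn s
      have h5 := (Wr.gap hn hi hin hz).1
      have h6 := hall (z1 - s).toNat (by omega)
      have h7 : (lab (Wr.wr n) s true ((z1 - s).toNat : ℕ)).1 = 1 := by
        show (Wr.wr n (s + ((z1 - s).toNat : ℤ))).1 = 1
        rw [Int.toNat_of_nonneg (by omega), show s + (z1 - s) = z1 by ring]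
        exact h5
      rw [h6] at h7
      simp at h7
  · simp only at hall hlin
    obtain ⟨k', hk', hl⟩ := lab_c u' v' s ε
    have h3 := hall k' (by omega)
    rw [hl] at h3
    simp at h3

end

end Pool.Agent.H89QS
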