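import Pool.Agent.TH64.Basic

/-!
# The Morse lemma for discrete quasi-geodesics (helper89)
-/

set_option autoImplicit false

namespace Pool.Agent.H89QS

open Pool.Agent.TH64

section Mo

variable {G : Type*} [Group G] (H : Hyp G)

/-- A geodesic is close to each path of small length with the same ends. -/
theorem chain_near (c : ℕ) (k : ℕ) : ∀ (q : ℕ → G) (a b : ℕ), a ≤ b → b ≤ a + 2 ^ k →
    (∀ i, a ≤ i → i < b → H.d (q i) (q (i + 1)) ≤ c) → ∀ p, H.d (q a) p + H.d p (q b) =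
      H.d (q a) (q b) → ∃ i, a ≤ i ∧ i ≤ b ∧ H.d p (q i) ≤ 2 * H.D * k + c := by
  induction k with
  | zero =>
    intro q a b hab hb hs p hp
    have h1 : b = a ∨ b = a + 1 := by
      rw [pow_zero] at hb
      omega
    rcases h1 with rfl | rfl
    · refine ⟨b, le_rfl, le_rfl, ?_⟩
      rw [H.d_self] at hp
      omega
    · refine ⟨a, le_rfl, by omega, ?_⟩
      have := hs a le_rfl (by omega)
      rw [H.d_comm p]
      omega
  | succ k ih =>
    intro q a b hab hb hs p hp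
    rw [pow_succ] at hb
    obtain ⟨m, hm1, hm2, hm3, hm4⟩ : ∃ m, a ≤ m ∧ m ≤ b ∧ m ≤ a + 2 ^ k ∧ b ≤ m + 2 ^ k := by
      by_cases hc : b ≤ a + 2 ^ k
      · exact ⟨b, hab, le_rfl, hc, by omega⟩
      · exact ⟨a + 2 ^ k, by omega, by omega, le_rfl, by omega⟩
    rcases H.slim (q m) hp with ⟨r, hr, hpr⟩ | ⟨r, hr, hpr⟩
    · obtain ⟨i, h1, h2, h3⟩ := ih q a m hm1 hm3 (fun i h1 h2 => hs i h1 (by omega)) r hr
      refine ⟨i, h1, by omega, ?_⟩
      have := H.d_tri p r (q i)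
      rw [show 2 * H.D * (k + 1) = 2 * H.D * k + 2 * H.D by ring]
      omega
    · obtain ⟨i, h1, h2, h3⟩ := ih q m b hm2 hm4 (fun i h1 h2 => hs i (by omega) h2) r (by
        rw [H.d_comm (q m) r, H.d_comm r (q b), H.d_comm (q m) (q b)]
        omega)
      refine ⟨i, by omega, h2, ?_⟩
      have := H.d_tri p r (q i)
      rw [show 2 * H.D * (k + 1) = 2 * H.D * k + 2 * H.D by ring]
      omega

theorem pow_bound (α β : ℕ) : ∃ k0 : ℕ, ∀ k, 2 ^ k ≤ α * k + β → k ≤ k0 := by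
  -- `k ^ 2 < 2 ^ k` for large `k`
  have h4 : ∀ k : ℕ, 4 ≤ k → k ^ 2 ≤ 2 ^ k := by
    intro k hk
    induction k, hk using Nat.le_induction with
    | base => norm_num
    | succ k hk ih =>
      rw [pow_succ 2 k]
      nlinarith
  refine ⟨α + β + 4, ?_⟩
  intro k hk
  by_contra hcon
  push Not at hcon
  have h1 := h4 k (by omega)
  have h2 : (α + β + 1) * k ≤ k ^ 2 := by
    rw [sq]
    exact Nat.mul_le_mul_right _ (by omega)
  have h3 : β ≤ β * k := Nat.le_mul_of_pos_right _ (by omega)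
  have h5 : (α + β + 1) * k = α * k + β * k + k := by ring
  omega

/-- The Morse lemma: a geodesic is uniformly close to a quasi-geodesic with the same ends. -/
theorem morse (c L L' : ℕ) : ∃ C : ℕ, ∀ (q : ℕ → G) (n : ℕ),
    (∀ i, i < n → H.d (q i) (q (i + 1)) ≤ c) →
    (∀ i j, i ≤ j → j ≤ n → j - i ≤ L * H.d (q i) (q j) + L') →
    ∀ p, H.d (q 0) p + H.d p (q n) = H.d (q 0) (q n) → ∃ i, i ≤ n ∧ H.d p (q i) ≤ C := by
  classical
  -- the constants
  obtain ⟨k0, hk0⟩ := pow_bound (2 * L * 6 * (2 * H.D)) (2 * (L * (6 * (4 * H.D + c) +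
    8 * H.D + 2) + L') + 2)
  refine ⟨4 * H.D + 2 * H.D * k0 + c, ?_⟩
  intro q n hs hq p hp
  -- the distance to the path
  have hex : ∀ z, ∃ r, ∃ i, i ≤ n ∧ H.d z (q i) = r := fun z => ⟨_, 0, Nat.zero_le _, rfl⟩
  obtain ⟨ρ, hρ⟩ : ∃ ρ : G → ℕ, ρ = fun z => Nat.find (hex z) := ⟨_, rfl⟩
  have hρ1 : ∀ z, ∃ i, i ≤ n ∧ H.d z (q i) = ρ z := by
    intro z
    rw [hρ]
    exact Nat.find_spec (hex z)
  have hρ2 : ∀ z i, i ≤ n → ρ z ≤ H.d z (q i) := by
    intro z i hi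
    rw [hρ]
    exact Nat.find_min' (hex z) ⟨i, hi, rfl⟩
  -- the maximum over the geodesics
  obtain ⟨z0, hz0, hmax⟩ : ∃ z0, H.d (q 0) z0 + H.d z0 (q n) = H.d (q 0) (q n) ∧
      ∀ z, H.d (q 0) z + H.d z (q n) = H.d (q 0) (q n) → ρ z ≤ ρ z0 := by
    have hfin : {z | H.d (q 0) z + H.d z (q n) = H.d (q 0) (q n)}.Finite := by
      have h1 := H.fin (H.d (q 0) (q n))
      refine Set.Finite.subset (h1.image (fun g => q 0 * g)) ?_
      intro z hz
      refine ⟨(q 0)⁻¹ * z, ?_, by simp⟩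
      show H.d (q 0) z ≤ _
      have : H.d (q 0) z + H.d z (q n) = H.d (q 0) (q n) := hz
      omega
    obtain ⟨z0, hz0, hm⟩ := Set.exists_max_image _ ρ hfin ⟨p, hp⟩
    exact ⟨z0, hz0, hm⟩
  obtain ⟨i1, hi1, hd1⟩ := hρ1 p
  refine ⟨i1, hi1, ?_⟩
  rw [hd1]
  refine (hmax p hp).trans ?_
  obtain ⟨R, hRdef⟩ : ∃ R, R = ρ z0 := ⟨_, rfl⟩
  rw [← hRdef]
  -- the two points
  have hend : ∀ (x y : G) (i0 : ℕ), i0 ≤ n → q i0 = x → H.d x z0 + H.d z0 y = H.d x y →
      (∀ z, H.d x z + H.d z y = H.d x y → ρ z ≤ R) →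
      ∃ y1 a, a ≤ n ∧ H.d x y1 + H.d y1 z0 = H.d x z0 ∧ H.d y1 z0 ≤ 2 * R + 4 * H.D + 1 ∧
        H.d y1 (q a) ≤ R ∧ ∀ r, H.d y1 r + H.d r (q a) = H.d y1 (q a) → H.d z0 r ≤ 4 * H.D →
          R ≤ 4 * H.D := by
    intro x y i0 hi0 hx hz hm
    by_cases hc : H.d x z0 ≤ 2 * R + 4 * H.D + 1
    · refine ⟨x, i0, hi0, by rw [H.d_self]; omega, hc, by rw [hx, H.d_self]; omega, ?_⟩
      intro r hr hzr
      rw [hx, H.d_self] at hr
      have hxr : x = r := H.eq_of_d (by omega)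
      subst hxr
      have := hρ2 z0 i0 hi0
      rw [hx] at this
      omega
    · obtain ⟨y1, h1, h2⟩ := H.between z0 x (2 * R + 4 * H.D + 1) (by rw [H.d_comm]; omega)
      rw [H.d_comm y1 x, H.d_comm z0 x] at h2
      rw [H.d_comm] at h1
      have h3 : H.d x y1 + H.d y1 y = H.d x y := by
        have t1 := H.d_tri y1 z0 y
        have t2 := H.d_tri x y1 y
        omega
      obtain ⟨a, ha, hda⟩ := hρ1 y1
      have h4 := hm y1 h3
      refine ⟨y1, a, ha, by omega, by omega, by omega, ?_⟩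
      intro r hr hzr
      exfalso
      have t1 := H.d_tri z0 r y1
      have t2 := H.d_comm r y1
      have t3 := H.d_comm z0 y1
      omega
  obtain ⟨y1, a, ha, ea, la, da, ga⟩ := hend (q 0) (q n) 0 (Nat.zero_le _) rfl hz0
    (fun z hz => by rw [hRdef]; exact hmax z hz)
  obtain ⟨y2, b, hb, eb, lb, db, gb⟩ := hend (q n) (q 0) n le_rfl rfl (by
    rw [H.d_comm (q n) z0, H.d_comm z0 (q 0), H.d_comm (q n) (q 0)]
    omega) (fun z hz => by
      rw [hRdef]
      refine hmax z ?_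
      rw [H.d_comm (q n) z, H.d_comm z (q 0), H.d_comm (q n) (q 0)] at hz
      omega)
  -- `z0` is on the geodesic from `y1` to `y2`
  have hz12 : H.d y1 z0 + H.d z0 y2 = H.d y1 y2 := by
    have t1 := H.d_tri y1 z0 y2
    have t2 := H.d_tri (q 0) y1 (q n)
    have t3 := H.d_tri y1 y2 (q n)
    have t4 := H.d_comm y2 (q n)
    have t5 := H.d_comm z0 (q n)
    have t6 := H.d_comm z0 y2
    omega
  have hdab : H.d (q a) (q b) ≤ 6 * R + 8 * H.D + 2 := by
    have t1 := H.d_tri (q a) y1 (q b)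
    have t2 := H.d_tri y1 z0 (q b)
    have t3 := H.d_tri z0 y2 (q b)
    have s1 := H.d_comm (q a) y1
    have s2 := H.d_comm z0 y2
    omega
  -- the bound when `z0` is close to a geodesic between `q a` and `q b`
  have fin : ∀ r, H.d (q a) r + H.d r (q b) = H.d (q a) (q b) → H.d z0 r ≤ 4 * H.D →
      R ≤ 4 * H.D + 2 * H.D * k0 + c := by
    have aux : ∀ a b, a ≤ b → b ≤ n → H.d (q a) (q b) ≤ 6 * R + 8 * H.D + 2 → ∀ r,
        H.d (q a) r + H.d r (q b) = H.d (q a) (q b) → H.d z0 r ≤ 4 * H.D →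
        R ≤ 4 * H.D + 2 * H.D * k0 + c := by
      intro a b hab hb hdab r hr hzr
      obtain ⟨k, hk1, hk2⟩ : ∃ k : ℕ, b - a ≤ 2 ^ k ∧ 2 ^ k ≤ 2 * (b - a) + 2 := by
        refine ⟨Nat.log 2 (b - a) + 1, ?_, ?_⟩
        · exact (Nat.lt_pow_succ_log_self (by norm_num) _).le
        · rcases Nat.eq_zero_or_pos (b - a) with h0 | h0
          · rw [h0]; norm_num
          · have := Nat.pow_log_le_self 2 h0.ne'
            rw [pow_succ]
            omega
      obtain ⟨i, h1, h2, h3⟩ := chain_near H c k q a b hab (by omega)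
        (fun i _ hi => hs i (by omega)) r hr
      have h4 := hρ2 z0 i (by omega)
      have h5 := H.d_tri z0 r (q i)
      have h6 : R ≤ 4 * H.D + 2 * H.D * k + c := by omega
      have h7 := hq a b hab hb
      have h8 : k ≤ k0 := by
        apply hk0
        have h9 : L * H.d (q a) (q b) ≤ L * (6 * (4 * H.D + 2 * H.D * k + c) + 8 * H.D + 2) :=
          Nat.mul_le_mul_left _ (by omega)
        have h10 : 2 * L * 6 * (2 * H.D) * k + (2 * (L * (6 * (4 * H.D + c) + 8 * H.D + 2) + L') +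
            2) = 2 * (L * (6 * (4 * H.D + 2 * H.D * k + c) + 8 * H.D + 2) + L') + 2 := by ring
        rw [h10]
        omega
      have h11 : 2 * H.D * k ≤ 2 * H.D * k0 := Nat.mul_le_mul_left _ h8
      omega
    intro r hr hzr
    rcases le_total a b with hab | hab
    · exact aux a b hab hb hdab r hr hzr
    · refine aux b a hab ha (by rw [H.d_comm]; exact hdab) r ?_ hzr
      rw [H.d_comm (q b) r, H.d_comm r (q a), H.d_comm (q b) (q a)]
      omega
  rcases H.slim (q a) hz12 with ⟨r, hr, hzr⟩ | ⟨r, hr, hzr⟩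
  · have := ga r hr (by omega)
    omega
  · -- `r` on `[y2, q a]`
    rcases H.slim (q b) hr with ⟨r', hr', hrr⟩ | ⟨r', hr', hrr⟩
    · have := gb r' hr' (by have := H.d_tri z0 r r'; omega)
      omega
    · exact fin r' hr' (by have := H.d_tri z0 r r'; omega)

end Mo

end Pool.Agent.H89QS
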