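import Pool.Agent.H89QS.Close

/-!
# Small cancellation quotients of free groups are hyperbolic (helper89, after helper64)
-/

set_option autoImplicit false

namespace Pool.Agent.H89QS

open Pool.Agent.TH64 Pool.Agent.H17R2 FreeGroup

variable {α : Type} [DecidableEq α] [Finite α] {S : Words α}

theorem rot_bounds {x : (ℤ → FreeGroup α) × ℤ} (hx : x ∈ S.toFam.fam) (σ : ℤ) :
    ∃ ρ ∈ NN S, ∀ p q, fd (ρ * p) q ≤
      fd p (x.1 (P x p)) + |P x p + σ * x.2 - P x q| + fd (x.1 (P x q)) q := by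
  obtain ⟨ρ, hρ, -, h⟩ := exists_rot hx σ
  refine ⟨ρ, hρ, fun p q => ?_⟩
  have h1 := P_le hx (ρ * p) q
  rw [(h p).1, (h p).2] at h1
  exact h1

/-- Minimal segments cross at most half of the period of a line. -/
theorem min_half {u v : FreeGroup α} (h : ∀ m ∈ NN S, fd u v ≤ fd u (m * v))
    {x : (ℤ → FreeGroup α) × ℤ} (hx : x ∈ S.toFam.fam) : 2 * |P x u - P x v| ≤ x.2 := by
  have hL := L_pos hx
  by_cases hne : P x u = P x v
  · rw [hne, sub_self, abs_zero]; omega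
  have h1 := P_eq hx u v hne
  rcases lt_or_gt_of_ne hne with hlt | hgt
  · obtain ⟨ρ, hρ, hb⟩ := rot_bounds hx (-1)
    have h2 := h ρ hρ
    have h3 := hb v u
    rw [fd_comm (ρ * v) u, fd_comm v, fd_comm _ u] at h3
    rcases abs_cases (P x u - P x v) with ⟨e1, _⟩ | ⟨e1, _⟩ <;>
    rcases abs_cases (P x v + -1 * x.2 - P x u) with ⟨e2, _⟩ | ⟨e2, _⟩ <;> omega
  · obtain ⟨ρ, hρ, hb⟩ := rot_bounds hx 1
    have h2 := h ρ hρ
    have h3 := hb v u
    rw [fd_comm (ρ * v) u, fd_comm v, fd_comm _ u] at h3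
    rcases abs_cases (P x u - P x v) with ⟨e1, _⟩ | ⟨e1, _⟩ <;>
    rcases abs_cases (P x v + 1 * x.2 - P x u) with ⟨e2, _⟩ | ⟨e2, _⟩ <;> omega

/-- The sides of a triangle of minimal perimeter cross at most two thirds of the period. -/
theorem min_tri {a b e : FreeGroup α}
    (h1 : ∀ m ∈ NN S, fd a b + fd a e ≤ fd (m * a) b + fd (m * a) e)
    (h2 : ∀ m ∈ NN S, fd a b + fd b e ≤ fd a (m * b) + fd (m * b) e) : Good S a b := by
  intro x hx
  have hL := L_pos hx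
  by_cases hne : P x a = P x b
  · rw [hne, sub_self, abs_zero]; omega
  have hab := P_eq hx a b hne
  have hae := P_eq hx a e
  have hbe := P_eq hx b e
  have nA := fd_nonneg a (x.1 (P x a))
  have nB := fd_nonneg b (x.1 (P x b))
  have nE := fd_nonneg (x.1 (P x e)) e
  have cB := fd_comm b (x.1 (P x b))
  have cA := fd_comm a (x.1 (P x a))
  have nae := fd_nonneg a e
  have nbe := fd_nonneg b e
  obtain ⟨σ, hσ, hs⟩ : ∃ σ : ℤ, (σ = 1 ∨ σ = -1) ∧ 0 < σ * (P x b - P x a) := by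
    rcases lt_or_gt_of_ne hne with h | h
    · exact ⟨1, Or.inl rfl, by omega⟩
    · exact ⟨-1, Or.inr rfl, by omega⟩
  obtain ⟨ρ, hρ, hb⟩ := rot_bounds hx σ
  obtain ⟨ρ', hρ', hb'⟩ := rot_bounds hx (-σ)
  have i1 := h1 ρ hρ
  have i2 := h2 ρ' hρ'
  have j1 := hb a b
  have j2 := hb a e
  have j3 := hb' b a
  have j4 := hb' b e
  rw [fd_comm (ρ' * b) a] at j3
  by_cases c1 : P x a = P x e
  · -- only rotate `b`
    have c2 : P x b ≠ P x e := by rw [← c1]; exact Ne.symm hne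
    have k2 := hbe c2
    rcases hσ with rfl | rfl
    · rcases abs_cases (P x a - P x b) with ⟨e1, _⟩ | ⟨e1, _⟩ <;>
      rcases abs_cases (P x b - P x e) with ⟨e2, _⟩ | ⟨e2, _⟩ <;>
      rcases abs_cases (P x b + -1 * x.2 - P x a) with ⟨e3, _⟩ | ⟨e3, _⟩ <;>
      rcases abs_cases (P x b + -1 * x.2 - P x e) with ⟨e4, _⟩ | ⟨e4, _⟩ <;> omega
    · rcases abs_cases (P x a - P x b) with ⟨e1, _⟩ | ⟨e1, _⟩ <;>
      rcases abs_cases (P x b - P x e) with ⟨e2, _⟩ | ⟨e2, _⟩ <;>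
      rcases abs_cases (P x b + - -1 * x.2 - P x a) with ⟨e3, _⟩ | ⟨e3, _⟩ <;>
      rcases abs_cases (P x b + - -1 * x.2 - P x e) with ⟨e4, _⟩ | ⟨e4, _⟩ <;> omega
  by_cases c2 : P x b = P x e
  · have k1 := hae c1
    rcases hσ with rfl | rfl
    · rcases abs_cases (P x a - P x b) with ⟨e1, _⟩ | ⟨e1, _⟩ <;>
      rcases abs_cases (P x a - P x e) with ⟨e2, _⟩ | ⟨e2, _⟩ <;>
      rcases abs_cases (P x a + 1 * x.2 - P x b) with ⟨e3, _⟩ | ⟨e3, _⟩ <;>
      rcases abs_cases (P x a + 1 * x.2 - P x e) with ⟨e4, _⟩ | ⟨e4, _⟩ <;> omega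
    · rcases abs_cases (P x a - P x b) with ⟨e1, _⟩ | ⟨e1, _⟩ <;>
      rcases abs_cases (P x a - P x e) with ⟨e2, _⟩ | ⟨e2, _⟩ <;>
      rcases abs_cases (P x a + -1 * x.2 - P x b) with ⟨e3, _⟩ | ⟨e3, _⟩ <;>
      rcases abs_cases (P x a + -1 * x.2 - P x e) with ⟨e4, _⟩ | ⟨e4, _⟩ <;> omega
  have k1 := hae c1
  have k2 := hbe c2
  rcases hσ with rfl | rfl
  · have l1 : |P x a - P x b| + |P x a - P x e| ≤
        |P x a + 1 * x.2 - P x b| + |P x a + 1 * x.2 - P x e| := by omega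
    have l2 : |P x a - P x b| + |P x b - P x e| ≤
        |P x b + -1 * x.2 - P x a| + |P x b + -1 * x.2 - P x e| := by omega
    clear * - l1 l2 hs hL
    rcases abs_cases (P x a - P x b) with ⟨e1, _⟩ | ⟨e1, _⟩ <;>
    rcases abs_cases (P x b - P x e) with ⟨e2, _⟩ | ⟨e2, _⟩ <;>
    rcases abs_cases (P x a - P x e) with ⟨e3, _⟩ | ⟨e3, _⟩ <;>
    rcases abs_cases (P x a + 1 * x.2 - P x b) with ⟨e4, _⟩ | ⟨e4, _⟩ <;>
    rcases abs_cases (P x a + 1 * x.2 - P x e) with ⟨e5, _⟩ | ⟨e5, _⟩ <;>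
    rcases abs_cases (P x b + -1 * x.2 - P x a) with ⟨e6, _⟩ | ⟨e6, _⟩ <;>
    rcases abs_cases (P x b + -1 * x.2 - P x e) with ⟨e7, _⟩ | ⟨e7, _⟩ <;> omega
  · have l1 : |P x a - P x b| + |P x a - P x e| ≤
        |P x a + -1 * x.2 - P x b| + |P x a + -1 * x.2 - P x e| := by omega
    have l2 : |P x a - P x b| + |P x b - P x e| ≤
        |P x b + - -1 * x.2 - P x a| + |P x b + - -1 * x.2 - P x e| := by omega
    clear * - l1 l2 hs hL
    rcases abs_cases (P x a - P x b) with ⟨e1, _⟩ | ⟨e1, _⟩ <;>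
    rcases abs_cases (P x b - P x e) with ⟨e2, _⟩ | ⟨e2, _⟩ <;>
    rcases abs_cases (P x a - P x e) with ⟨e3, _⟩ | ⟨e3, _⟩ <;>
    rcases abs_cases (P x a + -1 * x.2 - P x b) with ⟨e4, _⟩ | ⟨e4, _⟩ <;>
    rcases abs_cases (P x a + -1 * x.2 - P x e) with ⟨e5, _⟩ | ⟨e5, _⟩ <;>
    rcases abs_cases (P x b + - -1 * x.2 - P x a) with ⟨e6, _⟩ | ⟨e6, _⟩ <;>
    rcases abs_cases (P x b + - -1 * x.2 - P x e) with ⟨e7, _⟩ | ⟨e7, _⟩ <;> omega

section abstract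

variable {G : Type} [Group G] (H : Hyp G) (M : Subgroup G) [hM : M.Normal]
  (Gd : G → G → Prop) (CL : ℕ)
  (hcl : ∀ a b b' : G, Gd a b → Gd a b' →
    (∃ n ∈ M, b' = n * b) → ∀ p' : G, H.d a p' + H.d p' b' = H.d a b' →
    ∃ p : G, H.d a p + H.d p b = H.d a b ∧ ∃ m ∈ M, H.d p' (m * p) ≤ CL)
  (hmin : ∀ u v : G, H.d u v = H.qd M (u : G ⧸ M) (v : G ⧸ M) → Gd u v)
  (htri : ∀ a b e : G, (∀ m ∈ M, H.d a b + H.d a e ≤ H.d (m * a) b + H.d (m * a) e) →
    (∀ m ∈ M, H.d a b + H.d b e ≤ H.d a (m * b) + H.d (m * b) e) → Gd a b)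

include hM hcl hmin in
/-- one half of the estimate: `p` is close to a good side starting at `u` -/
theorem half_est {u z q : G} {p : G ⧸ M} {δ : ℕ} (hu1 : Gd u z)
    (hq : H.d u q + H.d q z = H.d u z) (hpq : H.qd M p (q : G ⧸ M) ≤ δ) :
    H.qd M (z : G ⧸ M) p + H.qd M (u : G ⧸ M) p ≤ H.qd M (z : G ⧸ M) (u : G ⧸ M)
      + 2 * (δ + CL) := by
  obtain ⟨z0, hz0, hz1⟩ := H.qd_lift M u (z : G ⧸ M)
  have hz2 : (∃ n ∈ M, z = n * z0) := Hyp.exists_of_coe_eq M hz0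
  obtain ⟨q0, hq0, m, hm, hqm⟩ := hcl u z0 z (hmin u z0 (by rw [hz1, hz0])) hu1 hz2 q hq
  have h1 := H.qd_le M q (m * q0)
  rw [Hyp.coe_mul_left M hm] at h1
  have h2 := H.qd_le M q0 z0
  have h3 := H.qd_le M u q0
  rw [hz0] at h2
  have t1 := H.qd_tri M p (q : G ⧸ M) (q0 : G ⧸ M)
  have t2 := H.qd_tri M (z : G ⧸ M) (q0 : G ⧸ M) p
  have t3 := H.qd_tri M (u : G ⧸ M) (q0 : G ⧸ M) p
  have c1 := H.qd_comm M (z : G ⧸ M) (q0 : G ⧸ M)
  have c2 := H.qd_comm M (q0 : G ⧸ M) p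
  have c3 := H.qd_comm M (z : G ⧸ M) (u : G ⧸ M)
  omega

include hM hcl hmin htri in
theorem quot_four' (u v z p : G ⧸ M) (h : H.qd M u p + H.qd M p v = H.qd M u v) :
    H.qd M z p + H.qd M u v ≤ max (H.qd M z u + H.qd M p v) (H.qd M z v + H.qd M u p)
      + 2 * (2 * CL + 2 * H.D) := by
  obtain ⟨u', v', z', hu, hv, hz, hmn⟩ := H.exists_smin M u v z
  have mu : ∀ m ∈ M, H.d u' v' + H.d u' z' ≤ H.d (m * u') v' + H.d (m * u') z' := by
    intro m hm
    have := hmn (m * u') v' z' (by rw [Hyp.coe_mul_left M hm, hu]) hv hz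
    omega
  have mv : ∀ m ∈ M, H.d u' v' + H.d v' z' ≤ H.d u' (m * v') + H.d (m * v') z' := by
    intro m hm
    have := hmn u' (m * v') z' hu (by rw [Hyp.coe_mul_left M hm, hv]) hz
    omega
  have mz : ∀ m ∈ M, H.d u' z' + H.d v' z' ≤ H.d u' (m * z') + H.d v' (m * z') := by
    intro m hm
    have := hmn u' v' (m * z') hu hv (by rw [Hyp.coe_mul_left M hm, hz])
    omega
  have guv : Gd u' v' := htri u' v' z' mu mv
  have guz : Gd u' z' := htri u' z' v' (by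
    intro m hm
    have := mu m hm
    omega) (by
    intro m hm
    have := mz m hm
    rw [H.d_comm z' v', H.d_comm (m * z') v']
    omega)
  have gvz : Gd v' z' := htri v' z' u' (by
    intro m hm
    have := mv m hm
    rw [H.d_comm v' u', H.d_comm (m * v') u']
    omega) (by
    intro m hm
    have := mz m hm
    rw [H.d_comm z' u', H.d_comm (m * z') u']
    omega)
  -- lift the geodesic from `u` to `v` through `p`
  obtain ⟨p0, hp0, hp1⟩ := H.qd_lift M u' p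
  obtain ⟨v0, hv0, hv1⟩ := H.qd_lift M p0 v
  rw [hu] at hp1
  rw [hp0] at hv1
  have l1 := H.d_tri u' p0 v0
  have l2 := H.qd_le M u' v0
  rw [hu, hv0] at l2
  have g0 : Gd u' v0 := hmin u' v0 (by rw [hu, hv0]; omega)
  obtain ⟨p1, hp2, m1, hm1, hp3⟩ := hcl u' v' v0 guv g0
    (Hyp.exists_of_coe_eq M (by rw [hv, hv0])) p0 (by omega)
  have d1 := H.qd_le M p0 (m1 * p1)
  rw [Hyp.coe_mul_left M hm1, hp0] at d1
  rcases H.slim z' hp2 with ⟨q, hq1, hq2⟩ | ⟨q, hq1, hq2⟩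
  · have d2 := H.qd_le M p1 q
    have d3 := H.qd_tri M p (p1 : G ⧸ M) (q : G ⧸ M)
    have key := half_est H M Gd CL hcl hmin (u := u') (z := z') (q := q) (p := p)
      (δ := CL + 2 * H.D) guz hq1 (by omega)
    rw [hu, hz] at key
    omega
  · have d2 := H.qd_le M p1 q
    have d3 := H.qd_tri M p (p1 : G ⧸ M) (q : G ⧸ M)
    have key := half_est H M Gd CL hcl hmin (u := v') (z := z') (q := q) (p := p)
      (δ := CL + 2 * H.D) gvz hq1 (by omega)
    rw [hv, hz] at key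
    have c3 := H.qd_comm M p v
    omega

end abstract

/-- A small cancellation quotient of a free group of finite rank is hyperbolic, for the word
length. -/
noncomputable def scHyp (S : Words α) {Λ : ℤ} (hΛ : ∀ x ∈ S.toFam.fam, x.2 ≤ Λ) (h0 : 0 ≤ Λ)
    (hK : 40 ≤ S.K) : Hyp (FreeGroup α ⧸ NN S) :=
  quotHyp (fH α) (NN S) _ (quot_four' (fH α) (NN S) (Good S) (2 * Λ).toNat
    (fun a b b' h1 h2 h3 p' hp' => close hΛ h0 hK a b b' h1 h2 h3 p' hp')
    (by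
      intro u v h x hx
      have h1 : ∀ m ∈ NN S, fd u v ≤ fd u (m * v) := by
        intro m hm
        have h2 := (fH α).qd_le (NN S) u (m * v)
        rw [Hyp.coe_mul_left (NN S) hm, ← h] at h2
        rw [← dz, ← dz]
        exact_mod_cast h2
      have h2 := min_half h1 hx
      have h3 := L_pos hx
      omega)
    (by
      intro a b e h1 h2
      refine min_tri (e := e) ?_ ?_
      · intro m hm
        have := h1 m hm
        rw [← dz, ← dz, ← dz, ← dz]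
        exact_mod_cast this
      · intro m hm
        have := h2 m hm
        rw [← dz, ← dz, ← dz, ← dz]
        exact_mod_cast this))

theorem scHyp_len (S : Words α) {Λ : ℤ} (hΛ : ∀ x ∈ S.toFam.fam, x.2 ≤ Λ) (h0 : 0 ≤ Λ)
    (hK : 40 ≤ S.K) (q : FreeGroup α ⧸ NN S) :
    (scHyp S hΛ h0 hK).len q = (fH α).qlen (NN S) q := rfl

end Pool.Agent.H89QS
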