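import Pool.Agent.H89QS.Fm

/-!
# The relators as elements of the free group (helper89)
-/

set_option autoImplicit false

namespace Pool.Agent.H89QS

open Pool.Agent.H17R2 FreeGroup

/-- the generators -/
def fa : FreeGroup (Fin 3) := FreeGroup.mk [(0, true)]
def ft : FreeGroup (Fin 3) := FreeGroup.mk [(1, true)]
def fc : FreeGroup (Fin 3) := FreeGroup.mk [(2, true)]

/-- the conjugates `a_j = t^j a t^{-j}` -/
def f1 : FreeGroup (Fin 3) := ft * fa * ft⁻¹
def f2 : FreeGroup (Fin 3) := ft * f1 * ft⁻¹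
def f3 : FreeGroup (Fin 3) := ft * f2 * ft⁻¹

/-- the elements `1`, `a`, `a₁`, `a₂` -/
def fx : Fin 4 → FreeGroup (Fin 3)
  | 0 => 1
  | 1 => fa
  | 2 => f1
  | 3 => f2

theorem mk_T : (FreeGroup.mk [((1 : Fin 3), false)]) = ft⁻¹ := by
  unfold ft; rw [inv_mk]; rfl

theorem mk_ul (u : Fin 4) : FreeGroup.mk (ul u) = fx u := by
  have hT := mk_T
  fin_cases u
  · rfl
  · rfl
  · show FreeGroup.mk [(1, true), (0, true), (1, false)] = ft * fa * ft⁻¹
    rw [← hT]; rfl
  · show FreeGroup.mk [(1, true), (1, true), (0, true), (1, false), (1, false)] =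
      ft * (ft * fa * ft⁻¹) * ft⁻¹
    rw [← hT]; rfl

theorem mk_lw (u v : Fin 4) : FreeGroup.mk (lw u v) = fx u * fc * (fx v * fc) := by
  unfold lw
  rw [← mul_mk, ← mul_mk, ← mul_mk, mk_ul, mk_ul]
  show fx u * fc * fx v * fc = _
  group

theorem zw_pw (u v : Fin 4) (m : ℤ) :
    zw (pw u v) (m * (lw u v).length) = (fx u * fc * (fx v * fc)) ^ m := by
  have hper : ∀ k : ℤ, (FreeGroup.mk [pw u v (k + (lw u v).length)] : FreeGroup (Fin 3)) =
      FreeGroup.mk [pw u v k] := by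
    intro k
    unfold pw
    rw [Int.add_emod_right]
  have h1 := zp_mul_period (fun k => (FreeGroup.mk [pw u v k] : FreeGroup (Fin 3)))
    ((lw u v).length : ℤ) hper m 0
  change zw (pw u v) (0 + m * (lw u v).length) = zw (pw u v) (lw u v).length ^ m *
    zw (pw u v) 0 at h1
  rw [zero_add, zw_zero, mul_one] at h1
  rw [h1, zw_nat, ← mk_lw]
  congr 2
  apply List.ext_getElem
  · simp
  · intro i h2 h3
    simp only [List.getElem_map, List.getElem_range]
    unfold pw
    have e : ((i : ℤ) % ((lw u v).length : ℤ)).toNat = i := by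
      rw [Int.emod_eq_of_lt (by positivity) (by exact_mod_cast h3)]
      simp
    rw [e, List.getD_eq_getElem _ _ h3]

theorem rel_pw (u v : Fin 4) (K : ℤ) : ∃ m : ℤ, 0 < m ∧ zw (pw u v) (840 * K) =
    (fx u * fc * (fx v * fc)) ^ (m * K) := by
  obtain ⟨d, hd⟩ := lw_len_dvd u v
  refine ⟨d, ?_, ?_⟩
  · rcases Nat.eq_zero_or_pos d with h | h
    · rw [h] at hd; simp at hd
    · exact_mod_cast h
  · rw [← zw_pw]
    congr 1
    have : (840 : ℤ) = (lw u v).length * d := by exact_mod_cast hd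
    rw [this]; ring

namespace Wr

theorem wr_P {n z : ℤ} (h : Pm n (z % Lr n)) : wr n z = (1, true) := by
  unfold wr; rw [if_pos h]

theorem disj {n : ℤ} (hn0 : 0 < n) (y : ℤ) (hN : Nm n y) : ¬ Pm n y := by
  rcases hN with ⟨i, hi, hin, rfl, hi0, hi2⟩ | h | h | h <;>
    rintro (⟨j, hj, hjn, hij, hj2⟩ | h' | h')
  · have h5 := (q_le_iff hn0 hi hj).1 hij.le
    have h6 := (q_le_iff hn0 hj hi).1 hij.ge
    have : i = j := by omega
    subst this
    rcases hj2 with hj2 | hj2 <;> omega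
  · have := (q_bounds hn0 hi hin.le).2
    have h7 := q_lt hn0 hi hin
    rw [q_n] at h7
    omega
  · have := (q_bounds hn0 hi hin.le).2
    omega
  all_goals first
    | omega
    | (have := (q_bounds hn0 hj hjn.le).2; omega)

theorem wr_N {n z : ℤ} (hn0 : 0 < n) (h : Nm n (z % Lr n)) : wr n z = (1, false) := by
  unfold wr; rw [if_neg (disj hn0 _ h), if_pos h]

theorem run {n z : ℤ} (m : ℕ) (h : ∀ k : ℤ, 1 ≤ k → k ≤ m → wr n (z + k) = (0, true)) :
    zw (wr n) (z + 1 + m) = zw (wr n) z * FreeGroup.mk [wr n z] * fa ^ m := by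
  induction m with
  | zero => simp [zw_succ]
  | succ m ih =>
    have e : z + 1 + ((m + 1 : ℕ) : ℤ) = (z + 1 + m) + 1 := by push_cast; ring
    rw [e, zw_succ, ih (fun k h1 h2 => h k h1 (by push_cast; omega))]
    have := h (1 + m) (by omega) (by push_cast; omega)
    rw [← add_assoc] at this
    rw [this, pow_succ]
    show _ * fa = _
    group

/-- sign exponents -/
def lev (i : ℕ) : ℤ := if i % 2 = 1 then 1 else 2

theorem zw_q {n : ℤ} (hn : 3 ≤ n) : ∀ i : ℕ, 1 ≤ i → (i : ℤ) ≤ n →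
    ∃ U ∈ Subgroup.closure {f1, f2}, zw (wr n) (q n i) = fa * U * ft ^ lev i := by
  have hn0 : 0 < n := by omega
  have hL := Lr_pos n
  have hL7 : Lr n = 2 * n ^ 2 + 7 := rfl
  have hsq : 9 ≤ n ^ 2 := by nlinarith
  have h1m : f1 ∈ Subgroup.closure ({f1, f2} : Set (FreeGroup (Fin 3))) :=
    Subgroup.subset_closure (Or.inl rfl)
  have h2m : f2 ∈ Subgroup.closure ({f1, f2} : Set (FreeGroup (Fin 3))) :=
    Subgroup.subset_closure (Or.inr rfl)
  have hstep : ∀ i : ℤ, 0 ≤ i → i < n → zw (wr n) (q n (i + 1)) =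
      zw (wr n) (q n i) * FreeGroup.mk [wr n (q n i)] * fa ^ (n + 2 * i).toNat := by
    intro i hi hin
    have hb := q_bounds hn0 hi hin.le
    have hz : q n i % Lr n = q n i := Int.emod_eq_of_lt (by omega) (by omega)
    have hg := gap hn hi hin hz
    rw [q_succ]
    have e : q n i + (n + 2 * i + 1) = q n i + 1 + ((n + 2 * i).toNat : ℤ) := by
      rw [Int.toNat_of_nonneg (by omega)]; ring
    rw [e, run]
    intro k hk hk'
    rw [Int.toNat_of_nonneg (by omega)] at hk'
    exact hg.2.1 k hk hk'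
  intro i
  induction i with
  | zero => intro h; omega
  | succ i ih =>
    intro _ hin
    push_cast at hin
    by_cases h0 : i = 0
    · subst h0
      refine ⟨f1 ^ n.toNat, Subgroup.pow_mem _ h1m _, ?_⟩
      have h2 := hstep 0 le_rfl (by omega)
      have e0 : zw (wr n) (q n 0) = fa := by
        have h3 := zw_succ (wr n) 0
        rw [q_zero]
        rw [zero_add, zw_zero, one_mul] at h3
        rw [h3, wr_a]
        · rfl
        · rw [Int.zero_emod]
          rintro (⟨j, hj, hjn, hyj⟩ | h | h | h | h | h)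
          · have := (q_bounds hn0 hj hjn.le).1; omega
          all_goals omega
      have e1 : wr n (q n 0) = (1, true) := by
        apply wr_P
        rw [q_zero, Int.emod_eq_of_lt (by norm_num) (by omega)]
        exact Or.inl ⟨0, le_rfl, hn0, (q_zero n).symm, Or.inl rfl⟩
      rw [e0, e1, show n + 2 * 0 = n by ring] at h2
      have e2 : ((0 + 1 : ℕ) : ℤ) = 0 + 1 := by norm_num
      rw [e2, h2]
      show fa * ft * fa ^ n.toNat = fa * f1 ^ n.toNat * ft ^ (1 : ℤ)
      unfold f1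
      rw [conj_pow]; group
    · obtain ⟨U, hU, hzw⟩ := ih (by omega) (by omega)
      have hb := q_bounds (i := i) hn0 (by omega) (by omega)
      have hz : q n i % Lr n = q n i := Int.emod_eq_of_lt (by omega) (by omega)
      have h2 := hstep i (by omega) (by omega)
      rw [hzw] at h2
      have e2 : ((i + 1 : ℕ) : ℤ) = (i : ℤ) + 1 := by push_cast; ring
      rw [e2, h2]
      rcases Nat.mod_two_eq_zero_or_one i with hp | hp
      · have e1 : wr n (q n i) = (1, false) := by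
          apply wr_N hn0
          rw [hz]
          exact Or.inl ⟨i, by omega, by omega, rfl, by omega, by omega⟩
        refine ⟨U * f1 ^ (n + 2 * (i : ℤ)).toNat, Subgroup.mul_mem _ hU (Subgroup.pow_mem _ h1m _), ?_⟩
        have l1 : lev i = 2 := by unfold lev; rw [if_neg (by omega)]
        have l2 : lev (i + 1) = 1 := by unfold lev; rw [if_pos (by omega)]
        rw [l1, l2, e1, mk_T]
        unfold f1
        rw [conj_pow]; group
      · have e1 : wr n (q n i) = (1, true) := by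
          apply wr_P
          rw [hz]
          exact Or.inl ⟨i, by omega, by omega, rfl, Or.inr (by omega)⟩
        refine ⟨U * f2 ^ (n + 2 * (i : ℤ)).toNat, Subgroup.mul_mem _ hU (Subgroup.pow_mem _ h2m _), ?_⟩
        have l1 : lev i = 1 := by unfold lev; rw [if_pos (by omega)]
        have l2 : lev (i + 1) = 2 := by unfold lev; rw [if_neg (by omega)]
        rw [l1, l2, e1]
        show fa * U * ft ^ (1 : ℤ) * ft * _ = _
        unfold f2 f1
        rw [conj_pow, conj_pow]; group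

/-- The long relator. -/
theorem zw_Lr {n : ℤ} (hn : 3 ≤ n) (hodd : n % 2 = 1) :
    ∃ U ∈ Subgroup.closure {f1, f2}, zw (wr n) (Lr n) = fa * U * f3 := by
  have hn0 : 0 < n := by omega
  have hL := Lr_pos n
  have hL7 : Lr n = 2 * n ^ 2 + 7 := rfl
  have hsq : 9 ≤ n ^ 2 := by nlinarith
  obtain ⟨U, hU, h⟩ := zw_q hn n.toNat (by omega) (by omega)
  refine ⟨U, hU, ?_⟩
  rw [Int.toNat_of_nonneg hn0.le, q_n] at h
  have l1 : lev n.toNat = 1 := by unfold lev; rw [if_pos (by omega)]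
  rw [l1] at h
  have hm : ∀ y : ℤ, 0 ≤ y → y < Lr n → y % Lr n = y := fun y h1 h2 => Int.emod_eq_of_lt h1 h2
  have w1 : wr n (2 * n ^ 2 + 1) = (1, true) :=
    wr_P (by rw [hm _ (by omega) (by omega)]; exact Or.inr (Or.inl rfl))
  have w2 : wr n (2 * n ^ 2 + 2) = (1, true) :=
    wr_P (by rw [hm _ (by omega) (by omega)]; exact Or.inr (Or.inr rfl))
  have w3 : wr n (2 * n ^ 2 + 3) = (0, true) := by
    apply wr_a
    rw [hm _ (by omega) (by omega)]
    rintro (⟨j, hj, hjn, hyj⟩ | h | h | h | h | h)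
    · have := (q_bounds hn0 hj hjn.le).2; omega
    all_goals omega
  have w4 : wr n (2 * n ^ 2 + 4) = (1, false) :=
    wr_N hn0 (by rw [hm _ (by omega) (by omega)]; exact Or.inr (Or.inl rfl))
  have w5 : wr n (2 * n ^ 2 + 5) = (1, false) :=
    wr_N hn0 (by rw [hm _ (by omega) (by omega)]; exact Or.inr (Or.inr (Or.inl rfl)))
  have w6 : wr n (2 * n ^ 2 + 6) = (1, false) :=
    wr_N hn0 (by rw [hm _ (by omega) (by omega)]; exact Or.inr (Or.inr (Or.inr rfl)))
  have s1 := zw_succ (wr n) (2 * n ^ 2 + 1)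
  have s2 := zw_succ (wr n) (2 * n ^ 2 + 2)
  have s3 := zw_succ (wr n) (2 * n ^ 2 + 3)
  have s4 := zw_succ (wr n) (2 * n ^ 2 + 4)
  have s5 := zw_succ (wr n) (2 * n ^ 2 + 5)
  have s6 := zw_succ (wr n) (2 * n ^ 2 + 6)
  rw [show 2 * n ^ 2 + 1 + 1 = 2 * n ^ 2 + 2 by ring, h, w1] at s1
  rw [show 2 * n ^ 2 + 2 + 1 = 2 * n ^ 2 + 3 by ring, s1, w2] at s2
  rw [show 2 * n ^ 2 + 3 + 1 = 2 * n ^ 2 + 4 by ring, s2, w3] at s3
  rw [show 2 * n ^ 2 + 4 + 1 = 2 * n ^ 2 + 5 by ring, s3, w4] at s4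
  rw [show 2 * n ^ 2 + 5 + 1 = 2 * n ^ 2 + 6 by ring, s4, w5] at s5
  rw [show 2 * n ^ 2 + 6 + 1 = 2 * n ^ 2 + 7 by ring, s5, w6] at s6
  rw [hL7, s6, mk_T]
  show fa * U * ft ^ (1 : ℤ) * ft * ft * fa * ft⁻¹ * ft⁻¹ * ft⁻¹ = _
  unfold f3 f2 f1
  group

end Wr

end Pool.Agent.H89QS
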