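import Pool.Agent.Helper705_SA.Amalg
import Pool.Agent.Helper705_SA.TreeSets

/-!
# The Bass-Serre tree and equivariant maps to it (helper89)
-/

set_option autoImplicit false

namespace Pool.Agent.H89QS.Tr

open Pool.Agent.Helper705_SA Pool.Agent.Helper270 Pool.Agent.Helper270.Tree SimpleGraph

section General

variable {G : Type} [Group G] (A B : Subgroup G)

/-- vertices -/
def vA (g : G) : (G ⧸ A) ⊕ (G ⧸ B) := Sum.inl (QuotientGroup.mk g)
def vB (g : G) : (G ⧸ A) ⊕ (G ⧸ B) := Sum.inr (QuotientGroup.mk g)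

theorem smul_vA (g k : G) : g • vA A B k = vA A B (g * k) := rfl
theorem smul_vB (g k : G) : g • vB A B k = vB A B (g * k) := rfl

theorem vA_eq {g k : G} : vA A B g = vA A B k ↔ g⁻¹ * k ∈ A := by
  unfold vA
  rw [Sum.inl_injective.eq_iff, QuotientGroup.eq]

theorem vB_eq {g k : G} : vB A B g = vB A B k ↔ g⁻¹ * k ∈ B := by
  unfold vB
  rw [Sum.inr_injective.eq_iff, QuotientGroup.eq]

theorem vA_ne_vB (g k : G) : vA A B g ≠ vB A B k := by
  unfold vA vB; simp

theorem adj_AB (g : G) : (cosetGraph A B).Adj (vA A B g) (vB A B g) := ⟨g, Or.inl ⟨rfl, rfl⟩⟩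

theorem adj_form {x y : (G ⧸ A) ⊕ (G ⧸ B)} (h : (cosetGraph A B).Adj x y) :
    ∃ g, (x = vA A B g ∧ y = vB A B g) ∨ (x = vB A B g ∧ y = vA A B g) := by
  obtain ⟨g, h | h⟩ := h
  · exact ⟨g, Or.inl h⟩
  · exact ⟨g, Or.inr ⟨h.2, h.1⟩⟩

theorem fix_vA {g x : G} : x • vA A B g = vA A B g ↔ g⁻¹ * x * g ∈ A := by
  rw [smul_vA, eq_comm, vA_eq, mul_assoc]

theorem fix_vB {g x : G} : x • vB A B g = vB A B g ↔ g⁻¹ * x * g ∈ B := by
  rw [smul_vB, eq_comm, vB_eq, mul_assoc]

theorem treeAct (h : IsAmalgam A B) : TreeAct G (cosetGraph A B) where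
  isTree := cosetGraph_isTree A B h
  adj := by
    rintro g v w ⟨k, ⟨rfl, rfl⟩ | ⟨rfl, rfl⟩⟩
    · exact ⟨g * k, Or.inl ⟨rfl, rfl⟩⟩
    · exact ⟨g * k, Or.inr ⟨rfl, rfl⟩⟩
  noInv := by
    rintro g v w ⟨k, ⟨rfl, rfl⟩ | ⟨rfl, rfl⟩⟩ ⟨h1, h2⟩
    · cases h1
    · cases h1

variable {A B}

/-- malnormality -/
def Mal (A : Subgroup G) : Prop := ∀ g x : G, g ∉ A → x ∈ A → x ≠ 1 → g * x * g⁻¹ ∉ A

theorem two_A (hA : Mal A) {g k x : G} (hx : x ≠ 1) (h1 : x • vA A B g = vA A B g)
    (h2 : x • vA A B k = vA A B k) : vA A B g = vA A B k := by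
  rw [fix_vA] at h1 h2
  rw [vA_eq]
  by_contra hc
  have hc' : k⁻¹ * g ∉ A := fun h => hc (by
    have := A.inv_mem h
    rwa [mul_inv_rev, inv_inv] at this)
  refine hA (k⁻¹ * g) (g⁻¹ * x * g) hc' h1 ?_ ?_
  · intro h
    apply hx
    have : x = g * (g⁻¹ * x * g) * g⁻¹ := by group
    rw [this, h]; group
  · have e : k⁻¹ * g * (g⁻¹ * x * g) * (k⁻¹ * g)⁻¹ = k⁻¹ * x * k := by group
    rwa [e]

/-- Nontrivial elements do not fix paths of length three. -/
theorem acyl (hA : Mal A) {v w : (G ⧸ A) ⊕ (G ⧸ B)} (p : (cosetGraph A B).Walk v w)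
    (hp : p.IsPath) (hl : 3 ≤ p.length) (x : G) (hx : ∀ u ∈ p.support, x • u = u) : x = 1 := by
  by_contra hx1
  have hadj : ∀ i, i < p.length → (cosetGraph A B).Adj (p.getVert i) (p.getVert (i + 1)) :=
    fun i hi => p.adj_getVert_succ hi
  have hfix : ∀ i, x • p.getVert i = p.getVert i := fun i => hx _ (p.getVert_mem_support i)
  have hne : ∀ i j, i ≤ p.length → j ≤ p.length → p.getVert i = p.getVert j → i = j :=
    fun i j hi hj h => hp.getVert_injOn hi hj h
  obtain ⟨g, h1 | h1⟩ := adj_form A B (hadj 0 (by omega))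
  · obtain ⟨k, h2 | h2⟩ := adj_form A B (hadj 1 (by omega))
    · exact vA_ne_vB A B k g (h2.1.symm.trans h1.2)
    · have := two_A (B := B) hA hx1 (by rw [← h1.1]; exact hfix 0) (by rw [← h2.2]; exact hfix 2)
      have := hne 0 2 (by omega) (by omega) (by rw [h1.1, h2.2, this])
      omega
  · obtain ⟨k, h2 | h2⟩ := adj_form A B (hadj 2 (by omega))
    · obtain ⟨l, h3 | h3⟩ := adj_form A B (hadj 1 (by omega))
      · exact vA_ne_vB A B k l (h2.1.symm.trans h3.2)
      · exact vA_ne_vB A B g l (h1.2.symm.trans h3.1)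
    · have := two_A (B := B) hA hx1 (by rw [← h1.2]; exact hfix 1) (by rw [← h2.2]; exact hfix 3)
      have := hne 1 3 (by omega) (by omega) (by rw [h1.2, h2.2, this])
      omega

/-- the vertices of the axis of `s * y` -/
def ax (A B : Subgroup G) (g : G) (i : ℤ) : (G ⧸ A) ⊕ (G ⧸ B) :=
  if i % 2 = 0 then vB A B (g ^ (i / 2)) else vA A B (g ^ (i / 2))

theorem ax_even (g : G) (j : ℤ) : ax A B g (2 * j) = vB A B (g ^ j) := by
  unfold ax
  rw [if_pos (by omega), show 2 * j / 2 = j by omega]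

theorem ax_odd (g : G) (j : ℤ) : ax A B g (2 * j + 1) = vA A B (g ^ j) := by
  unfold ax
  rw [if_neg (by omega), show (2 * j + 1) / 2 = j by omega]

theorem ax_smul (g : G) (i : ℤ) : g • ax A B g i = ax A B g (i + 2) := by
  rcases Int.even_or_odd' i with ⟨j, rfl | rfl⟩
  · rw [show 2 * j + 2 = 2 * (j + 1) by ring, ax_even, ax_even, smul_vB, add_comm j,
      zpow_add, zpow_one]
  · rw [show 2 * j + 1 + 2 = 2 * (j + 1) + 1 by ring, ax_odd, ax_odd, smul_vA, add_comm j,
      zpow_add, zpow_one]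

theorem ax_line {s y : G} (hs : s ∈ A) (hsB : s ∉ B) (hy : y ∈ B) (hyA : y ∉ A) :
    IsLine (cosetGraph A B) (ax A B (s * y)) where
  adj := by
    intro i
    rcases Int.even_or_odd' i with ⟨j, rfl | rfl⟩
    · rw [ax_even, ax_odd]
      exact (adj_AB A B _).symm
    · rw [show 2 * j + 1 + 1 = 2 * (j + 1) by ring, ax_even, ax_odd]
      have h1 : vA A B ((s * y) ^ j) = vA A B ((s * y) ^ j * s) := by
        rw [vA_eq, inv_mul_cancel_left]
        exact hs
      have h2 : vB A B ((s * y) ^ (j + 1)) = vB A B ((s * y) ^ j * s) := by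
        rw [vB_eq, zpow_add_one]
        have : ((s * y) ^ j * (s * y))⁻¹ * ((s * y) ^ j * s) = y⁻¹ := by group
        rw [this]
        exact B.inv_mem hy
      rw [h1, h2]
      exact adj_AB A B _
  nb := by
    intro i
    rcases Int.even_or_odd' i with ⟨j, rfl | rfl⟩
    · rw [show 2 * j + 2 = 2 * (j + 1) by ring, ax_even, ax_even]
      intro h
      rw [vB_eq, zpow_add_one, inv_mul_cancel_left] at h
      apply hsB
      have := B.mul_mem h (B.inv_mem hy)
      rwa [mul_inv_cancel_right] at this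
    · rw [show 2 * j + 1 + 2 = 2 * (j + 1) + 1 by ring, ax_odd, ax_odd]
      intro h
      rw [vA_eq, zpow_add_one, inv_mul_cancel_left] at h
      apply hyA
      have := A.mul_mem (A.inv_mem hs) h
      rwa [inv_mul_cancel_left] at this

/-- The translates of the axis by a nontrivial element `k` fixing an edge of it. -/
theorem ax_inter (h : IsAmalgam A B) (hA : Mal A) {s y k : G} (hs : s ∈ A) (hsB : s ∉ B)
    (hy : y ∈ B) (hyA : y ∉ A) (hkA : k ∈ A) (hkB : k ∈ B) (hk : k ≠ 1) {i j : ℤ}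
    (hij : ax A B (s * y) i = k • ax A B (s * y) j) : -3 < i ∧ i < 4 := by
  have hT := treeAct A B h
  have hL := ax_line hs hsB hy hyA
  obtain ⟨L, hLd⟩ : ∃ L, L = ax A B (s * y) := ⟨_, rfl⟩
  rw [← hLd] at hij hL
  have k0 : k • L 0 = L 0 := by
    rw [hLd]
    have := ax_even (A := A) (B := B) (s * y) 0
    rw [mul_zero, zpow_zero] at this
    rw [this, fix_vB]
    simpa using hkB
  have k1 : k • L 1 = L 1 := by
    rw [hLd]
    have := ax_odd (A := A) (B := B) (s * y) 0
    rw [mul_zero, zpow_zero, zero_add] at this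
    rw [this, fix_vA]
    simpa using hkA
  have d0 : (0 - i).natAbs = (0 - j).natAbs := by
    rw [← hL.dist hT.isTree, ← hL.dist hT.isTree, hij, ← hT.dist_smul k (L 0) (L j), k0]
  have d1 : (1 - i).natAbs = (1 - j).natAbs := by
    rw [← hL.dist hT.isTree, ← hL.dist hT.isTree, hij, ← hT.dist_smul k (L 1) (L j), k1]
  by_contra hcon
  have hij' : i = j := by omega
  subst hij'
  -- `k` fixes the segment from `L 0` to `L i`
  have hseg : ∀ m, (0 ≤ m ∧ m ≤ i) ∨ (i ≤ m ∧ m ≤ 0) → k • L m = L m := by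
    intro m hm
    refine hT.convex (u := L 0) (v := L i) k0 hij.symm ?_
    rw [hL.dist hT.isTree, hL.dist hT.isTree, hL.dist hT.isTree]
    omega
  have hinj := hL.injective hT.isTree
  have hodd : ∀ a b : ℤ, a ≠ b → k • L (2 * a + 1) = L (2 * a + 1) →
      k • L (2 * b + 1) = L (2 * b + 1) → False := by
    intro a b hab ha hb
    have e1 : L (2 * a + 1) = vA A B ((s * y) ^ a) := by rw [hLd, ax_odd]
    have e2 : L (2 * b + 1) = vA A B ((s * y) ^ b) := by rw [hLd, ax_odd]
    rw [e1] at ha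
    rw [e2] at hb
    have h1 := two_A hA hk ha hb
    rw [← e1, ← e2] at h1
    have := hinj h1
    omega
  rcases le_or_gt i (-3) with hi | hi
  · exact hodd (-1) (-2) (by norm_num) (hseg _ (by omega)) (hseg _ (by omega))
  · exact hodd 0 1 (by norm_num) (hseg _ (by omega)) (hseg _ (by omega))

/-- An element which fixes two vertices on different sides of an edge fixes the edge. -/
theorem fix_edge {V : Type} [MulAction G V] {T : SimpleGraph V} (hT : TreeAct G T) {a b x y : V}
    (hab : T.Adj a b) (hx : T.dist x b = T.dist x a + 1) (hy : T.dist y a = T.dist y b + 1)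
    {g : G} (h1 : g • x = x) (h2 : g • y = y) : g • a = a ∧ g • b = b := by
  have hc := fixSet_conv (V := V) hT {g}
  have := hc.edge hT.isTree hab (x := x) (y := y) (by rintro _ rfl; exact h1)
    (by rintro _ rfl; exact h2) hx hy
  exact ⟨this.1 g rfl, this.2 g rfl⟩

/-- In each tree with an equivariant map to the Bass-Serre tree in which `B` fixes a vertex over
the base vertex, the edge group is an edge stabiliser. -/
theorem exists_edge (h : IsAmalgam A B) {K : Subgroup G} (hK : A ⊓ B = K) {t : G} (htA : t ∈ A)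
    (htB : t ∉ B) (hconj : ∀ k ∈ K, t⁻¹ * k * t ∈ K) {V' : Type} [MulAction G V']
    {T' : SimpleGraph V'} (hT' : TreeAct G T') (f : V' → (G ⧸ A) ⊕ (G ⧸ B))
    (hf : ∀ (g : G) (v : V'), f (g • v) = g • f v) (w : V') (hw : ∀ b ∈ B, b • w = w)
    (hfw : f w = vB A B 1) :
    ∃ p q, T'.Adj p q ∧ MulAction.stabilizer G p ⊓ MulAction.stabilizer G q = K := by
  have hT := treeAct A B h
  have hKB : K ≤ B := hK ▸ inf_le_right
  have hw2 : ∀ k ∈ K, k • t • w = t • w := by
    intro k hk
    have e : k • t • w = t • (t⁻¹ * k * t) • w := by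
      rw [← mul_smul, ← mul_smul]; congr 1; group
    rw [e, hw _ (hKB (hconj k hk))]
  have hft : f (t • w) = vB A B t := by rw [hf, hfw, smul_vB, mul_one]
  obtain ⟨q, hq0, hqn, hadj, hd, -⟩ := exists_geod hT'.isTree w (t • w)
  obtain ⟨n, hn⟩ : ∃ n, n = T'.dist w (t • w) := ⟨_, rfl⟩
  rw [← hn] at hqn hadj hd
  have hfixq : ∀ k ∈ K, ∀ i ≤ n, k • q i = q i := by
    intro k hk i hi
    refine hT'.convex (hw k (hKB hk)) (hw2 k hk) ?_
    rw [(hd i hi).1, (hd i hi).2, ← hn]
    omega
  have eab : (cosetGraph A B).Adj (vB A B 1) (vA A B 1) := (adj_AB A B 1).symm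
  have etb : (cosetGraph A B).Adj (vA A B 1) (vB A B t) := by
    have h1 : vA A B 1 = vA A B t := by
      rw [vA_eq, inv_one, one_mul]
      exact htA
    rw [h1]
    exact adj_AB A B t
  have hne : vB A B 1 ≠ vB A B t := by
    rw [Ne, vB_eq, inv_one, one_mul]
    exact htB
  have hside0 : (cosetGraph A B).dist (vB A B 1) (vA A B 1) =
      (cosetGraph A B).dist (vB A B 1) (vB A B 1) + 1 := by
    rw [dist_self, dist_eq_one_iff_adj.mpr eab]
  have hside1 : (cosetGraph A B).dist (vB A B t) (vB A B 1) =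
      (cosetGraph A B).dist (vB A B t) (vA A B 1) + 1 := by
    have h1 : (cosetGraph A B).dist (vB A B t) (vA A B 1) = 1 := by
      rw [dist_comm]
      exact dist_eq_one_iff_adj.mpr etb
    exact junction hT.isTree etb.symm eab.symm hne.symm (by rw [h1, dist_self])
  -- the crossing
  have hcross : ∃ i, i < n ∧ (cosetGraph A B).dist (f (q i)) (vA A B 1) =
      (cosetGraph A B).dist (f (q i)) (vB A B 1) + 1 ∧
      (cosetGraph A B).dist (f (q (i + 1))) (vB A B 1) =
      (cosetGraph A B).dist (f (q (i + 1))) (vA A B 1) + 1 := by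
    by_contra hcon
    push Not at hcon
    have hall : ∀ i ≤ n, (cosetGraph A B).dist (f (q i)) (vA A B 1) =
        (cosetGraph A B).dist (f (q i)) (vB A B 1) + 1 := by
      intro i
      induction i with
      | zero => intro _; rw [hq0, hfw]; exact hside0
      | succ i ih =>
        intro hi
        rcases side_dichotomy hT.isTree eab (f (q (i + 1))) with h1 | h1
        · exact h1
        · exact absurd h1 (hcon i (by omega) (ih (by omega)))
    have := hall n le_rfl
    rw [hqn, hft] at this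
    omega
  obtain ⟨i, hi, h1, h2⟩ := hcross
  refine ⟨q i, q (i + 1), hadj i hi, ?_⟩
  apply le_antisymm
  · rintro g ⟨hg1, hg2⟩
    have hg1' : g • q i = q i := hg1
    have hg2' : g • q (i + 1) = q (i + 1) := hg2
    have := fix_edge hT eab h1 h2 (g := g) (by rw [← hf, hg1']) (by rw [← hf, hg2'])
    rw [← hK]
    refine ⟨?_, ?_⟩
    · have h3 := (fix_vA A B).1 this.2
      simpa using h3
    · have h3 := (fix_vB A B).1 this.1
      simpa using h3
  · intro k hk
    exact ⟨hfixq k hk i hi.le, hfixq k hk (i + 1) (by omega)⟩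

/-- The only vertex fixed by `B` is the base vertex. -/
theorem fix_B (h : IsAmalgam A B) (hA : Mal A) {k c : G} (hkA : k ∈ A) (hkB : k ∈ B)
    (hk : k ≠ 1) (hc : c ∈ B) (hcA : c ∉ A) {y : (G ⧸ A) ⊕ (G ⧸ B)} (hy : ∀ b ∈ B, b • y = y) :
    y = vB A B 1 := by
  have hT := treeAct A B h
  have key : ∀ g : G, (∀ b ∈ B, b • vA A B g = vA A B g) → False := by
    intro g hg
    have h1 : k • vA A B 1 = vA A B 1 := by
      rw [fix_vA]; simpa using hkA
    have h2 := two_A hA hk h1 (hg k hkB)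
    have h3 := hg c hc
    rw [← h2, fix_vA] at h3
    apply hcA
    simpa using h3
  rcases y with y | y
  · exfalso
    obtain ⟨g, rfl⟩ := QuotientGroup.mk_surjective y
    exact key g hy
  · obtain ⟨g, rfl⟩ := QuotientGroup.mk_surjective y
    change ∀ b ∈ B, b • vB A B g = vB A B g at hy
    change vB A B g = vB A B 1
    by_contra hne
    obtain ⟨q, hq0, hqn, hadj, hd, -⟩ := exists_geod hT.isTree (vB A B 1) (vB A B g)
    have hpos : 0 < (cosetGraph A B).dist (vB A B 1) (vB A B g) :=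
      hT.isTree.connected.pos_dist_of_ne (Ne.symm hne)
    have h1 := hadj 0 hpos
    rw [hq0] at h1
    obtain ⟨l, h2 | h2⟩ := adj_form A B h1
    · exact vA_ne_vB A B _ _ h2.1.symm
    · apply key l
      intro b hb
      rw [← h2.2]
      refine hT.convex (u := vB A B 1) (v := vB A B g) ?_ (hy b hb) ?_
      · rw [fix_vB]; simpa using hb
      · rw [(hd 1 (by omega)).1, (hd 1 (by omega)).2]
        omega

end General

end Pool.Agent.H89QS.Tr
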