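import Pool.Agent.H17R2.FreeFam

/-!
# The long relator (helper89)

The biinfinite word `wr n` in the letters `a = 0`, `t = 1`. Its period reads
`a t a^n t a^(n+2) t⁻¹ a^(n+4) t a^(n+6) t⁻¹ ... a^(3n-2) t t a t⁻¹ t⁻¹ t⁻¹`, for odd `n`.
-/

set_option autoImplicit false

namespace Pool.Agent.H89QS

open Pool.Agent.H17R2 FreeGroup

namespace Wr

/-- positions of the first `n` letters `t^{±1}` -/
def q (n i : ℤ) : ℤ := 1 + i * (n + i)

theorem q_succ (n i : ℤ) : q n (i + 1) = q n i + (n + 2 * i + 1) := by unfold q; ring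

theorem q_zero (n : ℤ) : q n 0 = 1 := by simp [q]

theorem q_n (n : ℤ) : q n n = 2 * n ^ 2 + 1 := by unfold q; ring

theorem q_lt {n i j : ℤ} (hn : 0 < n) (hi : 0 ≤ i) (hij : i < j) : q n i < q n j := by
  unfold q
  nlinarith

theorem q_le_iff {n i j : ℤ} (hn : 0 < n) (hi : 0 ≤ i) (hj : 0 ≤ j) : q n i ≤ q n j ↔ i ≤ j := by
  constructor
  · intro h
    by_contra hlt
    have := q_lt hn hj (not_le.1 hlt)
    omega
  · intro h
    rcases h.lt_or_eq with h | h
    · exact (q_lt hn hi h).le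
    · rw [h]

/-- the period -/
def Lr (n : ℤ) : ℤ := 2 * n ^ 2 + 7

/-- positions of `t` in a period -/
def Pm (n y : ℤ) : Prop :=
  (∃ i, 0 ≤ i ∧ i < n ∧ y = q n i ∧ (i = 0 ∨ i % 2 = 1)) ∨ y = 2 * n ^ 2 + 1 ∨ y = 2 * n ^ 2 + 2

/-- positions of `t⁻¹` in a period -/
def Nm (n y : ℤ) : Prop :=
  (∃ i, 0 ≤ i ∧ i < n ∧ y = q n i ∧ (i ≠ 0 ∧ i % 2 = 0)) ∨ y = 2 * n ^ 2 + 4 ∨
    y = 2 * n ^ 2 + 5 ∨ y = 2 * n ^ 2 + 6

open Classical in
/-- the biinfinite word -/
noncomputable def wr (n z : ℤ) : Fin 3 × Bool :=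
  if Pm n (z % Lr n) then (1, true) else if Nm n (z % Lr n) then (1, false) else (0, true)

theorem wr_fst_ne (n z : ℤ) : (wr n z).1 ≠ 2 := by
  unfold wr
  split_ifs <;> simp

theorem wr_ne (n z : ℤ) : wr n z ≠ (0, false) := by
  unfold wr
  split_ifs <;> simp

theorem wr_congr {n z z' : ℤ} (h : z % Lr n = z' % Lr n) : wr n z = wr n z' := by
  unfold wr; rw [h]

/-- positions of letters `t^{±1}` in a period -/
def Tm (n y : ℤ) : Prop :=
  (∃ i, 0 ≤ i ∧ i < n ∧ y = q n i) ∨ y = 2 * n ^ 2 + 1 ∨ y = 2 * n ^ 2 + 2 ∨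
    y = 2 * n ^ 2 + 4 ∨ y = 2 * n ^ 2 + 5 ∨ y = 2 * n ^ 2 + 6

theorem wr_fst_iff (n z : ℤ) : (wr n z).1 = 1 ↔ Tm n (z % Lr n) := by
  unfold wr
  by_cases hP : Pm n (z % Lr n)
  · rw [if_pos hP]
    simp only [true_iff]
    rcases hP with ⟨i, h1, h2, h3, -⟩ | h | h
    · exact Or.inl ⟨i, h1, h2, h3⟩
    · exact Or.inr (Or.inl h)
    · exact Or.inr (Or.inr (Or.inl h))
  · rw [if_neg hP]
    by_cases hN : Nm n (z % Lr n)
    · rw [if_pos hN]
      simp only [true_iff]
      rcases hN with ⟨i, h1, h2, h3, -⟩ | h | h | h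
      · exact Or.inl ⟨i, h1, h2, h3⟩
      · exact Or.inr (Or.inr (Or.inr (Or.inl h)))
      · exact Or.inr (Or.inr (Or.inr (Or.inr (Or.inl h))))
      · exact Or.inr (Or.inr (Or.inr (Or.inr (Or.inr h))))
    · rw [if_neg hN]
      constructor
      · intro h
        simp at h
      · rintro (⟨i, h1, h2, h3⟩ | h | h | h | h | h)
        · exfalso
          by_cases h0 : i = 0 ∨ i % 2 = 1
          · exact hP (Or.inl ⟨i, h1, h2, h3, h0⟩)
          · push Not at h0
            exact hN (Or.inl ⟨i, h1, h2, h3, h0.1, by omega⟩)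
        · exact absurd (Or.inr (Or.inl h)) hP
        · exact absurd (Or.inr (Or.inr h)) hP
        · exact absurd (Or.inr (Or.inl h)) hN
        · exact absurd (Or.inr (Or.inr (Or.inl h))) hN
        · exact absurd (Or.inr (Or.inr (Or.inr h))) hN

theorem wr_a {n z : ℤ} (h : ¬ Tm n (z % Lr n)) : wr n z = (0, true) := by
  have h1 : (wr n z).1 ≠ 1 := fun hc => h ((wr_fst_iff n z).1 hc)
  have h2 := wr_fst_ne n z
  have h3 := wr_ne n z
  revert h1 h2 h3
  generalize wr n z = w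
  revert w
  decide

/-- the positions between two consecutive markers -/
theorem between {n : ℤ} (hn : 0 < n) {i : ℤ} (hi : 0 ≤ i) (hin : i < n) {y : ℤ}
    (h1 : q n i < y) (h2 : y < q n (i + 1)) : ¬ Tm n y := by
  have hle : q n (i + 1) ≤ q n n := (q_le_iff hn (by omega) hn.le).2 (by omega)
  rw [q_n] at hle
  rintro (⟨j, hj, hjn, rfl⟩ | h | h | h | h | h)
  · have h3 : i < j := by
      by_contra hc
      have := (q_le_iff hn hj hi).2 (not_lt.1 hc)
      omega
    have := (q_le_iff hn (by omega) hj).2 (show i + 1 ≤ j by omega)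
    omega
  all_goals omega

theorem Lr_pos (n : ℤ) : 0 < Lr n := by
  unfold Lr; positivity

theorem mod_add {n y z k : ℤ} (hy : z % Lr n = y) (h0 : 0 ≤ y + k) (h1 : y + k < Lr n) :
    (z + k) % Lr n = y + k := by
  rw [Int.add_emod, hy]
  have hyl := Int.emod_nonneg z (Lr_pos n).ne'
  have hyu := Int.emod_lt_of_pos z (Lr_pos n)
  have : (y + k % Lr n) % Lr n = (y + k) % Lr n := by
    rw [Int.add_emod, Int.emod_emod_of_dvd _ dvd_rfl, ← Int.add_emod]
  rw [this, Int.emod_eq_of_lt h0 h1]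

theorem q_bounds {n i : ℤ} (hn : 0 < n) (hi : 0 ≤ i) (hin : i ≤ n) :
    1 ≤ q n i ∧ q n i ≤ 2 * n ^ 2 + 1 := by
  have h1 := (q_le_iff (i := 0) hn le_rfl hi).2 hi
  have h2 := (q_le_iff hn hi hn.le).2 hin
  rw [q_n] at h2
  rw [q_zero] at h1
  exact ⟨h1, h2⟩

/-- Decoding: two letters `t^{±1}` with `g ≥ 2` letters `a` between them determine the position. -/
theorem decode {n : ℤ} (hn : 3 ≤ n) {z g : ℤ} (hg : 2 ≤ g) (h1 : (wr n z).1 = 1)
    (h2 : ∀ k, 1 ≤ k → k ≤ g → (wr n (z + k)).1 ≠ 1) (h3 : (wr n (z + g + 1)).1 = 1) :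
    ∃ i, 0 ≤ i ∧ i < n ∧ z % Lr n = q n i ∧ g = n + 2 * i := by
  have hn0 : 0 < n := by omega
  have hL : Lr n = 2 * n ^ 2 + 7 := rfl
  have hsq : 9 ≤ n ^ 2 := by nlinarith
  rw [wr_fst_iff] at h1 h3
  have h2' : ∀ k, 1 ≤ k → k ≤ g → ¬ Tm n ((z + k) % Lr n) := by
    intro k hk hk' hc
    exact h2 k hk hk' ((wr_fst_iff _ _).2 hc)
  rcases h1 with ⟨i, hi, hin, hy⟩ | hy | hy | hy | hy | hy
  · refine ⟨i, hi, hin, hy, ?_⟩
    obtain ⟨b1, b2⟩ := q_bounds hn0 hi hin.le
    obtain ⟨b3, b4⟩ := q_bounds (i := i + 1) hn0 (by omega) (by omega)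
    have hs := q_succ n i
    by_contra hne
    rcases lt_or_gt_of_ne hne with hlt | hgt
    · -- the gap is too short
      have e : (z + g + 1) % Lr n = q n i + (g + 1) := by
        rw [add_assoc]
        exact mod_add hy (by omega) (by omega)
      rw [e] at h3
      exact between hn0 hi hin (by omega) (by omega) h3
    · have e : (z + (n + 2 * i + 1)) % Lr n = q n i + (n + 2 * i + 1) :=
        mod_add hy (by omega) (by omega)
      apply h2' (n + 2 * i + 1) (by omega) (by omega)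
      rw [e, ← hs]
      by_cases hin' : i + 1 < n
      · exact Or.inl ⟨i + 1, by omega, hin', rfl⟩
      · have : i + 1 = n := by omega
        rw [this, q_n]
        exact Or.inr (Or.inl rfl)
  · exfalso
    apply h2' 1 (by omega) (by omega)
    rw [mod_add hy (by omega) (by omega)]
    exact Or.inr (Or.inr (Or.inl (by ring)))
  · exfalso
    apply h2' 2 (by omega) (by omega)
    rw [mod_add hy (by omega) (by omega)]
    exact Or.inr (Or.inr (Or.inr (Or.inl (by ring))))
  · exfalso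
    apply h2' 1 (by omega) (by omega)
    rw [mod_add hy (by omega) (by omega)]
    exact Or.inr (Or.inr (Or.inr (Or.inr (Or.inl (by ring)))))
  · exfalso
    apply h2' 1 (by omega) (by omega)
    rw [mod_add hy (by omega) (by omega)]
    exact Or.inr (Or.inr (Or.inr (Or.inr (Or.inr (by ring)))))
  · exfalso
    apply h2' 2 (by omega) (by omega)
    have e : (z + 2) % Lr n = 1 := by
      have : z + 2 = (z + 2 - Lr n) + Lr n := by ring
      rw [this, Int.add_emod_right]
      have h5 : (z + (2 - Lr n)) % Lr n = 2 * n ^ 2 + 6 + (2 - Lr n) :=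
        mod_add hy (by omega) (by omega)
      rw [show z + 2 - Lr n = z + (2 - Lr n) by ring, h5, hL]
      ring
    rw [e]
    exact Or.inl ⟨0, le_rfl, hn0, (q_zero n).symm⟩

theorem exists_q_ge {n : ℤ} (hn : 3 ≤ n) {y : ℤ} (hy : 0 ≤ y) : ∀ m : ℕ, (m : ℤ) < n →
    y ≤ q n m → ∃ i : ℤ, 0 ≤ i ∧ i < n ∧ y ≤ q n i ∧ q n i - y ≤ 3 * n := by
  intro m
  induction m with
  | zero =>
    intro hm hle
    push_cast at hle
    refine ⟨0, le_rfl, by omega, hle, ?_⟩
    rw [q_zero]; omega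
  | succ m ih =>
    intro hm hle
    by_cases h : y ≤ q n m
    · exact ih (by push_cast at hm; omega) h
    · refine ⟨(m + 1 : ℕ), by positivity, hm, hle, ?_⟩
      push_cast
      rw [q_succ]
      push_cast at hm
      omega

/-- Every window of length `3 n + 9` contains the start of a long gap. -/
theorem exists_start {n : ℤ} (hn : 3 ≤ n) (z : ℤ) :
    ∃ z1, z ≤ z1 ∧ z1 ≤ z + 3 * n + 8 ∧ ∃ i, 0 ≤ i ∧ i < n ∧ z1 % Lr n = q n i := by
  have hn0 : 0 < n := by omega
  have hL : Lr n = 2 * n ^ 2 + 7 := rfl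
  have hy0 := Int.emod_nonneg z (Lr_pos n).ne'
  have hyu := Int.emod_lt_of_pos z (Lr_pos n)
  by_cases h : z % Lr n ≤ q n (n - 1)
  · have e : ((n - 1).toNat : ℤ) = n - 1 := Int.toNat_of_nonneg (by omega)
    obtain ⟨i, h1, h2, h3, h4⟩ := exists_q_ge hn hy0 (n - 1).toNat (by omega) (by rw [e]; exact h)
    obtain ⟨b1, b2⟩ := q_bounds hn0 h1 h2.le
    refine ⟨z + (q n i - z % Lr n), by omega, by omega, i, h1, h2, ?_⟩
    rw [mod_add (y := z % Lr n) rfl (by omega) (by omega)]
    ring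
  · refine ⟨z + (Lr n - z % Lr n + 1), by omega, ?_, 0, le_rfl, hn0, ?_⟩
    · have h5 : q n (n - 1) = 2 * n ^ 2 - 3 * n + 2 := by unfold q; ring
      omega
    · have e : z + (Lr n - z % Lr n + 1) = (z + (1 - z % Lr n)) + Lr n := by ring
      rw [e, Int.add_emod_right, mod_add (y := z % Lr n) rfl (by omega)
        (by have := Lr_pos n; have : (1 : ℤ) < Lr n := by rw [hL]; nlinarith
            omega), q_zero]
      ring

/-- The structure of a long gap. -/
theorem gap {n : ℤ} (hn : 3 ≤ n) {z i : ℤ} (hi : 0 ≤ i) (hin : i < n) (hz : z % Lr n = q n i) :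
    (wr n z).1 = 1 ∧ (∀ k, 1 ≤ k → k ≤ n + 2 * i → wr n (z + k) = (0, true)) ∧
      (wr n (z + (n + 2 * i) + 1)).1 = 1 := by
  have hn0 : 0 < n := by omega
  have hL : Lr n = 2 * n ^ 2 + 7 := rfl
  obtain ⟨b1, b2⟩ := q_bounds hn0 hi hin.le
  obtain ⟨b3, b4⟩ := q_bounds (i := i + 1) hn0 (by omega) (by omega)
  have hs := q_succ n i
  refine ⟨(wr_fst_iff n z).2 ?_, ?_, (wr_fst_iff n _).2 ?_⟩
  · rw [hz]; exact Or.inl ⟨i, hi, hin, rfl⟩
  · intro k hk hk'
    apply wr_a
    rw [mod_add hz (by omega) (by omega)]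
    exact between hn0 hi hin (by omega) (by omega)
  · rw [add_assoc, mod_add hz (by omega) (by omega),
      show q n i + (n + 2 * i + 1) = q n (i + 1) by omega]
    by_cases hin' : i + 1 < n
    · exact Or.inl ⟨i + 1, by omega, hin', rfl⟩
    · have : i + 1 = n := by omega
      rw [this, q_n]
      exact Or.inr (Or.inl rfl)

/-- Equal windows of length `6 n + 10` are at congruent positions. -/
theorem window {n : ℤ} (hn : 3 ≤ n) {s s' : ℤ} {T : ℤ} (hT : 6 * n + 10 ≤ T)
    (h : ∀ k, 0 ≤ k → k < T → wr n (s + k) = wr n (s' + k)) : s % Lr n = s' % Lr n := by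
  obtain ⟨z1, hz1, hz2, i, hi, hin, hz⟩ := exists_start hn s
  obtain ⟨g1, g2, g3⟩ := gap hn hi hin hz
  have h' : ∀ k, 0 ≤ k → k ≤ n + 2 * i + 1 → wr n (z1 + k) = wr n (s' + (z1 - s) + k) := by
    intro k hk hk'
    have := h (z1 - s + k) (by omega) (by omega)
    rw [show s + (z1 - s + k) = z1 + k by ring, show s' + (z1 - s + k) = s' + (z1 - s) + k by ring]
      at this
    exact this
  obtain ⟨j, hj, hjn, hzj, hg⟩ := decode hn (z := s' + (z1 - s)) (g := n + 2 * i) (by omega) (by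
      have := h' 0 le_rfl (by omega)
      rw [add_zero, add_zero] at this
      rw [← this]; exact g1) (by
      intro k hk hk'
      rw [← h' k (by omega) (by omega), g2 k hk hk']
      simp) (by
      rw [add_assoc, ← h' (n + 2 * i + 1) (by omega) le_rfl, ← add_assoc]
      exact g3)
  have hij : i = j := by omega
  subst hij
  have h1 : (z1 - s' - (z1 - s)) % Lr n = 0 := by
    rw [show z1 - s' - (z1 - s) = z1 - (s' + (z1 - s)) by ring]
    apply Int.emod_eq_zero_of_dvd
    exact Int.ModEq.dvd (by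
      show (s' + (z1 - s)) % Lr n = z1 % Lr n
      rw [hz, hzj])
  have h2 : Lr n ∣ s - s' := by
    have := Int.dvd_of_emod_eq_zero h1
    rwa [show z1 - s' - (z1 - s) = s - s' by ring] at this
  exact Int.emod_eq_emod_iff_emod_sub_eq_zero.2 (Int.emod_eq_zero_of_dvd h2)

/-- The word is reduced. -/
theorem wr_red {n : ℤ} (hn : 3 ≤ n) (k : ℤ) : wr n (k + 1) ≠ inv2 (wr n k) := by
  have hn0 : 0 < n := by omega
  have hL : Lr n = 2 * n ^ 2 + 7 := rfl
  have hsq : 9 ≤ n ^ 2 := by nlinarith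
  intro h
  have h1 : (wr n (k + 1)).1 = (wr n k).1 := by rw [h]; rfl
  have h2 : (wr n (k + 1)).2 = !(wr n k).2 := by rw [h]; rfl
  -- the letters are both `t^{±1}`
  have h3 : (wr n k).1 = 1 := by
    by_contra hc
    have e1 : wr n k = (0, true) := wr_a (fun hT => hc ((wr_fst_iff _ _).2 hT))
    have e2 : wr n (k + 1) = (0, true) := wr_a (fun hT => hc (by
      rw [← h1]; exact (wr_fst_iff _ _).2 hT))
    rw [e1, e2] at h2
    simp at h2
  have h4 : (wr n (k + 1)).1 = 1 := by rw [h1, h3]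
  have hP : ∀ z, Pm n (z % Lr n) → wr n z = (1, true) := by
    intro z hz; unfold wr; rw [if_pos hz]
  have hdisj : ∀ y, Nm n y → ¬ Pm n y := by
    rintro y (⟨i, hi, hin, rfl, hi0, hi2⟩ | h | h | h) (⟨j, hj, hjn, hij, hj2⟩ | h' | h')
    · have h5 := (q_le_iff hn0 hi hj).1 hij.le
      have h6 := (q_le_iff hn0 hj hi).1 hij.ge
      have : i = j := by omega
      subst this
      rcases hj2 with hj2 | hj2 <;> omega
    · have := (q_bounds hn0 hi hin.le).2
      have h7 := q_lt hn0 hi hin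
      rw [q_n] at h7
      omega
    · have := (q_bounds hn0 hi hin.le).2
      omega
    all_goals first
      | omega
      | (have := (q_bounds hn0 hj hjn.le).2; omega)
  have hN : ∀ z, Nm n (z % Lr n) → wr n z = (1, false) := by
    intro z hz; unfold wr; rw [if_neg (hdisj _ hz), if_pos hz]
  rw [wr_fst_iff] at h3 h4
  rcases h3 with ⟨i, hi, hin, hy⟩ | hy | hy | hy | hy | hy
  · obtain ⟨-, g2, -⟩ := gap hn hi hin hy
    have := g2 1 le_rfl (by omega)
    have h5 := (wr_fst_iff n (k + 1)).2 h4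
    rw [this] at h5
    simp at h5
  · have e := mod_add (k := 1) hy (by omega) (by omega)
    rw [hP k (Or.inr (Or.inl hy)), hP (k + 1) (Or.inr (Or.inr (by rw [e]; ring)))] at h2
    simp at h2
  · have e := mod_add (k := 1) hy (by omega) (by omega)
    rw [e] at h4
    rcases h4 with ⟨j, hj, hjn, hyj⟩ | h | h | h | h | h
    · have := (q_bounds hn0 hj hjn.le).2; omega
    all_goals omega
  · have e := mod_add (k := 1) hy (by omega) (by omega)
    rw [hN k (Or.inr (Or.inl hy)), hN (k + 1) (Or.inr (Or.inr (Or.inl (by rw [e]; ring))))] at h2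
    simp at h2
  · have e := mod_add (k := 1) hy (by omega) (by omega)
    rw [hN k (Or.inr (Or.inr (Or.inl hy))),
      hN (k + 1) (Or.inr (Or.inr (Or.inr (by rw [e]; ring))))] at h2
    simp at h2
  · have e : (k + 1) % Lr n = 0 := by
      have : k + 1 = (k + (1 - Lr n)) + Lr n := by ring
      rw [this, Int.add_emod_right, mod_add hy (by omega) (by omega), hL]
      ring
    rw [e] at h4
    rcases h4 with ⟨j, hj, hjn, hyj⟩ | h | h | h | h | h
    · have := (q_bounds hn0 hj hjn.le).1; omega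
    all_goals omega

end Wr

end Pool.Agent.H89QS
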